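import Pool.Agent.Lib.MP_ed661f_ag.E.Defs

/-!
Multiplicity of a bivariate polynomial at a point (task T2a).
-/

open MvPolynomial

namespace Pool.Agent.Lib.MP_ed661f_ag.E

private theorem tay_inv (p : Fin 2 → ℂ) (f : MvPolynomial (Fin 2) ℂ) :
    aeval (fun i => X i + C (-p i)) (tay p f) = f := by
  have h : ((aeval (fun i => X i + C (-p i)) : MvPolynomial (Fin 2) ℂ →ₐ[ℂ] _).comp
      (aeval (fun i => X i + C (p i)) : MvPolynomial (Fin 2) ℂ →ₐ[ℂ] _)) =
      AlgHom.id ℂ (MvPolynomial (Fin 2) ℂ) := by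
    ext i
    simp
  exact congrArg (fun φ => φ f) h

private theorem tay_ne_zero {p : Fin 2 → ℂ} {f : MvPolynomial (Fin 2) ℂ} (hf : f ≠ 0) : tay p f ≠ 0 := by
  intro h
  have := tay_inv p f
  rw [h, map_zero] at this
  exact hf this.symm

private theorem tay_coe_ne {p : Fin 2 → ℂ} {f : MvPolynomial (Fin 2) ℂ} (hf : f ≠ 0) :
    (tay p f : MvPowerSeries (Fin 2) ℂ) ≠ 0 := by
  intro h
  exact tay_ne_zero (p := p) hf (MvPolynomial.coe_injective _ _ (by simpa using h))

private theorem mlt_cast {p : Fin 2 → ℂ} {f : MvPolynomial (Fin 2) ℂ} (hf : f ≠ 0) :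
    ((mlt p f : ℕ) : ℕ∞) = (tay p f : MvPowerSeries (Fin 2) ℂ).order :=
  MvPowerSeries.ne_zero_iff_order_finite.1 (tay_coe_ne hf)

/-- `m ≤ mlt p f` means that the Taylor coefficients of degree `< m` vanish -/
theorem le_mlt_iff {p : Fin 2 → ℂ} {f : MvPolynomial (Fin 2) ℂ} (hf : f ≠ 0) (m : ℕ) :
    m ≤ mlt p f ↔ ∀ e : Fin 2 →₀ ℕ, e.degree < m → coeff e (tay p f) = 0 := by
  have h1 : m ≤ mlt p f ↔ (m : ℕ∞) ≤ (tay p f : MvPowerSeries (Fin 2) ℂ).order := by
    rw [← mlt_cast hf]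
    exact Nat.cast_le.symm
  rw [h1]
  constructor
  · intro h e he
    have := MvPowerSeries.coeff_of_lt_order (f := (tay p f : MvPowerSeries (Fin 2) ℂ)) (d := e)
      (lt_of_lt_of_le (by exact_mod_cast he) h)
    rwa [MvPolynomial.coeff_coe] at this
  · intro h
    refine MvPowerSeries.nat_le_order fun e he => ?_
    rw [MvPolynomial.coeff_coe]
    exact h e he

theorem mlt_mul {p : Fin 2 → ℂ} {f g : MvPolynomial (Fin 2) ℂ} (hf : f ≠ 0) (hg : g ≠ 0) :
    mlt p (f * g) = mlt p f + mlt p g := by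
  have h := mlt_cast (p := p) (mul_ne_zero hf hg)
  have h2 : (tay p (f * g) : MvPowerSeries (Fin 2) ℂ) = tay p f * tay p g := by
    simp [tay]
  rw [h2, MvPowerSeries.order_mul, ← mlt_cast hf, ← mlt_cast hg] at h
  exact_mod_cast h

private theorem coeff_zero_tay (p : Fin 2 → ℂ) (f : MvPolynomial (Fin 2) ℂ) :
    coeff 0 (tay p f) = eval p f := by
  have h : (constantCoeff.comp ((aeval (fun i => X i + C (p i)) :
      MvPolynomial (Fin 2) ℂ →ₐ[ℂ] MvPolynomial (Fin 2) ℂ)).toRingHom) = eval p := by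
    ext i <;> simp
  exact congrArg (fun φ => φ f) h

theorem mlt_pos_iff {p : Fin 2 → ℂ} {f : MvPolynomial (Fin 2) ℂ} (hf : f ≠ 0) :
    1 ≤ mlt p f ↔ eval p f = 0 := by
  rw [le_mlt_iff hf]
  constructor
  · intro h
    rw [← coeff_zero_tay]
    exact h 0 (by simp)
  · intro h e he
    have : e = 0 := by
      rw [← Finsupp.degree_eq_zero_iff]
      omega
    rw [this, coeff_zero_tay, h]

theorem mlt_unit {p : Fin 2 → ℂ} {f : MvPolynomial (Fin 2) ℂ} (hf : IsUnit f) : mlt p f = 0 := by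
  have h1 : IsUnit (eval p f) := hf.map (eval p)
  by_contra h
  exact h1.ne_zero ((mlt_pos_iff hf.ne_zero).1 (by omega))

private theorem pderiv_tay (p : Fin 2 → ℂ) (i : Fin 2) (f : MvPolynomial (Fin 2) ℂ) :
    tay p (pderiv i f) = pderiv i (tay p f) := by
  induction f using MvPolynomial.induction_on with
  | C a => simp [tay]
  | add f g hf hg =>
    simp only [tay, map_add] at hf hg ⊢
    rw [hf, hg]
  | mul_X f j hf =>
    simp only [tay] at hf ⊢
    rw [Derivation.leibniz, map_mul, Derivation.leibniz]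
    simp only [smul_eq_mul, map_add, map_mul, aeval_X, pderiv_C, add_zero]
    rw [hf]
    congr 1
    congr 1
    by_cases hij : j = i
    · subst hij; simp
    · simp [pderiv_X_of_ne hij]

/-- derivatives lower the multiplicity by at most one -/
theorem mlt_pderiv {p : Fin 2 → ℂ} {f : MvPolynomial (Fin 2) ℂ} (i : Fin 2)
    (hf : pderiv i f ≠ 0) : mlt p f ≤ mlt p (pderiv i f) + 1 := by
  have hf0 : f ≠ 0 := by rintro rfl; simp at hf
  rcases Nat.eq_zero_or_pos (mlt p f) with h | h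
  · omega
  · have h1 : mlt p f - 1 ≤ mlt p (pderiv i f) := by
      rw [le_mlt_iff hf]
      intro e he
      rw [pderiv_tay, coeff_pderiv]
      have h2 := (le_mlt_iff (p := p) hf0 (mlt p f)).1 le_rfl (e + Finsupp.single i 1) (by
        rw [map_add, Finsupp.degree_single]; omega)
      rw [h2, zero_mul]
    omega

/-- order of vanishing along a parametrised curve -/
theorem X_sub_C_pow_dvd_of_mlt {f : MvPolynomial (Fin 2) ℂ} (hf : f ≠ 0)
    (x y : Polynomial ℂ) (t : ℂ) :
    (Polynomial.X - Polynomial.C t) ^ mlt ![x.eval t, y.eval t] f ∣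
      aeval (![x, y] : Fin 2 → Polynomial ℂ) f := by
  set p : Fin 2 → ℂ := ![x.eval t, y.eval t] with hp
  have h1 := tay_inv p f
  have h2 : aeval (![x, y] : Fin 2 → Polynomial ℂ) f =
      aeval (fun i => (![x, y] : Fin 2 → Polynomial ℂ) i - Polynomial.C (p i)) (tay p f) := by
    conv_lhs => rw [← h1]
    have h : ((aeval (![x, y] : Fin 2 → Polynomial ℂ)).comp
        (aeval (fun i => X i + C (-p i)) : MvPolynomial (Fin 2) ℂ →ₐ[ℂ] _)) =
        aeval (fun i => (![x, y] : Fin 2 → Polynomial ℂ) i - Polynomial.C (p i)) := by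
      ext i
      simp [sub_eq_add_neg, ← Polynomial.algebraMap_eq]
    exact congrArg (fun φ => φ (tay p f)) h
  have hi : ∀ i, (Polynomial.X - Polynomial.C t) ∣
      (![x, y] : Fin 2 → Polynomial ℂ) i - Polynomial.C (p i) := by
    intro i
    fin_cases i
    · exact Polynomial.X_sub_C_dvd_sub_C_eval
    · exact Polynomial.X_sub_C_dvd_sub_C_eval
  rw [h2, aeval_def, eval₂_eq]
  refine Finset.dvd_sum fun e he => Dvd.dvd.mul_left ?_ _
  have h3 : mlt p f ≤ e.degree := by
    by_contra h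
    push Not at h
    exact (mem_support_iff.1 he) ((le_mlt_iff (p := p) hf (mlt p f)).1 le_rfl e h)
  refine (pow_dvd_pow _ h3).trans ?_
  have h4 : e.degree = ∑ i : Fin 2, e i := by
    rw [Finsupp.degree_eq_sum]
  rw [h4, ← Finset.prod_pow_eq_pow_sum]
  have h5 : ∏ i ∈ e.support, ((![x, y] : Fin 2 → Polynomial ℂ) i - Polynomial.C (p i)) ^ e i =
      ∏ i : Fin 2, ((![x, y] : Fin 2 → Polynomial ℂ) i - Polynomial.C (p i)) ^ e i := by
    refine Finset.prod_subset (Finset.subset_univ _) fun i _ hi => ?_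
    rw [Finsupp.notMem_support_iff.1 hi, pow_zero]
  rw [h5]
  exact Finset.prod_dvd_prod_of_dvd _ _ fun i _ => pow_dvd_pow_of_dvd (hi i) _

end Pool.Agent.Lib.MP_ed661f_ag.E
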