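import Pool.Agent.Lib.MP_ed661f_ag.E.Mlt

/-!
Bezout's inequality for plane curves with respect to total degree and degree in `y`, with
multiplicities, by a dimension count.
-/

open MvPolynomial

namespace Pool.Agent.Lib.MP_ed661f_ag.E

namespace Bz

/-! ### exponent sets -/

/-- exponents with `e 0 + e 1 < N`, `e 1 < h` -/
noncomputable def S (N h : ℕ) : Finset (Fin 2 →₀ ℕ) :=
  ((Finset.range N ×ˢ Finset.range h).filter (fun x => x.1 + x.2 < N)).image
    (fun x => Finsupp.single 0 x.1 + Finsupp.single 1 x.2)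

theorem mem_S {N h : ℕ} {e : Fin 2 →₀ ℕ} : e ∈ S N h ↔ e 0 + e 1 < N ∧ e 1 < h := by
  unfold S
  simp only [Finset.mem_image, Finset.mem_filter, Finset.mem_product, Finset.mem_range]
  constructor
  · rintro ⟨⟨a, b⟩, ⟨⟨h1, h2⟩, h3⟩, rfl⟩
    simpa using ⟨h3, h2⟩
  · rintro ⟨h1, h2⟩
    refine ⟨(e 0, e 1), ⟨⟨by omega, h2⟩, h1⟩, ?_⟩
    ext i
    fin_cases i <;> simp

theorem card_S {N h : ℕ} (hh : h ≤ N) : 2 * (S N h).card = h * (2 * N + 1 - h) := by
  unfold S
  rw [Finset.card_image_of_injective, Finset.card_filter, Finset.sum_product_right]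
  · have h1 : ∀ j ∈ Finset.range h, (∑ i ∈ Finset.range N, if i + j < N then 1 else 0) = N - j := by
      intro j _
      rw [← Finset.card_filter]
      have : (Finset.range N).filter (fun i => i + j < N) = Finset.range (N - j) := by
        ext i
        simp only [Finset.mem_filter, Finset.mem_range]
        omega
      rw [this, Finset.card_range]
    rw [Finset.sum_congr rfl h1]
    clear h1
    induction h with
    | zero => simp
    | succ h ih =>
      rw [Finset.sum_range_succ, mul_add, ih (by omega)]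
      obtain ⟨k, rfl⟩ : ∃ k, N = h + 1 + k := ⟨N - (h + 1), by omega⟩
      have e1 : 2 * (h + 1 + k) + 1 - h = h + 2 * k + 3 := by omega
      have e2 : h + 1 + k - h = k + 1 := by omega
      have e3 : 2 * (h + 1 + k) + 1 - (h + 1) = h + 2 * k + 2 := by omega
      rw [e1, e2, e3]
      ring
  · rintro ⟨a, b⟩ ⟨c, d⟩ h
    have h0 := DFunLike.congr_fun h 0
    have h1 := DFunLike.congr_fun h 1
    simp at h0 h1
    rw [h0, h1]

theorem card_S_int {N h : ℕ} (hh : h ≤ N) :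
    2 * ((S N h).card : ℤ) = h * (2 * N + 1 - h) := by
  have := card_S hh
  zify [show h ≤ 2 * N + 1 by omega] at this
  exact this

/-! ### spaces of polynomials -/

/-- polynomials with exponents in `S N h` -/
noncomputable def V (N h : ℕ) : Submodule ℂ (MvPolynomial (Fin 2) ℂ) :=
  restrictSupport ℂ (S N h : Set (Fin 2 →₀ ℕ))

instance (N h : ℕ) : FiniteDimensional ℂ (V N h) :=
  Module.Finite.of_basis (basisRestrictSupport ℂ (S N h : Set (Fin 2 →₀ ℕ)))

theorem finrank_V (N h : ℕ) : Module.finrank ℂ (V N h) = (S N h).card := by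
  have := Module.finrank_eq_card_basis (basisRestrictSupport ℂ (S N h : Set (Fin 2 →₀ ℕ)))
  unfold V
  rw [this]
  simp

theorem degree_two (e : Fin 2 →₀ ℕ) : (e.sum fun _ n => n) = e 0 + e 1 := by
  rw [Finsupp.sum_fintype _ _ (fun _ => rfl), Fin.sum_univ_two]

theorem degree_two' (e : Fin 2 →₀ ℕ) : e.degree = e 0 + e 1 := by
  rw [Finsupp.degree_eq_sum, Fin.sum_univ_two]

theorem mem_V {N h : ℕ} {u : MvPolynomial (Fin 2) ℂ} :
    u ∈ V N h ↔ ∀ e ∈ u.support, e 0 + e 1 < N ∧ e 1 < h := by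
  unfold V
  rw [mem_restrictSupport_iff]
  constructor
  · intro h1 e he
    exact mem_S.mp (h1 he)
  · intro h1 e he
    exact mem_S.mpr (h1 e he)

theorem mem_V' {N h : ℕ} {u : MvPolynomial (Fin 2) ℂ} (hu : u ≠ 0) :
    u ∈ V N h ↔ u.totalDegree < N ∧ u.degreeOf 1 < h := by
  rw [mem_V]
  obtain ⟨e₀, he₀⟩ := support_nonempty.mpr hu
  constructor
  · intro h1
    have h2 := h1 e₀ he₀
    constructor
    · rw [totalDegree, Finset.sup_lt_iff (by exact Nat.pos_of_ne_zero (by omega))]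
      intro e he
      rw [degree_two]
      exact (h1 e he).1
    · rw [degreeOf_lt_iff (by omega)]
      intro e he
      exact (h1 e he).2
  · rintro ⟨h1, h2⟩ e he
    have h3 := le_totalDegree he
    rw [degree_two] at h3
    have h4 := monomial_le_degreeOf 1 he
    exact ⟨by omega, by omega⟩

theorem mul_mem_V {N h : ℕ} {a f : MvPolynomial (Fin 2) ℂ} (hf : f ≠ 0) :
    a * f ∈ V N h ↔ a ∈ V (N - f.totalDegree) (h - f.degreeOf 1) := by
  by_cases ha : a = 0
  · subst ha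
    simp only [zero_mul, Submodule.zero_mem]
  · rw [mem_V' (mul_ne_zero ha hf), mem_V' ha, totalDegree_mul_of_isDomain ha hf,
      degreeOf_mul_eq ha hf]
    omega

/-! ### Taylor expansions -/

/-- coefficients of degree `< k` vanish -/
def Ord (k : ℕ) (u : MvPolynomial (Fin 2) ℂ) : Prop := ∀ e : Fin 2 →₀ ℕ, e.degree < k → coeff e u = 0

theorem Ord.add {k : ℕ} {u v : MvPolynomial (Fin 2) ℂ} (hu : Ord k u) (hv : Ord k v) :
    Ord k (u + v) := by
  intro e he
  rw [coeff_add, hu e he, hv e he, add_zero]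

theorem Ord.mul {j k : ℕ} {u v : MvPolynomial (Fin 2) ℂ} (hu : Ord j u) (hv : Ord k v) :
    Ord (j + k) (u * v) := by
  intro e he
  rw [coeff_mul]
  refine Finset.sum_eq_zero fun x hx => ?_
  rw [Finset.HasAntidiagonal.mem_antidiagonal] at hx
  have h1 : x.1.degree + x.2.degree = e.degree := by
    rw [← hx, map_add]
  rcases Nat.lt_or_ge x.1.degree j with h2 | h2
  · rw [hu _ h2, zero_mul]
  · rw [hv _ (by omega), mul_zero]

theorem ord_zero (u : MvPolynomial (Fin 2) ℂ) : Ord 0 u := fun e he => absurd he (by omega)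

theorem tay_mul (p : Fin 2 → ℂ) (u v : MvPolynomial (Fin 2) ℂ) :
    tay p (u * v) = tay p u * tay p v := map_mul _ _ _

theorem tay_add (p : Fin 2 → ℂ) (u v : MvPolynomial (Fin 2) ℂ) :
    tay p (u + v) = tay p u + tay p v := map_add _ _ _

theorem tay_sub (p : Fin 2 → ℂ) (u v : MvPolynomial (Fin 2) ℂ) :
    tay p (u - v) = tay p u - tay p v := map_sub _ _ _

theorem tay_X_sub_C (p : Fin 2 → ℂ) (i : Fin 2) : tay p (X i - C (p i)) = X i := by
  unfold tay
  rw [map_sub, aeval_X, algHom_C, algebraMap_eq, add_sub_cancel_right]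

theorem tay_neg_tay (p : Fin 2 → ℂ) (u : MvPolynomial (Fin 2) ℂ) : tay p (tay (-p) u) = u := by
  have h : ((aeval (fun i => X i + C (p i)) : MvPolynomial (Fin 2) ℂ →ₐ[ℂ] MvPolynomial (Fin 2) ℂ).comp
      (aeval (fun i => X i + C ((-p) i)))) = AlgHom.id ℂ _ := by
    refine MvPolynomial.algHom_ext fun i => ?_
    simp
  exact DFunLike.congr_fun h u

/-- the ideal of polynomials which vanish to order `k` at `p` -/
noncomputable def OI (p : Fin 2 → ℂ) (k : ℕ) : Ideal (MvPolynomial (Fin 2) ℂ) where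
  carrier := {u | Ord k (tay p u)}
  add_mem' := by
    intro u v hu hv
    rw [Set.mem_ofPred_eq, tay_add]
    exact Ord.add hu hv
  zero_mem' := by
    intro e _
    unfold tay
    simp
  smul_mem' := by
    intro c u hu
    rw [Set.mem_ofPred_eq, smul_eq_mul, tay_mul]
    have := (ord_zero (tay p c)).mul hu
    rwa [zero_add] at this

theorem mem_OI {p : Fin 2 → ℂ} {k : ℕ} {u : MvPolynomial (Fin 2) ℂ} :
    u ∈ OI p k ↔ Ord k (tay p u) := Iff.rfl

/-- the maximal ideal of `p` -/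
noncomputable def MI (p : Fin 2 → ℂ) : Ideal (MvPolynomial (Fin 2) ℂ) :=
  Ideal.span (Set.range fun i : Fin 2 => X i - C (p i))

theorem MI_pow_le (p : Fin 2 → ℂ) (k : ℕ) : MI p ^ k ≤ OI p k := by
  induction k with
  | zero => exact fun u _ => ord_zero _
  | succ k ih =>
    rw [pow_succ, Ideal.mul_le]
    intro r hr s hs
    have h1 : s ∈ OI p 1 := by
      have h2 : MI p ≤ OI p 1 := by
        unfold MI
        rw [Ideal.span_le]
        rintro _ ⟨i, rfl⟩
        show Ord 1 (tay p (X i - C (p i)))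
        rw [tay_X_sub_C]
        intro e he
        have h3 : e = 0 := by
          rw [← Finsupp.degree_eq_zero_iff]
          omega
        rw [h3]
        simp
      exact h2 hs
    rw [mem_OI, tay_mul]
    exact Ord.mul (ih hr) h1

theorem MI_coprime {p q : Fin 2 → ℂ} (hpq : p ≠ q) : IsCoprime (MI p) (MI q) := by
  obtain ⟨i, hi⟩ := Function.ne_iff.mp hpq
  rw [Ideal.isCoprime_iff_sup_eq, Ideal.eq_top_iff_one]
  have h1 : (X i - C (p i) : MvPolynomial (Fin 2) ℂ) ∈ MI p ⊔ MI q :=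
    Ideal.mem_sup_left (Ideal.subset_span ⟨i, rfl⟩)
  have h2 : (X i - C (q i) : MvPolynomial (Fin 2) ℂ) ∈ MI p ⊔ MI q :=
    Ideal.mem_sup_right (Ideal.subset_span ⟨i, rfl⟩)
  have h3 := Ideal.mul_mem_left _ (C ((p i - q i)⁻¹)) (Ideal.sub_mem _ h2 h1)
  have h4 : C ((p i - q i)⁻¹) * (X i - C (q i) - (X i - C (p i))) = (1 : MvPolynomial (Fin 2) ℂ) := by
    have : (X i - C (q i) - (X i - C (p i)) : MvPolynomial (Fin 2) ℂ) = C (p i - q i) := by
      rw [C_sub]
      ring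
    rw [this, ← C_mul, inv_mul_cancel₀ (sub_ne_zero.mpr hi), C_1]
  rwa [h4] at h3

/-- Hermite interpolation -/
theorem exists_jets (P : Finset (Fin 2 → ℂ)) (k : (Fin 2 → ℂ) → ℕ)
    (t : (Fin 2 → ℂ) → (Fin 2 →₀ ℕ) → ℂ) :
    ∃ u : MvPolynomial (Fin 2) ℂ, ∀ p ∈ P, ∀ e : Fin 2 →₀ ℕ, e.degree < k p →
      coeff e (tay p u) = t p e := by
  have hI : Pairwise (Function.onFun IsCoprime (fun p : P => MI (p : Fin 2 → ℂ) ^ k p)) := by
    intro p q hpq
    exact (MI_coprime (fun h => hpq (Subtype.ext h))).pow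
  obtain ⟨u, hu⟩ := Ideal.exists_forall_sub_mem_ideal hI
    (fun p : P => tay (-(p : Fin 2 → ℂ)) (∑ e ∈ S (k p) (k p), monomial e (t p e)))
  refine ⟨u, fun p hp e he => ?_⟩
  have h1 := MI_pow_le _ _ (hu ⟨p, hp⟩)
  rw [mem_OI, tay_sub, tay_neg_tay] at h1
  have h2 := h1 e he
  rw [coeff_sub, sub_eq_zero] at h2
  rw [h2, coeff_sum]
  simp only [coeff_monomial]
  rw [Finset.sum_ite_eq' (S (k p) (k p)) e (t p)]
  rw [if_pos]
  rw [mem_S]
  rw [degree_two'] at he
  exact ⟨he, by omega⟩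

/-! ### the dimension count -/

/-- indices of jets -/
abbrev Idx (P : Finset (Fin 2 → ℂ)) (k : (Fin 2 → ℂ) → ℕ) := (p : P) × (S (k p) (k p))

/-- Taylor coefficients of degree `< k p` at the points `p` of `P` -/
noncomputable def T (P : Finset (Fin 2 → ℂ)) (k : (Fin 2 → ℂ) → ℕ) :
    MvPolynomial (Fin 2) ℂ →ₗ[ℂ] (Idx P k → ℂ) :=
  LinearMap.pi fun i => (lcoeff ℂ (i.2 : Fin 2 →₀ ℕ)).comp
    (aeval (fun j => X j + C ((i.1 : Fin 2 → ℂ) j)) :
      MvPolynomial (Fin 2) ℂ →ₐ[ℂ] MvPolynomial (Fin 2) ℂ).toLinearMap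

theorem T_apply (P : Finset (Fin 2 → ℂ)) (k : (Fin 2 → ℂ) → ℕ) (u : MvPolynomial (Fin 2) ℂ)
    (i : Idx P k) : T P k u i = coeff (i.2 : Fin 2 →₀ ℕ) (tay i.1 u) := rfl

theorem T_surj (P : Finset (Fin 2 → ℂ)) (k : (Fin 2 → ℂ) → ℕ) : Function.Surjective (T P k) := by
  classical
  intro t
  obtain ⟨u, hu⟩ := exists_jets P k (fun p e => if h : ∃ (hp : p ∈ P), e ∈ S (k p) (k p) then
    t ⟨⟨p, h.1⟩, ⟨e, h.2⟩⟩ else 0)
  refine ⟨u, ?_⟩
  funext ⟨⟨p, hp⟩, ⟨e, he⟩⟩
  rw [T_apply]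
  have h1 : e.degree < k p := by
    rw [degree_two']
    exact (mem_S.mp he).1
  rw [hu p hp e h1, dif_pos ⟨hp, he⟩]

theorem exists_surj (P : Finset (Fin 2 → ℂ)) (k : (Fin 2 → ℂ) → ℕ) :
    ∃ n₀ : ℕ, ∀ N h : ℕ, n₀ ≤ N → n₀ ≤ h → ∀ t : Idx P k → ℂ, ∃ u ∈ V N h, T P k u = t := by
  classical
  choose u hu using fun i : Idx P k => T_surj P k (Pi.single i 1)
  refine ⟨1 + ∑ i, ((u i).totalDegree + (u i).degreeOf 1), fun N h hN hh t => ?_⟩
  refine ⟨∑ i, t i • u i, Submodule.sum_mem _ fun i _ => Submodule.smul_mem _ _ ?_, ?_⟩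
  · have h1 : (u i).totalDegree + (u i).degreeOf 1 ≤
        ∑ i, ((u i).totalDegree + (u i).degreeOf 1) :=
      Finset.single_le_sum (f := fun i => (u i).totalDegree + (u i).degreeOf 1)
        (fun _ _ => Nat.zero_le _) (Finset.mem_univ i)
    rw [mem_V]
    intro e he
    have h3 := le_totalDegree he
    rw [degree_two] at h3
    have h4 := monomial_le_degreeOf 1 he
    exact ⟨by omega, by omega⟩
  · rw [map_sum]
    simp_rw [map_smul, hu]
    funext j
    simp [Finset.sum_apply, Pi.single_apply]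

/-- truncation -/
noncomputable def tr (n : ℕ) (w : MvPolynomial (Fin 2) ℂ) : MvPolynomial (Fin 2) ℂ :=
  ∑ e : S n n, monomial (e : Fin 2 →₀ ℕ) (coeff (e : Fin 2 →₀ ℕ) w)

theorem ord_sub_tr (n : ℕ) (w : MvPolynomial (Fin 2) ℂ) : Ord n (w - tr n w) := by
  intro e he
  have h1 : e ∈ S n n := by
    rw [mem_S]
    rw [degree_two'] at he
    exact ⟨he, by omega⟩
  unfold tr
  rw [Finset.sum_coe_sort (S n n) (fun e => monomial e (coeff e w)), coeff_sub, coeff_sum]
  simp only [coeff_monomial]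
  rw [Finset.sum_ite_eq' (S n n) e (fun e => coeff e w), if_pos h1, sub_self]

theorem coeff_tr {n m : ℕ} {v : MvPolynomial (Fin 2) ℂ} (hv : Ord m v)
    (w : MvPolynomial (Fin 2) ℂ) {e : Fin 2 →₀ ℕ} (he : e.degree < n + m) :
    coeff e (w * v) = coeff e (tr n w * v) := by
  have h1 := ((ord_sub_tr n w).mul hv) e he
  rw [sub_mul, coeff_sub, sub_eq_zero] at h1
  exact h1

/-- parameters -/
abbrev Par (P : Finset (Fin 2 → ℂ)) (k l : (Fin 2 → ℂ) → ℕ) :=
  (p : P) × (S (k p) (k p) ⊕ S (l p) (l p))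

/-- jets of combinations of `f` and `g` -/
noncomputable def Th (P : Finset (Fin 2 → ℂ)) (k l : (Fin 2 → ℂ) → ℕ)
    (f g : MvPolynomial (Fin 2) ℂ) : (Par P k l → ℂ) →ₗ[ℂ] (Idx P (fun p => k p + l p) → ℂ) where
  toFun α := fun i => coeff (i.2 : Fin 2 →₀ ℕ)
    ((∑ e : S (k i.1) (k i.1), monomial (e : Fin 2 →₀ ℕ) (α ⟨i.1, Sum.inl e⟩)) * tay i.1 f +
      (∑ e : S (l i.1) (l i.1), monomial (e : Fin 2 →₀ ℕ) (α ⟨i.1, Sum.inr e⟩)) * tay i.1 g)
  map_add' α β := by
    funext i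
    simp only [Pi.add_apply, map_add, Finset.sum_add_distrib, add_mul, coeff_add]
    ring
  map_smul' c α := by
    funext i
    simp only [Pi.smul_apply, smul_eq_mul, RingHom.id_apply]
    have h1 : ∀ (e : Fin 2 →₀ ℕ) (x : ℂ), monomial e (c * x) = C c * monomial e x := by
      intro e x
      rw [C_mul_monomial]
    simp only [h1, ← Finset.mul_sum, mul_assoc, ← mul_add, coeff_C_mul]

theorem T_mem_range (P : Finset (Fin 2 → ℂ)) (k l : (Fin 2 → ℂ) → ℕ)
    {f g : MvPolynomial (Fin 2) ℂ} (hf : ∀ p, Ord (l p) (tay p f)) (hg : ∀ p, Ord (k p) (tay p g))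
    (a c : MvPolynomial (Fin 2) ℂ) :
    T P (fun p => k p + l p) (a * f + c * g) ∈ LinearMap.range (Th P k l f g) := by
  refine ⟨fun x => Sum.elim (fun e : S (k x.1) (k x.1) => coeff (e : Fin 2 →₀ ℕ) (tay x.1 a))
    (fun e : S (l x.1) (l x.1) => coeff (e : Fin 2 →₀ ℕ) (tay x.1 c)) x.2, ?_⟩
  funext ⟨p, ⟨e, he⟩⟩
  rw [T_apply]
  have h1 : e.degree < k p + l p := by
    rw [degree_two']
    exact (mem_S.mp he).1
  have h2 : e.degree < l p + k p := by omega
  rw [tay_add, tay_mul, tay_mul, coeff_add, coeff_tr (n := k p) (hf p) _ h1,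
    coeff_tr (n := l p) (hg p) _ h2]
  exact coeff_add _ _ _

theorem card_Idx (P : Finset (Fin 2 → ℂ)) (k : (Fin 2 → ℂ) → ℕ) :
    2 * (Module.finrank ℂ (Idx P k → ℂ) : ℤ) = ∑ p ∈ P, (k p : ℤ) * (k p + 1) := by
  rw [Module.finrank_fintype_fun_eq_card, Fintype.card_sigma]
  simp only [Fintype.card_coe]
  rw [Finset.sum_coe_sort P (fun p => (S (k p) (k p)).card), Nat.cast_sum, Finset.mul_sum]
  refine Finset.sum_congr rfl fun p _ => ?_
  rw [card_S_int le_rfl]
  ring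

theorem card_Par (P : Finset (Fin 2 → ℂ)) (k l : (Fin 2 → ℂ) → ℕ) :
    2 * (Module.finrank ℂ (Par P k l → ℂ) : ℤ) =
      ∑ p ∈ P, ((k p : ℤ) * (k p + 1) + l p * (l p + 1)) := by
  rw [Module.finrank_fintype_fun_eq_card, Fintype.card_sigma]
  simp only [Fintype.card_sum, Fintype.card_coe]
  rw [Finset.sum_coe_sort P (fun p => (S (k p) (k p)).card + (S (l p) (l p)).card), Nat.cast_sum,
    Finset.mul_sum]
  refine Finset.sum_congr rfl fun p _ => ?_
  rw [Nat.cast_add, mul_add, card_S_int le_rfl, card_S_int le_rfl]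
  ring

/-- multiples of `f` -/
noncomputable def mu (f : MvPolynomial (Fin 2) ℂ) (N h : ℕ) :
    Submodule ℂ (MvPolynomial (Fin 2) ℂ) :=
  (V (N - f.totalDegree) (h - f.degreeOf 1)).map (LinearMap.mulRight ℂ f)

theorem mem_mu {f : MvPolynomial (Fin 2) ℂ} {N h : ℕ} {u : MvPolynomial (Fin 2) ℂ} :
    u ∈ mu f N h ↔ ∃ a ∈ V (N - f.totalDegree) (h - f.degreeOf 1), a * f = u := by
  unfold mu
  rw [Submodule.mem_map]
  rfl

instance (f : MvPolynomial (Fin 2) ℂ) (N h : ℕ) : FiniteDimensional ℂ (mu f N h) := by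
  unfold mu
  infer_instance

theorem finrank_mu {f : MvPolynomial (Fin 2) ℂ} (hf : f ≠ 0) (N h : ℕ) :
    Module.finrank ℂ (mu f N h) = (S (N - f.totalDegree) (h - f.degreeOf 1)).card := by
  rw [← finrank_V]
  unfold mu
  have hinj : Function.Injective (LinearMap.mulRight ℂ f) := by
    intro a b hab
    exact mul_right_cancel₀ hf hab
  exact (Submodule.equivMapOfInjective _ hinj _).finrank_eq.symm

theorem mu_le {f : MvPolynomial (Fin 2) ℂ} (hf : f ≠ 0) (N h : ℕ) : mu f N h ≤ V N h := by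
  intro u hu
  obtain ⟨a, ha, rfl⟩ := mem_mu.mp hu
  exact (mul_mem_V hf).mpr ha

theorem mu_inf {f g : MvPolynomial (Fin 2) ℂ} (hf : f ≠ 0) (hg : g ≠ 0) (hr : IsRelPrime f g)
    (N h : ℕ) : mu f N h ⊓ mu g N h = mu (f * g) N h := by
  apply le_antisymm
  · rintro u ⟨h1, h2⟩
    obtain ⟨a, ha, hau⟩ := mem_mu.mp h1
    obtain ⟨c, hc, hcu⟩ := mem_mu.mp h2
    have h3 : f ∣ c * g := ⟨a, by rw [hcu, ← hau, mul_comm]⟩
    obtain ⟨e, rfl⟩ := hr.dvd_of_dvd_mul_right h3
    rw [mem_mu]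
    refine ⟨e, ?_, by rw [← hcu]; ring⟩
    rw [← mul_mem_V (mul_ne_zero hf hg)]
    have h4 : e * (f * g) = u := by rw [← hcu]; ring
    rw [h4]
    exact mu_le hf N h h1
  · intro u hu
    obtain ⟨e, he, rfl⟩ := mem_mu.mp hu
    rw [← mul_mem_V (mul_ne_zero hf hg)] at he
    refine ⟨mem_mu.mpr ⟨e * g, ?_, by ring⟩, mem_mu.mpr ⟨e * f, ?_, by ring⟩⟩
    · rw [← mul_mem_V hf]
      have : e * g * f = e * (f * g) := by ring
      rwa [this]
    · rw [← mul_mem_V hg]
      have : e * f * g = e * (f * g) := by ring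
      rwa [this]

end Bz

/-- Bezout's inequality with respect to total degree and degree in the second variable; the
hypotheses on the multiplicities are inequalities between orders -/
theorem Bz.main {f g : MvPolynomial (Fin 2) ℂ} (hf : f ≠ 0) (hg : g ≠ 0) (h : IsRelPrime f g)
    (P : Finset (Fin 2 → ℂ)) (k l : (Fin 2 → ℂ) → ℕ)
    (hl : ∀ p, Bz.Ord (l p) (tay p f)) (hk : ∀ p, Bz.Ord (k p) (tay p g)) :
    (∑ p ∈ P, (l p : ℤ) * k p) ≤
      (f.totalDegree : ℤ) * g.degreeOf 1 + g.totalDegree * f.degreeOf 1 -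
        f.degreeOf 1 * g.degreeOf 1 := by
  obtain ⟨n₀, hn₀⟩ := Bz.exists_surj P (fun p => k p + l p)
  set df := f.totalDegree with hdf
  set dg := g.totalDegree with hdg
  set bf := f.degreeOf 1 with hbf
  set bg := g.degreeOf 1 with hbg
  set H : ℕ := n₀ + bf + bg with hH
  set N : ℕ := H + df + dg with hN
  set W := LinearMap.range (Bz.Th P k l f g) with hW
  set R := Bz.mu f N H ⊔ Bz.mu g N H with hR
  have hRV : R ≤ Bz.V N H := sup_le (Bz.mu_le hf N H) (Bz.mu_le hg N H)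
  set Smap : Bz.V N H →ₗ[ℂ] ((Bz.Idx P (fun p => k p + l p) → ℂ) ⧸ W) :=
    W.mkQ.comp ((Bz.T P (fun p => k p + l p)).comp (Bz.V N H).subtype) with hS
  have hsurj : LinearMap.range Smap = ⊤ := by
    rw [LinearMap.range_eq_top]
    intro y
    obtain ⟨t, rfl⟩ := W.mkQ_surjective y
    obtain ⟨u, hu, hut⟩ := hn₀ N H (by omega) (by omega) t
    exact ⟨⟨u, hu⟩, by rw [← hut]; rfl⟩
  have h1 := Smap.finrank_range_add_finrank_ker
  rw [hsurj, finrank_top, Bz.finrank_V] at h1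
  have h2 : R.comap (Bz.V N H).subtype ≤ LinearMap.ker Smap := by
    rintro ⟨u, hu⟩ huR
    rw [LinearMap.mem_ker]
    show W.mkQ (Bz.T P (fun p => k p + l p) u) = 0
    rw [Submodule.mkQ_apply, Submodule.Quotient.mk_eq_zero]
    rw [Submodule.mem_comap] at huR
    obtain ⟨x, hx, y, hy, hxy⟩ := Submodule.mem_sup.mp huR
    obtain ⟨a, _, rfl⟩ := Bz.mem_mu.mp hx
    obtain ⟨c, _, rfl⟩ := Bz.mem_mu.mp hy
    have h3 : u = a * f + c * g := hxy.symm
    rw [h3]
    exact Bz.T_mem_range P k l hl hk a c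
  have h3 : Module.finrank ℂ R ≤ Module.finrank ℂ (LinearMap.ker Smap) := by
    rw [← (Submodule.comapSubtypeEquivOfLe hRV).finrank_eq]
    exact Submodule.finrank_mono h2
  have h4 := Submodule.finrank_sup_add_finrank_inf_eq (Bz.mu f N H) (Bz.mu g N H)
  rw [Bz.mu_inf hf hg h, Bz.finrank_mu hf, Bz.finrank_mu hg, Bz.finrank_mu (mul_ne_zero hf hg),
    totalDegree_mul_of_isDomain hf hg, degreeOf_mul_eq hf hg] at h4
  have h5 := Submodule.finrank_quotient_add_finrank W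
  have h6 : Module.finrank ℂ W ≤ Module.finrank ℂ (Bz.Par P k l → ℂ) := LinearMap.finrank_range_le _
  have h7 := Bz.card_Idx P (fun p => k p + l p)
  have h8 := Bz.card_Par P k l
  have c1 := Bz.card_S_int (N := N) (h := H) (by omega)
  have c2 := Bz.card_S_int (N := N - df) (h := H - bf) (by omega)
  have c3 := Bz.card_S_int (N := N - dg) (h := H - bg) (by omega)
  have c4 := Bz.card_S_int (N := N - (df + dg)) (h := H - (bf + bg)) (by omega)
  rw [Nat.cast_sub (by omega), Nat.cast_sub (by omega)] at c2 c3 c4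
  push_cast at c4
  have h9 : ∑ p ∈ P, (((k p + l p : ℕ) : ℤ) * ((k p + l p : ℕ) + 1)) -
      ∑ p ∈ P, ((k p : ℤ) * (k p + 1) + l p * (l p + 1)) = 2 * ∑ p ∈ P, (l p : ℤ) * k p := by
    rw [← Finset.sum_sub_distrib, Finset.mul_sum]
    refine Finset.sum_congr rfl fun p _ => ?_
    push_cast
    ring
  zify at h1 h3 h4 h5 h6
  have h10 : 2 * ((Bz.S N H).card : ℤ) - 2 * (Bz.S (N - df) (H - bf)).card -
      2 * (Bz.S (N - dg) (H - bg)).card + 2 * (Bz.S (N - (df + dg)) (H - (bf + bg))).card =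
      2 * ((df : ℤ) * bg + dg * bf - bf * bg) := by
    rw [c1, c2, c3, c4]
    ring
  linarith

/-- Bezout's inequality with respect to total degree and degree in the second variable -/
theorem bezout {f g : MvPolynomial (Fin 2) ℂ} (hf : f ≠ 0) (hg : g ≠ 0) (h : IsRelPrime f g)
    (P : Finset (Fin 2 → ℂ)) :
    (∑ p ∈ P, (mlt p f : ℤ) * mlt p g) ≤
      (f.totalDegree : ℤ) * g.degreeOf 1 + g.totalDegree * f.degreeOf 1 -
        f.degreeOf 1 * g.degreeOf 1 :=
  Bz.main hf hg h P (fun p => mlt p g) (fun p => mlt p f)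
    (fun p => (le_mlt_iff hf _).mp le_rfl) (fun p => (le_mlt_iff hg _).mp le_rfl)

end Pool.Agent.Lib.MP_ed661f_ag.E
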