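import Pool.Agent.Lib.MP_ed661f_ag.E.Defs
import Pool.Agent.Lib.MP_6b2d39_ag.FatSystem
import Pool.Agent.Lib.MP_6b2d39_ag.Transfer

/-!
From one tuple of points to general points (minors of the matrix of conditions).
-/

open MvPolynomial

namespace Pool.Agent.Lib.MP_ed661f_ag.E

open Pool.Agent.Lib.MP_6b2d39_ag

namespace Generic

private theorem mul_choose (s j : ℕ) :
    (s : ℂ) * (s.choose j : ℂ) = (j + 1 : ℂ) * (s.choose (j + 1) : ℂ) + j * (s.choose j : ℂ) := by
  have h := Nat.choose_succ_right_eq s j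
  rcases le_or_gt j s with hj | hj
  · have h2 : (s.choose (j + 1) : ℂ) * (j + 1) = s.choose j * ((s : ℂ) - j) := by
      rw [← Nat.cast_sub hj]
      exact_mod_cast h
    linear_combination -h2
  · rw [Nat.choose_eq_zero_of_lt hj, Nat.choose_eq_zero_of_lt (by omega)]
    simp

private theorem sum_pow_choose {ι : Type*} (T : Finset ι) (s : ι → ℕ) (w : ι → ℂ) (M : ℕ)
    (h : ∀ a : ℕ, a < M → ∑ i ∈ T, ((s i).choose a : ℂ) * w i = 0) :
    ∀ a j : ℕ, a + j < M →
      ∑ i ∈ T, (s i : ℂ) ^ a * ((s i).choose j : ℂ) * w i = 0 := by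
  intro a
  induction a with
  | zero =>
    intro j hj
    simpa using h j (by omega)
  | succ a ih =>
    intro j hj
    have h1 := ih (j + 1) (by omega)
    have h2 := ih j (by omega)
    have : ∑ i ∈ T, (s i : ℂ) ^ (a + 1) * ((s i).choose j : ℂ) * w i =
        (j + 1 : ℂ) * ∑ i ∈ T, (s i : ℂ) ^ a * ((s i).choose (j + 1) : ℂ) * w i +
        j * ∑ i ∈ T, (s i : ℂ) ^ a * ((s i).choose j : ℂ) * w i := by
      rw [Finset.mul_sum, Finset.mul_sum, ← Finset.sum_add_distrib]
      refine Finset.sum_congr rfl fun i _ => ?_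
      linear_combination (s i : ℂ) ^ a * w i * mul_choose (s i) j
    rw [this, h1, h2]
    simp

private theorem sum_pow {ι : Type*} (T : Finset ι) (s : ι → ℕ) (w : ι → ℂ) (M : ℕ)
    (h : ∀ a : ℕ, a < M → ∑ i ∈ T, ((s i).choose a : ℂ) * w i = 0) :
    ∀ a : ℕ, a < M → ∑ i ∈ T, (s i : ℂ) ^ a * w i = 0 := by
  intro a ha
  simpa using sum_pow_choose T s w M h a 0 (by omega)

private theorem sum_pow_pow {ι : Type*} (T : Finset ι) (s t : ι → ℕ) (w : ι → ℂ) (m : ℕ)
    (h : ∀ a b : ℕ, a + b < m →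
      ∑ i ∈ T, ((s i).choose a : ℂ) * ((t i).choose b : ℂ) * w i = 0) :
    ∀ a b : ℕ, a + b < m → ∑ i ∈ T, (s i : ℂ) ^ a * (t i : ℂ) ^ b * w i = 0 := by
  intro a b hab
  have h1 : ∀ b' : ℕ, a + b' < m →
      ∑ i ∈ T, (s i : ℂ) ^ a * (((t i).choose b' : ℂ) * w i) = 0 := by
    intro b' hb'
    refine sum_pow T s (fun i => ((t i).choose b' : ℂ) * w i) (m - b') ?_ a (by omega)
    intro a' ha'
    rw [← h a' b' (by omega)]
    exact Finset.sum_congr rfl fun i _ => by ring
  have h2 := sum_pow T t (fun i => (s i : ℂ) ^ a * w i) (m - a) ?_ b (by omega)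
  · rw [← h2]
    exact Finset.sum_congr rfl fun i _ => by ring
  · intro b' hb'
    rw [← h1 b' (by omega)]
    exact Finset.sum_congr rfl fun i _ => by ring

/-- the cells of the triangle -/
private def emb {d : ℕ} (i : Transfer.Ix d) : Cell := (((i.1.1 : ℕ) : ℤ), ((i.1.2 : ℕ) : ℤ))

private theorem emb_injective {d : ℕ} : Function.Injective (emb (d := d)) := by
  intro i j h
  have h0 := congrArg (fun n : Cell => n.1) h
  have h1 := congrArg (fun n : Cell => n.2) h
  simp only [emb, Nat.cast_inj] at h0 h1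
  exact Subtype.ext (Prod.ext (Fin.ext h0) (Fin.ext h1))

private theorem trap_eq (d : ℕ) :
    trap (d + 1) (d + 1) = Finset.univ.image (emb (d := d)) := by
  ext α
  rw [mem_trap, Finset.mem_image]
  constructor
  · rintro ⟨h1, h2, h3, h4⟩
    refine ⟨⟨(⟨α.1.toNat, by omega⟩, ⟨α.2.toNat, by omega⟩), ?_⟩, Finset.mem_univ _, ?_⟩
    · simp only
      omega
    · simp only [emb]
      ext <;> simp <;> omega
  · rintro ⟨i, -, rfl⟩
    have h1 := i.2
    have h2 := i.1.1.2
    have h3 := i.1.2.2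
    simp only [emb]
    omega

private theorem sum_trap (d : ℕ) (g : Cell → ℂ) :
    ∑ α ∈ trap (d + 1) (d + 1), g α = ∑ i : Transfer.Ix d, g (emb i) := by
  rw [trap_eq, Finset.sum_image (fun i _ j _ h => emb_injective h)]

/-- the conditions -/
private abbrev Jx (n m : ℕ) : Type := {t : Fin n × ℕ × ℕ // t.2.1 + t.2.2 < m}

/-- the rows of the matrix of conditions -/
private def row {R : Type*} [CommRing R] {n m d : ℕ} (x y : Fin n → R) (j : Jx n m)
    (i : Transfer.Ix d) : R :=
  Transfer.entry (x j.1.1) (y j.1.1) j.1.2.1 j.1.2.2 i.1.1 i.1.2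

private theorem map_minor {R R' : Type*} [CommRing R] [CommRing R'] {n m d : ℕ} (φ : R →+* R')
    (x y : Fin n → R) (a : Transfer.Ix d → Jx n m) :
    φ (Matrix.of fun i i' => row x y (a i) i').det =
      (Matrix.of fun i i' => row (fun v => φ (x v)) (fun v => φ (y v)) (a i) i').det := by
  rw [RingHom.map_det]
  congr 1
  ext i i'
  simp [row, Transfer.map_entry]

private theorem entry_mul (x y : ℂ) (a b s t : ℕ) :
    x ^ a * y ^ b * Transfer.entry x y a b s t =
      (s.choose a : ℂ) * (t.choose b : ℂ) * (x ^ s * y ^ t) := by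
  rw [Transfer.entry]
  rcases le_or_gt a s with ha | ha
  · rcases le_or_gt b t with hb | hb
    · obtain ⟨u, rfl⟩ := Nat.exists_eq_add_of_le ha
      obtain ⟨v, rfl⟩ := Nat.exists_eq_add_of_le hb
      rw [Nat.add_sub_cancel_left, Nat.add_sub_cancel_left, pow_add, pow_add]
      ring
    · rw [Nat.choose_eq_zero_of_lt hb]
      simp
  · rw [Nat.choose_eq_zero_of_lt ha]
    simp

end Generic

open Generic in
theorem generic_of_emp {m n d : ℕ} (h : Emp m (trap (d + 1) (d + 1)) n) :
    ∃ Φ : MvPolynomial (Fin n × Fin 2) ℂ, Φ ≠ 0 ∧ ∀ p : Fin n → Fin 2 → ℂ,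
      MvPolynomial.eval (fun q => p q.1 q.2) Φ ≠ 0 →
        fatSystem d (fun _ : Fin n => m) p = ⊥ := by
  obtain ⟨p₀, hp₀⟩ := h
  -- a nonzero minor at the points `p₀`
  obtain ⟨a, ha⟩ := Transfer.exists_minor (K := ℂ) (I := Transfer.Ix d) (J := Jx n m)
    (row (fun v => ((p₀ v).1 : ℂ)) (fun v => ((p₀ v).2 : ℂ))) (by
    intro c hc
    have h1 := hp₀ (Function.extend emb c 0) (by
      intro v a b hab
      rw [sum_trap]
      simp only [emb_injective.extend_apply]
      have h2 := sum_pow_pow Finset.univ (fun i : Transfer.Ix d => (i.1.1 : ℕ))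
        (fun i : Transfer.Ix d => (i.1.2 : ℕ)) (fun i => c i * mon (p₀ v) (emb i)) m (by
          intro a' b' hab'
          have h3 := hc ⟨(v, a', b'), hab'⟩
          simp only [row] at h3
          have h4 := congrArg (fun z => ((p₀ v).1 : ℂ) ^ a' * ((p₀ v).2 : ℂ) ^ b' * z) h3
          simp only [mul_zero] at h4
          rw [← h4, Finset.mul_sum]
          refine Finset.sum_congr rfl fun i _ => ?_
          rw [← mul_assoc (_ * _) _ (c i), entry_mul]
          simp only [mon, emb, zpow_natCast]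
          push_cast
          ring) a b hab
      rw [← h2]
      refine Finset.sum_congr rfl fun i _ => ?_
      simp only [emb]
      push_cast
      ring)
    ext i
    have h5 := h1 (emb i) (by
      rw [trap_eq]
      exact Finset.mem_image_of_mem _ (Finset.mem_univ _))
    rw [emb_injective.extend_apply] at h5
    rw [h5]
    rfl)
  -- the universal minor
  let Xu : Fin n → MvPolynomial (Fin n × Fin 2) ℂ := fun v => MvPolynomial.X (v, 0)
  let Yu : Fin n → MvPolynomial (Fin n × Fin 2) ℂ := fun v => MvPolynomial.X (v, 1)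
  refine ⟨(Matrix.of fun i i' => row Xu Yu (a i) i').det, ?_, ?_⟩
  · intro h0
    apply ha
    have h1 := map_minor (MvPolynomial.eval (fun q : Fin n × Fin 2 =>
      if q.2 = 0 then ((p₀ q.1).1 : ℂ) else ((p₀ q.1).2 : ℂ))) Xu Yu a
    rw [h0, map_zero] at h1
    rw [h1]
    congr 1
    ext i i'
    simp [Xu, Yu]
  · intro p hp
    rw [map_minor] at hp
    rw [eq_bot_iff]
    intro f hf
    rw [fatSystem, Submodule.mem_inf, Submodule.mem_iInf] at hf
    obtain ⟨hfd, hfm⟩ := hf
    have hc := Transfer.eq_zero_of_minor _ a hp (fun i => f.coeff (Transfer.ex i)) (by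
      rintro ⟨⟨v, a, b⟩, hab⟩
      have h3 := Transfer.coeff_Th_eq_sum hfd (p v 0) (p v 1) a b
      have h5 := hfm v
      have h6 : p v = ![p v 0, p v 1] := by
        ext i
        fin_cases i <;> rfl
      rw [Submodule.restrictScalars_mem, h6] at h5
      have h7 := Transfer.Th_mem_wt _ _ _ h5 a b hab
      rw [h3] at h7
      rw [← h7]
      refine Finset.sum_congr rfl fun i _ => ?_
      simp only [row, Xu, Yu, MvPolynomial.eval_X])
    rw [Submodule.mem_bot, Transfer.eq_sum_monomial hfd]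
    refine Finset.sum_eq_zero fun i _ => ?_
    rw [show f.coeff (Transfer.ex i) = 0 from congrFun hc i, map_zero]

end Pool.Agent.Lib.MP_ed661f_ag.E
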