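import Pool.Agent.Lib.MP_ed661f_ag.E.Emp

/-!
Combinatorics of strips: slabs side by side, and the double strip.
-/

namespace Pool.Agent.Lib.MP_ed661f_ag.E

/-- a vertical slab lemma: `D` is covered by two rectangles and one trapezoid side by side -/
theorem course {m k₁ k₂ k₃ : ℕ} {D : Finset Cell} {x₁ x₂ a₁ a₂ a₃ h₁ h₂ h₃ e : ℤ}
    (hx' : x₁ ≤ x₂)
    (e₁ : Emp m (rect x₁ h₁) k₁) (e₂ : Emp m (rect (x₂ - x₁) h₂) k₂) (e₃ : Emp m (trap e h₃) k₃)
    (d₀ : ∀ α ∈ D, 0 ≤ α.1)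
    (d₁ : ∀ α ∈ D, α.1 < x₁ → a₁ ≤ α.2 ∧ α.2 < a₁ + h₁)
    (d₂ : ∀ α ∈ D, x₁ ≤ α.1 → α.1 < x₂ → a₂ ≤ α.2 ∧ α.2 < a₂ + h₂)
    (d₃ : ∀ α ∈ D, x₂ ≤ α.1 → a₃ ≤ α.2 ∧ α.2 < a₃ + h₃ ∧ (α.1 - x₂) + (α.2 - a₃) < e) :
    Emp m D (k₁ + k₂ + k₃) := by
  classical
  have f₁ : Emp m (D.filter fun α => α.1 < x₁) k₁ := by
    refine e₁.translate (0, a₁) ?_
    intro α hα
    rw [Finset.mem_filter] at hα
    rw [mem_rect]
    have h0 := d₀ α hα.1
    have h1 := d₁ α hα.1 hα.2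
    simp only [Prod.fst_sub, Prod.snd_sub]
    omega
  have f₂ : Emp m (D.filter fun α => x₁ ≤ α.1 ∧ α.1 < x₂) k₂ := by
    refine e₂.translate (x₁, a₂) ?_
    intro α hα
    rw [Finset.mem_filter] at hα
    rw [mem_rect]
    have h1 := d₂ α hα.1 hα.2.1 hα.2.2
    simp only [Prod.fst_sub, Prod.snd_sub]
    omega
  have f₃ : Emp m (D.filter fun α => x₂ ≤ α.1) k₃ := by
    refine e₃.translate (x₂, a₃) ?_
    intro α hα
    rw [Finset.mem_filter] at hα
    rw [mem_trap]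
    have h1 := d₃ α hα.1 hα.2
    simp only [Prod.fst_sub, Prod.snd_sub]
    omega
  have g : Emp m (((D.filter fun α => α.1 < x₁) ∪ (D.filter fun α => x₁ ≤ α.1 ∧ α.1 < x₂)) ∪
      (D.filter fun α => x₂ ≤ α.1)) (k₁ + k₂ + k₃) := by
    refine (f₁.cut f₂ 1 0 ?_).cut f₃ 1 0 ?_
    · intro α hα β hβ
      rw [Finset.mem_filter] at hα hβ
      omega
    · intro α hα β hβ
      rw [Finset.mem_union, Finset.mem_filter, Finset.mem_filter] at hα
      rw [Finset.mem_filter] at hβ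
      omega
  refine g.mono ?_
  intro α hα
  rw [Finset.mem_union, Finset.mem_union, Finset.mem_filter, Finset.mem_filter, Finset.mem_filter]
  rcases lt_or_ge α.1 x₁ with h1 | h1
  · exact Or.inl (Or.inl ⟨hα, h1⟩)
  · rcases lt_or_ge α.1 x₂ with h2 | h2
    · exact Or.inl (Or.inr ⟨hα, h1, h2⟩)
    · exact Or.inr ⟨hα, h2⟩

theorem rect_mul {m k : ℕ} {w h : ℤ} (hw : 0 ≤ w) (e : Emp m (rect w h) k) (q : ℕ) :
    Emp m (rect (q * w) h) (q * k) := by
  classical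
  induction q with
  | zero =>
    refine (emp_empty m _).mono ?_
    intro α hα
    rw [mem_rect] at hα
    push_cast at hα
    omega
  | succ q ih =>
    have hqw : 0 ≤ (q : ℤ) * w := by positivity
    have e' : Emp m ((rect ((q + 1 : ℕ) * w) h).filter fun α => q * w ≤ α.1) k := by
      refine e.translate (q * w, 0) ?_
      intro α hα
      rw [Finset.mem_filter, mem_rect] at hα
      rw [mem_rect]
      push_cast at hα
      simp only [Prod.fst_sub, Prod.snd_sub]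
      have : ((q : ℤ) + 1) * w = q * w + w := by ring
      omega
    have g := ih.cut e' 1 0 (by
      intro α hα β hβ
      rw [mem_rect] at hα
      rw [Finset.mem_filter] at hβ
      omega)
    have g' : Emp m (rect ((q + 1 : ℕ) * w) h) (q * k + k) := by
      refine g.mono ?_
      intro α hα
      rw [Finset.mem_union, Finset.mem_filter]
      by_cases h1 : α.1 < q * w
      · left
        rw [mem_rect] at hα ⊢
        omega
      · right
        exact ⟨hα, by omega⟩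
    rwa [← Nat.succ_mul] at g'

/-- two pieces tile a rectangle -/
theorem rect_pair {m k : ℕ} {N h : ℤ} (_hh : 1 ≤ h) (_hN : h ≤ N) (e : Emp m (trap N h) k) :
    Emp m (rect (2 * N - h + 1) h) (2 * k) := by
  classical
  have e' : Emp m ((rect (2 * N - h + 1) h).filter fun α => N ≤ α.1 + α.2) k := by
    refine e.neg (2 * N - h, h - 1) ?_
    intro α hα
    rw [Finset.mem_filter, mem_rect] at hα
    rw [mem_trap]
    simp only [Prod.fst_sub, Prod.snd_sub]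
    omega
  have g := e.cut e' 1 1 (by
    intro α hα β hβ
    rw [mem_trap] at hα
    rw [Finset.mem_filter] at hβ
    omega)
  have g' : Emp m (rect (2 * N - h + 1) h) (k + k) := by
    refine g.mono ?_
    intro α hα
    rw [Finset.mem_union, Finset.mem_filter]
    by_cases h1 : α.1 + α.2 < N
    · left
      rw [mem_rect] at hα
      rw [mem_trap]
      omega
    · right
      exact ⟨hα, by omega⟩
  rwa [← two_mul] at g'

/-- the supply of rectangles (16 points) and trapezoids (8 points) of heights in `[lo, hi]` -/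
structure Supply (m : ℕ) (lo hi : ℤ) (F : ℤ → ℤ) : Prop where
  rect : ∀ h, lo ≤ h → h ≤ hi → Emp m (rect (F h) h) 16
  trap : ∀ h, lo ≤ h → h ≤ hi → Emp m (trap ((F h + h - 1) / 2) h) 8
  par : ∀ h, lo ≤ h → h ≤ hi → (F h + h) % 2 = 1
  cap : ∀ h, lo ≤ h → h ≤ hi → 8 * (m : ℤ) ^ 2 + 3 * m ≤ h * F h
  drop : ∀ h, lo ≤ h → h + 1 ≤ hi → F h ≤ F (h + 1) + 3
  hlo : ∀ h, lo ≤ h → h ≤ hi → (m : ℤ) ≤ h
  hhi : ∀ h, lo ≤ h → h ≤ hi → h ≤ 4 * m
  Fhi : ∀ h, lo ≤ h → h ≤ hi → F h ≤ 7 * m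
  tr : ∀ h, lo ≤ h → h ≤ hi → h + 1 ≤ F h

theorem exists_last (P : ℕ → Prop) (n : ℕ) (h0 : P 0) :
    ∃ q ≤ n, P q ∧ (q = n ∨ ¬ P (q + 1)) := by
  induction n with
  | zero => exact ⟨0, le_rfl, h0, Or.inl rfl⟩
  | succ n ih =>
    obtain ⟨q, hq, hP, h⟩ := ih
    rcases h with h | h
    · by_cases h' : P (n + 1)
      · exact ⟨n + 1, le_rfl, h', Or.inl rfl⟩
      · exact ⟨q, by omega, hP, Or.inr (by rwa [h])⟩
    · exact ⟨q, by omega, hP, Or.inr h⟩

/-- lower bound for twice the number of cells of the first course -/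
theorem cells_first {N p q h A B K M : ℤ} (hq : 0 ≤ q) (hqp : q ≤ p) (hh : 0 ≤ h)
    (hK1 : K ≤ (h + 1) * A) (hK2 : K ≤ h * B)
    (hdrop : B ≤ A + 3) (hM : 0 ≤ M) (hA7 : A ≤ 7 * M) (hh4 : h ≤ 4 * M)
    (hor : (q = p ∧ 2 * (p * A) + (A + h) + 2 ≤ 2 * N) ∨
      (q + 1 ≤ p ∧ 2 * ((q + 1) * A + (p - q - 1) * B) + (B + h - 1) + 2 ≤ 2 * N)) :
    (2 * p + 1) * K - 16 * M ≤ h * (2 * N - h + 1) + 2 * (q * A) := by
  rcases hor with ⟨rfl, h1⟩ | ⟨h0, h1⟩
  · have h2 : h * (2 * (q * A) + (A + h) + 2 - h + 1) ≤ h * (2 * N - h + 1) :=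
      mul_le_mul_of_nonneg_left (by omega) hh
    have h3 : q * K ≤ q * ((h + 1) * A) := mul_le_mul_of_nonneg_left hK1 hq
    nlinarith
  · have h2 : h * (2 * ((q + 1) * A + (p - q - 1) * B) + (B + h - 1) + 2 - h + 1) ≤
        h * (2 * N - h + 1) := mul_le_mul_of_nonneg_left (by omega) hh
    have h3 : q * K ≤ q * ((h + 1) * A) := mul_le_mul_of_nonneg_left hK1 hq
    have h4 : (p - q) * K ≤ (p - q) * (h * B) := mul_le_mul_of_nonneg_left hK2 (by omega)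
    have h5 : h * B ≤ h * (A + 3) := mul_le_mul_of_nonneg_left hdrop hh
    nlinarith

/-- lower bound for twice the number of cells of the second course, if it is not covered -/
theorem cells_second {n x p q h A B K M : ℤ} (hq : 0 ≤ q) (hqp : q ≤ p) (hh : 0 ≤ h)
    (hK1 : K ≤ (h + 1) * A) (hK2 : K ≤ h * B)
    (hM : 0 ≤ M) (hA7 : A ≤ 7 * M) (hB7 : B ≤ 7 * M) (hx : x + 1 ≤ n)
    (hor : q = p ∨ x + 1 ≤ (q + 1) * B)
    (hfail : 2 * (q * B + (p - q) * A) + (A + h) + 2 ≤ 2 * n) :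
    (2 * p + 1) * K - 14 * M ≤ (h + 1) * (2 * n - h) - 2 * x := by
  rcases hor with rfl | h1
  · have h2 : h * (2 * (q * B + (q - q) * A) + (A + h) + 2) ≤ h * (2 * n) :=
      mul_le_mul_of_nonneg_left hfail hh
    have h3 : q * K ≤ q * (h * B) := mul_le_mul_of_nonneg_left hK2 hq
    nlinarith
  · have h2 : (h + 1) * (2 * (q * B + (p - q) * A) + (A + h) + 2) ≤ (h + 1) * (2 * n) :=
      mul_le_mul_of_nonneg_left hfail (by omega)
    have h3 : q * K ≤ q * (h * B) := mul_le_mul_of_nonneg_left hK2 hq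
    have h4 : (p - q) * K ≤ (p - q) * ((h + 1) * A) := mul_le_mul_of_nonneg_left hK1 (by omega)
    nlinarith

/-- the double strip -/
theorem double_strip {m : ℕ} {lo hi : ℤ} {F : ℤ → ℤ} (S : Supply m lo hi F) {N h₁ H : ℤ}
    (p p' : ℕ) (h₁lo : lo ≤ h₁) (h₁hi : h₁ + 1 ≤ hi)
    (hA : N ≤ p * F h₁ + (F h₁ + h₁ - 1) / 2)
    (hB : p * F (h₁ + 1) + (F (h₁ + 1) + h₁) / 2 < N)
    (h₂lo : lo ≤ H - 1 - h₁) (h₂hi : H - h₁ ≤ hi)
    (hcells : H * (2 * N - H + 1) + 80 * m ≤ 2 * (p + p' + 1) * (8 * (m : ℤ) ^ 2 + 3 * m)) :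
    Emp m (trap N H) (16 * (p + p' + 1)) := by
  classical
  set A1 := F (h₁ + 1) with hA1
  set B1 := F h₁ with hB1
  obtain ⟨h₂, hh₂⟩ : ∃ h₂, h₂ = H - 1 - h₁ := ⟨_, rfl⟩
  obtain rfl : H = h₁ + h₂ + 1 := by omega
  have e1 : h₁ + h₂ + 1 - 1 - h₁ = h₂ := by ring
  have e2 : h₁ + h₂ + 1 - h₁ = h₂ + 1 := by ring
  rw [e1] at h₂lo
  rw [e2] at h₂hi
  set A2 := F (h₂ + 1) with hA2
  set B2 := F h₂ with hB2
  have p1 := S.par h₁ h₁lo (by omega)
  have p1' := S.par (h₁ + 1) (by omega) h₁hi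
  have p2 := S.par h₂ h₂lo (by omega)
  have p2' := S.par (h₂ + 1) (by omega) h₂hi
  have c1 := S.cap h₁ h₁lo (by omega)
  have c1' := S.cap (h₁ + 1) (by omega) h₁hi
  have c2 := S.cap h₂ h₂lo (by omega)
  have c2' := S.cap (h₂ + 1) (by omega) h₂hi
  have d1 := S.drop h₁ h₁lo h₁hi
  have l1 := S.hlo h₁ h₁lo (by omega)
  have l2 := S.hlo h₂ h₂lo (by omega)
  have u1 := S.hhi h₁ h₁lo (by omega)
  have u1' := S.hhi (h₁ + 1) (by omega) h₁hi
  have u2 := S.hhi h₂ h₂lo (by omega)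
  have t1 := S.tr h₁ h₁lo (by omega)
  have t1' := S.tr (h₁ + 1) (by omega) h₁hi
  have t2 := S.tr h₂ h₂lo (by omega)
  have t2' := S.tr (h₂ + 1) (by omega) h₂hi
  have f1 := S.Fhi h₁ h₁lo (by omega)
  have f1' := S.Fhi (h₁ + 1) (by omega) h₁hi
  have f2 := S.Fhi h₂ h₂lo (by omega)
  have f2' := S.Fhi (h₂ + 1) (by omega) h₂hi
  have r1 := S.rect h₁ h₁lo (by omega)
  have r1' := S.rect (h₁ + 1) (by omega) h₁hi
  have r2 := S.rect h₂ h₂lo (by omega)
  have r2' := S.rect (h₂ + 1) (by omega) h₂hi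
  have g1 := S.trap h₁ h₁lo (by omega)
  have g2 := S.trap (h₂ + 1) (by omega) h₂hi
  rw [← hA1] at p1' c1' d1 t1' f1' r1'
  rw [← hB1] at p1 c1 d1 t1 f1 r1 g1
  rw [← hA2] at p2' c2' t2' f2' r2' g2
  rw [← hB2] at p2 c2 t2 f2 r2
  have m0 : (0 : ℤ) < m := by omega
  -- first course
  obtain ⟨q₁, hq₁, hq₁N, hq₁or⟩ := exists_last
    (fun q => N ≤ (q : ℤ) * A1 + (p - q) * B1 + (B1 + h₁ - 1) / 2) p (by simpa using hA)
  obtain ⟨x₀, hx₀⟩ : ∃ x₀ : ℤ, x₀ = q₁ * A1 := ⟨_, rfl⟩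
  have hq₁p : (q₁ : ℤ) ≤ p := by exact_mod_cast hq₁
  have hx₀0 : 0 ≤ x₀ := by
    rw [hx₀]
    exact mul_nonneg (by positivity) (by omega)
  have k1 : 0 ≤ ((p : ℤ) - q₁) * B1 := mul_nonneg (by omega) (by omega)
  have hor : ((q₁ : ℤ) = p ∧ 2 * ((p : ℤ) * A1) + (A1 + h₁) + 2 ≤ 2 * N) ∨
      ((q₁ : ℤ) + 1 ≤ p ∧
        2 * (((q₁ : ℤ) + 1) * A1 + ((p : ℤ) - q₁ - 1) * B1) + (B1 + h₁ - 1) + 2 ≤ 2 * N) := by
    rcases hq₁or with h | h
    · left
      subst h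
      refine ⟨rfl, ?_⟩
      omega
    · by_cases hqp : q₁ = p
      · left
        subst hqp
        refine ⟨rfl, ?_⟩
        omega
      · right
        have hlt : q₁ + 1 ≤ p := by omega
        refine ⟨by exact_mod_cast hlt, ?_⟩
        push_cast at h
        rw [not_le] at h
        have e3 : (p : ℤ) - (q₁ + 1) = p - q₁ - 1 := by ring
        rw [e3] at h
        omega
  have hx₀N : x₀ + 1 ≤ N - h₁ := by
    rcases hor with ⟨ha, hb⟩ | ⟨ha, hb⟩
    · rw [hx₀, ha]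
      omega
    · have k2 : 0 ≤ ((p : ℤ) - q₁ - 1) * B1 := mul_nonneg (by omega) (by omega)
      have k3 : ((q₁ : ℤ) + 1) * A1 = q₁ * A1 + A1 := by ring
      rw [hx₀]
      omega
  have C1 := cells_first (N := N) (p := p) (q := q₁) (h := h₁) (A := A1) (B := B1)
    (K := 8 * (m : ℤ) ^ 2 + 3 * m) (M := m) (by positivity) hq₁p (by omega) c1' c1 d1 m0.le f1' u1
    hor
  rw [← hx₀] at C1
  -- second course
  obtain ⟨q₂, hq₂, hq₂x, hq₂or⟩ := exists_last (fun q => (q : ℤ) * B2 ≤ x₀) p' (by simpa using hx₀0)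
  have hq₂p : (q₂ : ℤ) ≤ p' := by exact_mod_cast hq₂
  have hor2 : (q₂ : ℤ) = p' ∨ x₀ + 1 ≤ ((q₂ : ℤ) + 1) * B2 := by
    rcases hq₂or with h | h
    · left
      rw [h]
    · right
      push_cast at h
      rw [not_le] at h
      omega
  have k3 : 0 ≤ ((p' : ℤ) - q₂) * A2 := mul_nonneg (by omega) (by omega)
  have k4 : 0 ≤ (q₂ : ℤ) * B2 := mul_nonneg (by positivity) (by omega)
  have hC2 : N - h₁ ≤ q₂ * B2 + (p' - q₂) * A2 + (A2 + h₂) / 2 := by
    by_contra hcon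
    rw [not_le] at hcon
    have C2 := cells_second (n := N - h₁) (x := x₀) (p := p') (q := q₂) (h := h₂) (A := A2)
      (B := B2) (K := 8 * (m : ℤ) ^ 2 + 3 * m) (M := m) (by positivity) hq₂p (by omega) c2' c2 m0.le
      f2' f2 hx₀N hor2 (by omega)
    nlinarith
  -- the geometry
  have E1 : Emp m ((trap N (h₁ + h₂ + 1)).filter fun α => α.2 < h₁ ∨ (α.2 = h₁ ∧ α.1 < x₀))
      (16 * p + 8) := by
    have w := course (m := m) (k₁ := q₁ * 16) (k₂ := (p - q₁) * 16) (k₃ := 8)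
      (D := (trap N (h₁ + h₂ + 1)).filter fun α => α.2 < h₁ ∨ (α.2 = h₁ ∧ α.1 < x₀))
      (x₁ := x₀) (x₂ := x₀ + (p - q₁) * B1) (a₁ := 0) (a₂ := 0) (a₃ := 0) (h₁ := h₁ + 1)
      (h₂ := h₁) (h₃ := h₁) (e := (B1 + h₁ - 1) / 2) (by omega)
      (by rw [hx₀]; exact rect_mul (by omega) r1' q₁)
      (by
        have := rect_mul (by omega) r1 (p - q₁)
        rw [Nat.cast_sub hq₁] at this
        rw [add_sub_cancel_left]
        exact this)
      g1 ?_ ?_ ?_ ?_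
    · refine w.mono_right ?_
      omega
    · intro α hα
      rw [Finset.mem_filter, mem_trap] at hα
      omega
    · intro α hα _
      rw [Finset.mem_filter, mem_trap] at hα
      omega
    · intro α hα h1 _
      rw [Finset.mem_filter, mem_trap] at hα
      omega
    · intro α hα h1
      rw [Finset.mem_filter, mem_trap] at hα
      omega
  have E2 : Emp m ((trap N (h₁ + h₂ + 1)).filter fun α => h₁ < α.2 ∨ (α.2 = h₁ ∧ x₀ ≤ α.1))
      (16 * p' + 8) := by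
    have w := course (m := m) (k₁ := q₂ * 16) (k₂ := (p' - q₂) * 16) (k₃ := 8)
      (D := (trap N (h₁ + h₂ + 1)).filter fun α => h₁ < α.2 ∨ (α.2 = h₁ ∧ x₀ ≤ α.1))
      (x₁ := q₂ * B2) (x₂ := q₂ * B2 + (p' - q₂) * A2) (a₁ := h₁ + 1) (a₂ := h₁) (a₃ := h₁)
      (h₁ := h₂) (h₂ := h₂ + 1) (h₃ := h₂ + 1) (e := (A2 + (h₂ + 1) - 1) / 2) (by omega)
      (rect_mul (by omega) r2 q₂)
      (by
        have := rect_mul (by omega) r2' (p' - q₂)
        rw [Nat.cast_sub hq₂] at this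
        rw [add_sub_cancel_left]
        exact this)
      g2 ?_ ?_ ?_ ?_
    · refine w.mono_right ?_
      omega
    · intro α hα
      rw [Finset.mem_filter, mem_trap] at hα
      omega
    · intro α hα _
      rw [Finset.mem_filter, mem_trap] at hα
      omega
    · intro α hα h1 _
      rw [Finset.mem_filter, mem_trap] at hα
      omega
    · intro α hα h1
      rw [Finset.mem_filter, mem_trap] at hα
      omega
  have E := E1.cut E2 1 (N + 1) (by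
    intro α hα β hβ
    rw [Finset.mem_filter, mem_trap] at hα hβ
    have hN0 : 0 ≤ N + 1 := by omega
    rcases hα.2 with ha | ⟨ha, ha'⟩
    · have h1 : (N + 1) * α.2 ≤ (N + 1) * (h₁ - 1) := mul_le_mul_of_nonneg_left (by omega) hN0
      have h2 : (N + 1) * h₁ ≤ (N + 1) * β.2 :=
        mul_le_mul_of_nonneg_left (by rcases hβ.2 with hb | hb <;> omega) hN0
      nlinarith
    · rcases hβ.2 with hb | ⟨hb, hb'⟩
      · have h2 : (N + 1) * (h₁ + 1) ≤ (N + 1) * β.2 := mul_le_mul_of_nonneg_left (by omega) hN0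
        rw [ha]
        nlinarith
      · rw [ha, hb]
        omega)
  refine (E.mono ?_).mono_right ?_
  · intro α hα
    rw [Finset.mem_union, Finset.mem_filter, Finset.mem_filter]
    by_cases h1 : α.2 < h₁ ∨ (α.2 = h₁ ∧ α.1 < x₀)
    · exact Or.inl ⟨hα, h1⟩
    · right
      refine ⟨hα, ?_⟩
      omega
  · omega

end Pool.Agent.Lib.MP_ed661f_ag.E
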