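import Mathlib

/-!
Emptiness of linear systems of Laurent polynomials with prescribed support through points of
multiplicity `m` of the torus: basic definitions.
-/

open MvPolynomial

namespace Pool.Agent.Lib.MP_ed661f_ag.E

/-- exponents of the monomials of Laurent polynomials in two variables -/
abbrev Cell := ℤ × ℤ

/-- the value of the monomial with exponent `α` at a point of the torus -/
noncomputable def mon (p : ℂˣ × ℂˣ) (α : Cell) : ℂ := ((p.1 ^ α.1 * p.2 ^ α.2 : ℂˣ) : ℂ)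

/-- The Laurent polynomial with coefficients `f` on `D` has multiplicity at least `m` at `p`:
all logarithmic derivatives of order `< m` vanish at `p`. -/
def Van (m : ℕ) (D : Finset Cell) (p : ℂˣ × ℂˣ) (f : Cell → ℂ) : Prop :=
  ∀ a b : ℕ, a + b < m → ∑ α ∈ D, (α.1 : ℂ) ^ a * (α.2 : ℂ) ^ b * (f α * mon p α) = 0

/-- There are `k` points of the torus such that no nonzero Laurent polynomial with support in `D`
has multiplicity at least `m` at all of them. -/
def Emp (m : ℕ) (D : Finset Cell) (k : ℕ) : Prop :=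
  ∃ p : Fin k → ℂˣ × ℂˣ, ∀ f : Cell → ℂ, (∀ i, Van m D (p i) f) → ∀ α ∈ D, f α = 0

/-- the rectangle `0 ≤ i < w`, `0 ≤ j < h` -/
noncomputable def rect (w h : ℤ) : Finset Cell := Finset.Ico 0 w ×ˢ Finset.Ico 0 h

/-- the trapezoid `0 ≤ i`, `0 ≤ j < h`, `i + j < N` -/
noncomputable def trap (N h : ℤ) : Finset Cell := (rect N h).filter (fun α => α.1 + α.2 < N)

theorem mem_rect {w h : ℤ} {α : Cell} :
    α ∈ rect w h ↔ (0 ≤ α.1 ∧ α.1 < w) ∧ 0 ≤ α.2 ∧ α.2 < h := by
  simp [rect]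

theorem mem_trap {N h : ℤ} {α : Cell} :
    α ∈ trap N h ↔ 0 ≤ α.1 ∧ 0 ≤ α.2 ∧ α.2 < h ∧ α.1 + α.2 < N := by
  simp only [trap, Finset.mem_filter, mem_rect]
  constructor
  · rintro ⟨⟨⟨h1, h2⟩, h3, h4⟩, h5⟩
    exact ⟨h1, h3, h4, h5⟩
  · rintro ⟨h1, h2, h3, h4⟩
    exact ⟨⟨⟨h1, by omega⟩, h2, h3⟩, h4⟩

/-- the polynomial with coefficients `f` on the cells of `D` (used when the cells of `D` have
nonnegative coordinates) -/
noncomputable def toPoly (D : Finset Cell) (f : Cell → ℂ) : MvPolynomial (Fin 2) ℂ :=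
  ∑ α ∈ D, C (f α) * X 0 ^ α.1.toNat * X 1 ^ α.2.toNat

/-- Taylor expansion at `p` -/
noncomputable def tay (p : Fin 2 → ℂ) (f : MvPolynomial (Fin 2) ℂ) : MvPolynomial (Fin 2) ℂ :=
  aeval (fun i => X i + C (p i)) f

/-- the multiplicity of `f` at `p` (`0` for `f = 0`) -/
noncomputable def mlt (p : Fin 2 → ℂ) (f : MvPolynomial (Fin 2) ℂ) : ℕ :=
  ((tay p f : MvPowerSeries (Fin 2) ℂ).order).toNat

end Pool.Agent.Lib.MP_ed661f_ag.E
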