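import Mathlib
import Pool.Agent.Lib.MP_ed661f_ag.E.Defs

/-! Elementary properties of `Emp` and the cutting lemma. -/

open MvPolynomial

namespace Pool.Agent.Lib.MP_ed661f_ag.E

private theorem mon_add (p : ℂˣ × ℂˣ) (α β : Cell) : mon p (α + β) = mon p α * mon p β := by
  simp only [mon, Prod.fst_add, Prod.snd_add, zpow_add]
  push_cast
  ring

private theorem mon_ne_zero (p : ℂˣ × ℂˣ) (α : Cell) : mon p α ≠ 0 := Units.ne_zero _

private theorem mon_inv_sub (p : ℂˣ × ℂˣ) (τ β : Cell) :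
    mon (p.1⁻¹, p.2⁻¹) (τ - β) = mon (p.1⁻¹, p.2⁻¹) τ * mon p β := by
  simp only [mon, Prod.fst_sub, Prod.snd_sub, inv_zpow', zpow_sub, zpow_neg, inv_inv]
  push_cast
  ring

/-- polynomials of degree `< m` in shifted and rescaled coordinates -/
private theorem Van.affine {m : ℕ} {D : Finset Cell} {p : ℂˣ × ℂˣ} {f : Cell → ℂ}
    (h : Van m D p f) (c s₁ s₂ : ℂ) (a b : ℕ) (hab : a + b < m) :
    ∑ α ∈ D, (c * α.1 + s₁) ^ a * (c * α.2 + s₂) ^ b * (f α * mon p α) = 0 := by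
  have h1 : ∀ α : Cell, (c * α.1 + s₁) ^ a * (c * α.2 + s₂) ^ b * (f α * mon p α)
      = ∑ i ∈ Finset.range (a + 1), ∑ j ∈ Finset.range (b + 1),
        (c ^ i * s₁ ^ (a - i) * (a.choose i : ℂ) * (c ^ j * s₂ ^ (b - j) * (b.choose j : ℂ))) *
          ((α.1 : ℂ) ^ i * (α.2 : ℂ) ^ j * (f α * mon p α)) := by
    intro α
    rw [add_pow, add_pow, Finset.sum_mul_sum, Finset.sum_mul]
    refine Finset.sum_congr rfl fun i _ => ?_
    rw [Finset.sum_mul]
    refine Finset.sum_congr rfl fun j _ => ?_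
    rw [mul_pow, mul_pow]
    ring
  rw [Finset.sum_congr rfl fun α _ => h1 α, Finset.sum_comm]
  refine Finset.sum_eq_zero fun i hi => ?_
  rw [Finset.sum_comm]
  refine Finset.sum_eq_zero fun j hj => ?_
  rw [← Finset.mul_sum, h i j ?_, mul_zero]
  have := Finset.mem_range.1 hi
  have := Finset.mem_range.1 hj
  omega

theorem Emp.mono {m k : ℕ} {D D' : Finset Cell} (h : Emp m D k) (hD : D' ⊆ D) : Emp m D' k := by
  classical
  obtain ⟨p, hp⟩ := h
  refine ⟨p, fun f hf α hα => ?_⟩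
  have h1 := hp (fun α => if α ∈ D' then f α else 0) (fun i a b hab => ?_) α (hD hα)
  · simpa [hα] using h1
  · have h2 : ∑ β ∈ D', (β.1 : ℂ) ^ a * (β.2 : ℂ) ^ b *
        ((if β ∈ D' then f β else 0) * mon (p i) β) = 0 := by
      rw [← hf i a b hab]
      refine Finset.sum_congr rfl fun β hβ => ?_
      rw [if_pos hβ]
    refine Eq.trans (Finset.sum_subset hD fun β _ hβ => ?_).symm h2
    change _ * ((if β ∈ D' then f β else 0) * _) = 0
    rw [if_neg hβ]
    ring

theorem Emp.mono_right {m k k' : ℕ} {D : Finset Cell} (h : Emp m D k) (hk : k ≤ k') :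
    Emp m D k' := by
  obtain ⟨p, hp⟩ := h
  refine ⟨fun j => if hj : j.1 < k then p ⟨j.1, hj⟩ else 1, fun f hf => hp f fun i => ?_⟩
  have := hf (Fin.castLE hk i)
  simpa using this

theorem emp_empty (m k : ℕ) : Emp m ∅ k :=
  ⟨fun _ => 1, fun _ _ α hα => absurd hα (Finset.notMem_empty α)⟩

/-- translation -/
theorem Emp.translate {m k : ℕ} {D D' : Finset Cell} (h : Emp m D k) (τ : Cell)
    (hD : ∀ α ∈ D', α - τ ∈ D) : Emp m D' k := by
  classical
  have h' : Emp m (D'.image (fun α => α - τ)) k := by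
    refine h.mono ?_
    intro β hβ
    obtain ⟨α, hα, rfl⟩ := Finset.mem_image.1 hβ
    exact hD α hα
  obtain ⟨p, hp⟩ := h'
  refine ⟨p, fun f hf α hα => ?_⟩
  have h1 := hp (fun β => f (β + τ)) (fun i a b hab => ?_) (α - τ)
    (Finset.mem_image_of_mem _ hα)
  · simpa using h1
  · rw [Finset.sum_image (fun _ _ _ _ h => sub_left_injective h)]
    have h2 := (hf i).affine 1 (-(τ.1 : ℂ)) (-(τ.2 : ℂ)) a b hab
    have h3 : mon (p i) τ * ∑ α ∈ D', (((α - τ).1 : ℤ) : ℂ) ^ a * (((α - τ).2 : ℤ) : ℂ) ^ b *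
        (f (α - τ + τ) * mon (p i) (α - τ)) = 0 := by
      rw [← h2, Finset.mul_sum]
      refine Finset.sum_congr rfl fun β _ => ?_
      have h4 : mon (p i) β = mon (p i) (β - τ) * mon (p i) τ := by
        rw [← mon_add, sub_add_cancel]
      rw [sub_add_cancel, h4, Prod.fst_sub, Prod.snd_sub]
      push_cast
      ring
    exact (mul_eq_zero.1 h3).resolve_left (mon_ne_zero _ _)

/-- central symmetry -/
theorem Emp.neg {m k : ℕ} {D D' : Finset Cell} (h : Emp m D k) (τ : Cell)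
    (hD : ∀ α ∈ D', τ - α ∈ D) : Emp m D' k := by
  classical
  have h' : Emp m (D'.image (fun α => τ - α)) k := by
    refine h.mono ?_
    intro β hβ
    obtain ⟨α, hα, rfl⟩ := Finset.mem_image.1 hβ
    exact hD α hα
  obtain ⟨p, hp⟩ := h'
  refine ⟨fun i => ((p i).1⁻¹, (p i).2⁻¹), fun f hf α hα => ?_⟩
  have h1 := hp (fun β => f (τ - β)) (fun i a b hab => ?_) (τ - α)
    (Finset.mem_image_of_mem _ hα)
  · simpa using h1
  · rw [Finset.sum_image (fun _ _ _ _ h => sub_right_injective h)]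
    have h2 := (hf i).affine (-1) (τ.1 : ℂ) (τ.2 : ℂ) a b hab
    have h3 : mon ((p i).1⁻¹, (p i).2⁻¹) τ * ∑ α ∈ D', (((τ - α).1 : ℤ) : ℂ) ^ a *
        (((τ - α).2 : ℤ) : ℂ) ^ b * (f (τ - (τ - α)) * mon (p i) (τ - α)) = 0 := by
      rw [← h2, Finset.mul_sum]
      refine Finset.sum_congr rfl fun β _ => ?_
      have h4 : mon ((p i).1⁻¹, (p i).2⁻¹) β
          = mon ((p i).1⁻¹, (p i).2⁻¹) τ * mon (p i) (τ - β) := by
        rw [← mon_inv_sub, sub_sub_cancel]
      rw [sub_sub_cancel, h4, Prod.fst_sub, Prod.snd_sub]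
      push_cast
      ring
    exact (mul_eq_zero.1 h3).resolve_left (mon_ne_zero _ _)

open Polynomial in
private theorem exists_unit_det {n : Type*} [Fintype n] [DecidableEq n] (M : Matrix n n ℂ[X])
    (hM : M.map (Polynomial.eval 0) = 1) :
    ∃ s : ℂˣ, (M.map (Polynomial.eval (s : ℂ))).det ≠ 0 := by
  have hdet : ∀ z : ℂ, (M.map (Polynomial.eval z)).det = Polynomial.eval z M.det := by
    intro z
    have := RingHom.map_det (Polynomial.evalRingHom z) M
    rw [Polynomial.coe_evalRingHom] at this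
    rw [this]
    rfl
  have h0 : M.det ≠ 0 := by
    intro h
    have h1 := hdet 0
    rw [hM, h] at h1
    simp at h1
  have h1 : Polynomial.X * M.det ≠ 0 := mul_ne_zero Polynomial.X_ne_zero h0
  obtain ⟨z, hz⟩ : ∃ z, Polynomial.eval z (Polynomial.X * M.det) ≠ 0 := by
    by_contra hcon
    push Not at hcon
    exact h1 (Polynomial.funext fun z => by simpa using hcon z)
  rw [Polynomial.eval_mul, Polynomial.eval_X] at hz
  refine ⟨Units.mk0 z (left_ne_zero_of_mul hz), ?_⟩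
  rw [Units.val_mk0, hdet]
  exact right_ne_zero_of_mul hz

/-- the conditions imposed by points -/
private noncomputable def cond {k m : ℕ} (p : Fin k → ℂˣ × ℂˣ) (D : Finset Cell) :
    (D → ℂ) →ₗ[ℂ] (Fin k × {c : ℕ × ℕ // c.1 + c.2 < m} → ℂ) where
  toFun f c := ∑ α : D, (α.1.1 : ℂ) ^ c.2.1.1 * (α.1.2 : ℂ) ^ c.2.1.2 * (f α * mon (p c.1) α.1)
  map_add' f g := by
    ext c
    simp only [Pi.add_apply, add_mul, mul_add, Finset.sum_add_distrib]
  map_smul' r f := by
    ext c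
    simp only [Pi.smul_apply, smul_eq_mul, RingHom.id_apply, Finset.mul_sum]
    refine Finset.sum_congr rfl fun α _ => ?_
    ring

private theorem exists_left_inv {k m : ℕ} {D : Finset Cell} {p : Fin k → ℂˣ × ℂˣ}
    (hp : ∀ f : Cell → ℂ, (∀ i, Van m D (p i) f) → ∀ α ∈ D, f α = 0) :
    ∃ P : (Fin k × {c : ℕ × ℕ // c.1 + c.2 < m} → ℂ) →ₗ[ℂ] (D → ℂ),
      P ∘ₗ cond (m := m) p D = LinearMap.id := by
  classical
  refine LinearMap.exists_leftInverse_of_injective _ (LinearMap.ker_eq_bot'.2 fun f hf => ?_)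
  ext α
  have h1 := hp (fun β => if hβ : β ∈ D then f ⟨β, hβ⟩ else 0) (fun i a b hab => ?_) α.1 α.2
  · simpa using h1
  · have h2 := congrFun hf (i, ⟨(a, b), hab⟩)
    simp only [cond, LinearMap.coe_mk, AddHom.coe_mk, Pi.zero_apply] at h2
    rw [← h2, ← Finset.sum_coe_sort D]
    refine Finset.sum_congr rfl fun β _ => ?_
    simp

/-- the cutting lemma (Dumnicki) -/
theorem Emp.cut {m k₁ k₂ : ℕ} {D₁ D₂ : Finset Cell} (h₁ : Emp m D₁ k₁) (h₂ : Emp m D₂ k₂)
    (u v : ℤ) (hsep : ∀ α ∈ D₁, ∀ β ∈ D₂, u * α.1 + v * α.2 < u * β.1 + v * β.2) :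
    Emp m (D₁ ∪ D₂) (k₁ + k₂) := by
  classical
  obtain ⟨p, hp⟩ := h₁
  obtain ⟨q, hq⟩ := h₂
  obtain ⟨P, hP⟩ := exists_left_inv hp
  obtain ⟨Q, hQ⟩ := exists_left_inv hq
  let X : Matrix D₁ D₂ ℂ := LinearMap.toMatrix' (P ∘ₗ cond (m := m) p D₂)
  let Y : Matrix D₂ D₁ ℂ := LinearMap.toMatrix' (Q ∘ₗ cond (m := m) q D₁)
  let lam : Cell → ℤ := fun α => u * α.1 + v * α.2
  have hdisj : Disjoint D₁ D₂ := by
    rw [Finset.disjoint_left]
    intro α h1 h2
    exact lt_irrefl _ (hsep α h1 α h2)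
  let M : Matrix D₂ D₂ (Polynomial ℂ) := fun β γ => (if β = γ then 1 else 0)
    - ∑ α : D₁, Polynomial.X ^ (lam β.1 - lam α.1).toNat * Polynomial.C (Y β α * X α γ)
  have hMe : ∀ (z : ℂ) (β γ : D₂), (M.map (Polynomial.eval z)) β γ = (if β = γ then 1 else 0)
      - ∑ α : D₁, z ^ (lam β.1 - lam α.1).toNat * (Y β α * X α γ) := by
    intro z β γ
    change Polynomial.eval z ((if β = γ then 1 else 0)
      - ∑ α : D₁, Polynomial.X ^ (lam β.1 - lam α.1).toNat * Polynomial.C (Y β α * X α γ)) = _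
    rw [Polynomial.eval_sub, Polynomial.eval_finsetSum]
    congr 1
    · split_ifs <;> simp
    · refine Finset.sum_congr rfl fun α _ => ?_
      rw [Polynomial.eval_mul, Polynomial.eval_pow, Polynomial.eval_X, Polynomial.eval_C]
  have hM : M.map (Polynomial.eval 0) = 1 := by
    ext β γ
    have h1 : ∀ α : D₁, (0 : ℂ) ^ (lam β.1 - lam α.1).toNat * (Y β α * X α γ) = 0 := by
      intro α
      have h2 := hsep α.1 α.2 β.1 β.2
      have h3 : (lam β.1 - lam α.1).toNat ≠ 0 := by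
        simp only [lam]
        omega
      rw [zero_pow h3, zero_mul]
    rw [hMe, Finset.sum_congr rfl fun α _ => h1 α, Finset.sum_const_zero, sub_zero,
      Matrix.one_apply]
  obtain ⟨s, hs⟩ := exists_unit_det M hM
  -- the moved points
  let t : ℂˣ := s⁻¹
  let q' : Fin k₂ → ℂˣ × ℂˣ := fun j => (t ^ u * (q j).1, t ^ v * (q j).2)
  have hq' : ∀ j α, mon (q' j) α = ((t ^ lam α : ℂˣ) : ℂ) * mon (q j) α := by
    intro j α
    simp only [mon, q', lam, mul_zpow, zpow_add, zpow_mul]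
    push_cast
    ring
  refine ⟨Fin.append p q', fun f hf => ?_⟩
  let f₁ : D₁ → ℂ := fun α => f α.1
  let f₂ : D₂ → ℂ := fun β => f β.1
  have e₁ : cond (m := m) p D₁ f₁ + cond (m := m) p D₂ f₂ = 0 := by
    ext c
    have h1 := hf (Fin.castAdd k₂ c.1) c.2.1.1 c.2.1.2 c.2.2
    rw [Fin.append_left, Finset.sum_union hdisj, ← Finset.sum_coe_sort D₁,
      ← Finset.sum_coe_sort D₂] at h1
    exact h1
  have e₂ : cond (m := m) q D₁ (fun α => ((t ^ lam α.1 : ℂˣ) : ℂ) * f₁ α)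
      + cond (m := m) q D₂ (fun β => ((t ^ lam β.1 : ℂˣ) : ℂ) * f₂ β) = 0 := by
    ext c
    have h1 := hf (Fin.natAdd k₁ c.1) c.2.1.1 c.2.1.2 c.2.2
    rw [Fin.append_right, Finset.sum_union hdisj, ← Finset.sum_coe_sort D₁,
      ← Finset.sum_coe_sort D₂] at h1
    simp only [Pi.add_apply, cond, LinearMap.coe_mk, AddHom.coe_mk, Pi.zero_apply]
    rw [← h1]
    congr 1
    · refine Finset.sum_congr rfl fun α _ => ?_
      rw [hq']
      ring
    · refine Finset.sum_congr rfl fun α _ => ?_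
      rw [hq']
      ring
  have g₁ : f₁ = -(X.mulVec f₂) := by
    have h1 := congrArg P e₁
    rw [map_add, map_zero] at h1
    have h2 : P (cond (m := m) p D₁ f₁) = f₁ := LinearMap.congr_fun hP f₁
    have h3 : P (cond (m := m) p D₂ f₂) = X.mulVec f₂ := by
      have := LinearMap.toMatrix'_mulVec (P ∘ₗ cond (m := m) p D₂) f₂
      rw [this]
      rfl
    rw [h2, h3] at h1
    exact eq_neg_of_add_eq_zero_left h1
  have g₂ : ∀ β : D₂, ((t ^ lam β.1 : ℂˣ) : ℂ) * f₂ β
      = -∑ α : D₁, Y β α * (((t ^ lam α.1 : ℂˣ) : ℂ) * f₁ α) := by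
    have h1 := congrArg Q e₂
    rw [map_add, map_zero] at h1
    have h2 : Q (cond (m := m) q D₂ (fun β => ((t ^ lam β.1 : ℂˣ) : ℂ) * f₂ β))
        = (fun β => ((t ^ lam β.1 : ℂˣ) : ℂ) * f₂ β) := LinearMap.congr_fun hQ _
    have h3 : Q (cond (m := m) q D₁ (fun α => ((t ^ lam α.1 : ℂˣ) : ℂ) * f₁ α))
        = Y.mulVec (fun α => ((t ^ lam α.1 : ℂˣ) : ℂ) * f₁ α) := by
      have := LinearMap.toMatrix'_mulVec (Q ∘ₗ cond (m := m) q D₁)
        (fun α => ((t ^ lam α.1 : ℂˣ) : ℂ) * f₁ α)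
      rw [this]
      rfl
    rw [h2, h3] at h1
    intro β
    have h4 := congrFun h1 β
    simp only [Pi.add_apply, Pi.zero_apply, Matrix.mulVec, dotProduct] at h4
    linear_combination h4
  have hker : (M.map (Polynomial.eval (s : ℂ))).mulVec f₂ = 0 := by
    ext β
    simp only [Matrix.mulVec, dotProduct, hMe, Pi.zero_apply, sub_mul, Finset.sum_sub_distrib]
    have h1 : ∑ γ : D₂, (if β = γ then (1 : ℂ) else 0) * f₂ γ = f₂ β := by
      rw [Finset.sum_eq_single β]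
      · simp
      · intro γ _ hγ
        simp [Ne.symm hγ]
      · simp
    rw [h1]
    have h2 : ∑ γ : D₂, (∑ α : D₁, (s : ℂ) ^ (lam β.1 - lam α.1).toNat * (Y β α * X α γ)) * f₂ γ
        = -∑ α : D₁, (s : ℂ) ^ (lam β.1 - lam α.1).toNat * (Y β α * f₁ α) := by
      simp only [Finset.sum_mul]
      rw [Finset.sum_comm, ← Finset.sum_neg_distrib]
      refine Finset.sum_congr rfl fun α _ => ?_
      have h3 : f₁ α = -∑ γ : D₂, X α γ * f₂ γ := congrFun g₁ α
      rw [h3]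
      simp only [mul_neg, neg_neg, Finset.mul_sum]
      refine Finset.sum_congr rfl fun γ _ => ?_
      ring
    rw [h2]
    have h4 : f₂ β = -∑ α : D₁, (s : ℂ) ^ (lam β.1 - lam α.1).toNat * (Y β α * f₁ α) := by
      have h5 : ((t ^ lam β.1 : ℂˣ) : ℂ) * f₂ β = ((t ^ lam β.1 : ℂˣ) : ℂ) *
          (-∑ α : D₁, (s : ℂ) ^ (lam β.1 - lam α.1).toNat * (Y β α * f₁ α)) := by
        rw [g₂ β, mul_neg, Finset.mul_sum]
        congr 1
        refine Finset.sum_congr rfl fun α _ => ?_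
        have h6 : ((t ^ lam α.1 : ℂˣ) : ℂ)
            = ((t ^ lam β.1 : ℂˣ) : ℂ) * (s : ℂ) ^ (lam β.1 - lam α.1).toNat := by
          have h7 : t ^ lam α.1 = t ^ lam β.1 * s ^ (lam β.1 - lam α.1).toNat := by
            have h8 := hsep α.1 α.2 β.1 β.2
            have h9 : (((lam β.1 - lam α.1).toNat : ℕ) : ℤ) = lam β.1 - lam α.1 := by
              rw [Int.toNat_of_nonneg]
              simp only [lam]
              omega
            rw [← zpow_natCast s, h9]
            simp only [t, inv_zpow', ← zpow_add]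
            congr 1
            ring
          rw [h7]
          push_cast
          rfl
        rw [h6]
        ring
      exact mul_left_cancel₀ (Units.ne_zero _) h5
    linear_combination h4
  have hf₂ : f₂ = 0 := Matrix.eq_zero_of_mulVec_eq_zero hs hker
  have hf₁ : f₁ = 0 := by
    rw [g₁, hf₂]
    simp
  intro α hα
  rcases Finset.mem_union.1 hα with h | h
  · exact congrFun hf₁ ⟨α, h⟩
  · exact congrFun hf₂ ⟨α, h⟩

end Pool.Agent.Lib.MP_ed661f_ag.E
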