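import Pool.Agent.Lib.MP_ed661f_ag.E.Mlt

/-!
The genus bound for irreducible plane curves (with respect to total degree and degree in the
second variable), from Bezout's inequality (taken as a hypothesis here; see `Genus.lean`) and the
existence of adjoint curves.
-/

open MvPolynomial

namespace Pool.Agent.Lib.MP_ed661f_ag.E

/-- the derivative in the second variable of a polynomial that contains it -/
private theorem genus_pderiv {f : MvPolynomial (Fin 2) ℂ} (hy : 1 ≤ f.degreeOf 1) :
    pderiv 1 f ≠ 0 ∧ (pderiv 1 f).degreeOf 1 + 1 ≤ f.degreeOf 1 ∧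
      (pderiv 1 f).totalDegree + 1 ≤ f.totalDegree := by
  have hmem : ∀ m ∈ (pderiv 1 f).support, m + Finsupp.single 1 1 ∈ f.support := by
    intro m hm
    rw [mem_support_iff, coeff_pderiv] at hm
    rw [mem_support_iff]
    exact left_ne_zero_of_mul hm
  refine ⟨?_, ?_, ?_⟩
  · obtain ⟨m, hm, hm1⟩ : ∃ m ∈ f.support, 1 ≤ m 1 := by
      by_contra hcon
      push Not at hcon
      have : f.degreeOf 1 ≤ 0 := degreeOf_le_iff.mpr (fun m hm => by have := hcon m hm; omega)
      omega
    intro h0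
    have hc := coeff_pderiv (i := 1) f (m - Finsupp.single 1 1)
    have hadd : m - Finsupp.single 1 1 + Finsupp.single 1 1 = m := by
      apply tsub_add_cancel_of_le
      rw [Finsupp.single_le_iff]
      exact hm1
    rw [h0, coeff_zero, hadd] at hc
    rw [mem_support_iff] at hm
    rcases mul_eq_zero.mp hc.symm with h | h
    · exact hm h
    · exact Nat.cast_add_one_ne_zero _ h
  · have : (pderiv 1 f).degreeOf 1 ≤ f.degreeOf 1 - 1 := by
      rw [degreeOf_le_iff]
      intro m hm
      have h1 := degreeOf_le_iff.mp (le_refl (f.degreeOf 1)) _ (hmem m hm)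
      simp only [Finsupp.add_apply, Finsupp.single_eq_same] at h1
      omega
    omega
  · have h2 : 1 ≤ f.totalDegree := hy.trans (degreeOf_le_totalDegree _ _)
    have : (pderiv 1 f).totalDegree ≤ f.totalDegree - 1 := by
      unfold totalDegree
      apply Finset.sup_le
      intro m hm
      have h1 := le_totalDegree (hmem m hm)
      rw [Finsupp.sum_fintype _ _ (fun _ => rfl)] at h1
      rw [Finsupp.sum_fintype _ _ (fun _ => rfl)]
      simp only [Finsupp.add_apply, Fin.sum_univ_two, Finsupp.single_eq_same] at h1 ⊢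
      unfold totalDegree at h1
      omega
    omega

/-- the zero set of an irreducible polynomial that contains the second variable is infinite -/
private theorem genus_infinite {f : MvPolynomial (Fin 2) ℂ} (hf : Irreducible f)
    (hy : 1 ≤ f.degreeOf 1) : {p : Fin 2 → ℂ | eval p f = 0}.Infinite := by
  intro hfin
  have hrad : (∏ t ∈ hfin.toFinset, (X 0 - C (t 0)) : MvPolynomial (Fin 2) ℂ) ∈
      (Ideal.span {f}).radical := by
    rw [← vanishingIdeal_zeroLocus_eq_radical (K := ℂ), mem_vanishingIdeal_iff]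
    intro x hx
    rw [zeroLocus_span] at hx
    have hx' : eval x f = 0 := by
      have := hx f rfl
      rwa [← coe_aeval_eq_eval]
    rw [map_prod]
    apply Finset.prod_eq_zero (i := x)
    · rw [Set.Finite.mem_toFinset]; exact hx'
    · simp
  obtain ⟨n, hn⟩ := hrad
  rw [Ideal.mem_span_singleton] at hn
  have hp : Prime f := hf.prime
  obtain ⟨t, -, q, hq⟩ := hp.exists_mem_finset_dvd (hp.dvd_of_dvd_pow hn)
  have h0 : (X 0 - C (t 0) : MvPolynomial (Fin 2) ℂ) ≠ 0 := by
    intro h
    have := congrArg (eval (fun _ => t 0 + 1)) h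
    simp at this
  have hq0 : q ≠ 0 := by
    rintro rfl
    rw [mul_zero] at hq
    exact h0 hq
  have hdeg := degreeOf_mul_eq (n := (1 : Fin 2)) hf.ne_zero hq0
  rw [← hq] at hdeg
  have h1 : (X 0 - C (t 0) : MvPolynomial (Fin 2) ℂ).degreeOf 1 ≤ 0 := by
    refine (degreeOf_sub_le _ _ _).trans ?_
    simp [degreeOf_X]
  omega

/-- existence of curves with given multiplicities by a dimension count -/
private theorem genus_exists {d b : ℕ} (hbd : b ≤ d)
    (P : Finset (Fin 2 → ℂ)) (k : (Fin 2 → ℂ) → ℕ)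
    (hk : ∑ p ∈ P, k p * (k p + 1) < b * (2 * d - b + 1)) :
    ∃ g : MvPolynomial (Fin 2) ℂ, g ≠ 0 ∧ g.totalDegree < d ∧ g.degreeOf 1 < b ∧
      ∀ p ∈ P, k p ≤ mlt p g := by
  have hb1 : 1 ≤ b := by
    rcases Nat.eq_zero_or_pos b with rfl | h
    · simp at hk
    · exact h
  have tri : ∀ n : ℕ, ∑ a ∈ Finset.range n, 2 * (n - a) = n * (n + 1) := by
    intro n
    induction n with
    | zero => simp
    | succ n ih =>
      rw [Finset.sum_range_succ']
      have : ∑ a ∈ Finset.range n, 2 * (n + 1 - (a + 1)) = ∑ a ∈ Finset.range n, 2 * (n - a) := by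
        apply Finset.sum_congr rfl
        intro a _
        congr 1
        omega
      rw [this, ih]
      simp only [Nat.sub_zero]
      ring
  have trap : ∀ b : ℕ, b ≤ d → ∑ a ∈ Finset.range b, 2 * (d - a) = b * (2 * d - b + 1) := by
    intro b
    induction b with
    | zero => simp
    | succ n ih =>
      intro hn
      rw [Finset.sum_range_succ, ih (by omega)]
      zify [show n ≤ 2 * d by omega, show n + 1 ≤ 2 * d by omega, show n ≤ d by omega]
      ring
  let I : Type := Σ j : Fin b, Fin (d - j)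
  let J : Type := Σ p : P, Σ a : Fin (k p), Fin (k p - a)
  let e : I → (Fin 2 →₀ ℕ) := fun i => Finsupp.single 0 (i.2 : ℕ) + Finsupp.single 1 (i.1 : ℕ)
  have he0 : ∀ i, e i 0 = i.2 := fun i => by simp [e]
  have he1 : ∀ i, e i 1 = i.1 := fun i => by simp [e]
  have he : Function.Injective e := by
    rintro ⟨i, j⟩ ⟨i', j'⟩ h
    have h0 := congrArg (fun s => s 0) h
    have h1 := congrArg (fun s => s 1) h
    simp only [he0, he1] at h0 h1
    have h1' : i = i' := Fin.ext h1
    subst h1'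
    have h0' : j = j' := Fin.ext h0
    rw [h0']
  let G : (I → ℂ) →ₗ[ℂ] MvPolynomial (Fin 2) ℂ :=
    ∑ i : I, (monomial (e i)).comp (LinearMap.proj i)
  have hG : ∀ v, G v = ∑ i : I, monomial (e i) (v i) := by
    intro v
    simp [G]
  have hGc : ∀ v i, coeff (e i) (G v) = v i := by
    intro v i
    rw [hG, coeff_sum]
    rw [Finset.sum_eq_single i]
    · simp
    · intro j _ hj
      rw [coeff_monomial, if_neg (fun h => hj (he h))]
    · intro h; exact absurd (Finset.mem_univ _) h
  have hGs : ∀ v, ∀ m ∈ (G v).support, ∃ i, m = e i := by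
    intro v m hm
    by_contra hcon
    push Not at hcon
    rw [mem_support_iff, hG, coeff_sum] at hm
    apply hm
    apply Finset.sum_eq_zero
    intro i _
    rw [coeff_monomial, if_neg (fun h => hcon i h.symm)]
  let L : (I → ℂ) →ₗ[ℂ] (J → ℂ) :=
    LinearMap.pi (fun j => (lcoeff ℂ (Finsupp.single 0 (j.2.1 : ℕ) + Finsupp.single 1 (j.2.2 : ℕ))).comp
      ((aeval (fun i => X i + C ((j.1 : Fin 2 → ℂ) i)) : MvPolynomial (Fin 2) ℂ →ₐ[ℂ] MvPolynomial (Fin 2) ℂ).toLinearMap.comp G))
  have hcard : Module.finrank ℂ (J → ℂ) < Module.finrank ℂ (I → ℂ) := by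
    rw [Module.finrank_fintype_fun_eq_card, Module.finrank_fintype_fun_eq_card]
    have hI : 2 * Fintype.card I = b * (2 * d - b + 1) := by
      rw [← trap b hbd, Fintype.card_sigma]
      simp only [Fintype.card_fin]
      rw [Finset.mul_sum, ← Fin.sum_univ_eq_sum_range (fun a => 2 * (d - a)) b]
    have hJ : 2 * Fintype.card J = ∑ p ∈ P, k p * (k p + 1) := by
      rw [Fintype.card_sigma]
      simp only [Fintype.card_sigma, Fintype.card_fin]
      rw [Finset.mul_sum, ← Finset.sum_coe_sort P (fun p => k p * (k p + 1))]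
      apply Finset.sum_congr rfl
      intro p _
      rw [← tri, Finset.mul_sum, ← Fin.sum_univ_eq_sum_range (fun a => 2 * (k p - a)) (k p)]
    omega
  obtain ⟨v, hv, hv0⟩ := Submodule.exists_mem_ne_zero_of_ne_bot
    (LinearMap.ker_ne_bot_of_finrank_lt (f := L) hcard)
  have hg0 : G v ≠ 0 := by
    intro h
    apply hv0
    funext i
    rw [← hGc v i, h, coeff_zero]
    rfl
  refine ⟨G v, hg0, ?_, ?_, ?_⟩
  · have : (G v).totalDegree ≤ d - 1 := by
      unfold totalDegree
      apply Finset.sup_le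
      intro m hm
      obtain ⟨i, rfl⟩ := hGs v m hm
      rw [Finsupp.sum_fintype _ _ (fun _ => rfl), Fin.sum_univ_two, he0, he1]
      have h1 := i.1.2
      have h2 := i.2.2
      omega
    omega
  · have : (G v).degreeOf 1 ≤ b - 1 := by
      rw [degreeOf_le_iff]
      intro m hm
      obtain ⟨i, rfl⟩ := hGs v m hm
      rw [he1]
      have h1 := i.1.2
      omega
    omega
  · intro p hp
    rw [le_mlt_iff hg0]
    intro s hs
    rw [Finsupp.degree_eq_sum, Fin.sum_univ_two] at hs
    have hj := congrFun (LinearMap.mem_ker.mp hv)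
      ⟨⟨p, hp⟩, ⟨s 0, show s 0 < k p by omega⟩, ⟨s 1, show s 1 < k p - s 0 by omega⟩⟩
    have hs' : s = Finsupp.single 0 (s 0) + Finsupp.single 1 (s 1) := by
      ext i
      fin_cases i <;> simp
    rw [hs']
    exact hj

/-- genus bound for irreducible curves, from Bezout's inequality -/
theorem genus_bound_of_bezout
    (bezout : ∀ {f g : MvPolynomial (Fin 2) ℂ}, f ≠ 0 → g ≠ 0 → IsRelPrime f g →
      ∀ P : Finset (Fin 2 → ℂ), (∑ p ∈ P, (mlt p f : ℤ) * mlt p g) ≤
        (f.totalDegree : ℤ) * g.degreeOf 1 + g.totalDegree * f.degreeOf 1 -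
          f.degreeOf 1 * g.degreeOf 1)
    {f : MvPolynomial (Fin 2) ℂ} (hf : Irreducible f) (hy : 1 ≤ f.degreeOf 1)
    (P : Finset (Fin 2 → ℂ)) :
    (∑ p ∈ P, (mlt p f : ℤ) * (mlt p f - 1)) ≤
      ((f.degreeOf 1 : ℤ) - 1) * (2 * f.totalDegree - f.degreeOf 1 - 2) := by
  classical
  have hbd : f.degreeOf 1 ≤ f.totalDegree := degreeOf_le_totalDegree _ _
  have hf0 := hf.ne_zero
  obtain ⟨h1, h2, h3⟩ := genus_pderiv hy
  -- lower degree in the second variable implies relatively prime
  have hrel : ∀ g : MvPolynomial (Fin 2) ℂ, g ≠ 0 → g.degreeOf 1 < f.degreeOf 1 →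
      IsRelPrime f g := by
    intro g hg hlt
    rw [hf.isRelPrime_iff_not_dvd]
    rintro ⟨q, hq⟩
    have hq0 : q ≠ 0 := by
      rintro rfl
      rw [mul_zero] at hq
      exact hg hq
    have := degreeOf_mul_eq (n := (1 : Fin 2)) hf0 hq0
    rw [← hq] at this
    omega
  -- Bezout's bound for smaller classes
  have hbez : ∀ g : MvPolynomial (Fin 2) ℂ, g ≠ 0 → g.degreeOf 1 + 1 ≤ f.degreeOf 1 →
      g.totalDegree + 1 ≤ f.totalDegree → ∀ Q : Finset (Fin 2 → ℂ),
      (∑ p ∈ Q, (mlt p f : ℤ) * mlt p g) ≤ 2 * (f.totalDegree : ℤ) * f.degreeOf 1 -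
        f.totalDegree - (f.degreeOf 1 : ℤ) ^ 2 := by
    intro g hg hg1 hg2 Q
    refine (bezout hf0 hg (hrel g hg (by omega)) Q).trans ?_
    have a1 : (g.degreeOf 1 : ℤ) + 1 ≤ f.degreeOf 1 := by exact_mod_cast hg1
    have a2 : (g.totalDegree : ℤ) + 1 ≤ f.totalDegree := by exact_mod_cast hg2
    have a3 : (f.degreeOf 1 : ℤ) ≤ f.totalDegree := by exact_mod_cast hbd
    have a4 : (1 : ℤ) ≤ f.degreeOf 1 := by exact_mod_cast hy
    nlinarith [mul_nonneg (sub_nonneg.mpr a1) (sub_nonneg.mpr a3),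
      mul_nonneg (sub_nonneg.mpr a2) (by linarith : (0 : ℤ) ≤ f.degreeOf 1)]
  -- step 1
  have hS1 : (∑ p ∈ P, (mlt p f : ℤ) * (mlt p f - 1)) ≤
      2 * (f.totalDegree : ℤ) * f.degreeOf 1 - f.totalDegree - (f.degreeOf 1 : ℤ) ^ 2 := by
    refine le_trans ?_ (hbez (pderiv 1 f) h1 h2 h3 P)
    apply Finset.sum_le_sum
    intro p _
    apply mul_le_mul_of_nonneg_left _ (by positivity)
    have := mlt_pderiv (p := p) 1 h1
    have : (mlt p f : ℤ) ≤ mlt p (pderiv 1 f) + 1 := by exact_mod_cast this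
    linarith
  -- the natural number sum
  have hnat : (∑ p ∈ P, (mlt p f : ℤ) * (mlt p f - 1)) =
      ((∑ p ∈ P, (mlt p f - 1) * (mlt p f - 1 + 1) : ℕ) : ℤ) := by
    push_cast
    apply Finset.sum_congr rfl
    intro p _
    rcases Nat.eq_zero_or_pos (mlt p f) with h | h
    · simp [h]
    · rw [Nat.cast_sub h]
      push_cast
      ring
  obtain ⟨T, hT⟩ : Even (∑ p ∈ P, (mlt p f - 1) * (mlt p f - 1 + 1)) := by
    apply Finset.even_sum
    intro p _
    exact Nat.even_mul_succ_self _
  obtain ⟨W, hW⟩ : Even (f.degreeOf 1 * (2 * f.totalDegree - f.degreeOf 1 + 1)) := by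
    rcases Nat.even_or_odd (f.degreeOf 1) with h | h
    · exact h.mul_right _
    · apply Even.mul_left
      rcases h with ⟨c, hc⟩
      exact ⟨f.totalDegree - c, by omega⟩
  have hWz : (f.degreeOf 1 : ℤ) * (2 * f.totalDegree - f.degreeOf 1 + 1) = 2 * W := by
    have : ((f.degreeOf 1 * (2 * f.totalDegree - f.degreeOf 1 + 1) : ℕ) : ℤ) = ((W + W : ℕ) : ℤ) := by
      rw [hW]
    rw [Nat.cast_mul, Nat.cast_add (2 * f.totalDegree - f.degreeOf 1) 1,
      Nat.cast_sub (by omega : f.degreeOf 1 ≤ 2 * f.totalDegree)] at this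
    push_cast at this
    linarith
  rw [hnat, hT] at hS1 ⊢
  push_cast at hS1 ⊢
  have a3 : (f.degreeOf 1 : ℤ) ≤ f.totalDegree := by exact_mod_cast hbd
  have a4 : (1 : ℤ) ≤ f.degreeOf 1 := by exact_mod_cast hy
  have hTW : T + 1 ≤ W := by
    have : (T : ℤ) + 1 ≤ W := by nlinarith
    exact_mod_cast this
  obtain ⟨R, hR⟩ : ∃ R, T + 1 + R = W := ⟨W - (T + 1), by omega⟩
  -- further points
  obtain ⟨Q, hQ, hQc⟩ := ((genus_infinite hf hy).sdiff P.finite_toSet).exists_subset_card_eq R
  have hdisj : Disjoint P Q := by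
    rw [Finset.disjoint_left]
    intro p hp hp'
    exact (hQ hp').2 hp
  obtain ⟨g, hg0, hg1, hg2, hg3⟩ := genus_exists hbd (P ∪ Q)
    (fun p => if p ∈ P then mlt p f - 1 else 1) (by
      rw [Finset.sum_union hdisj]
      have e1 : ∑ p ∈ P, (if p ∈ P then mlt p f - 1 else 1) * ((if p ∈ P then mlt p f - 1 else 1) + 1)
          = ∑ p ∈ P, (mlt p f - 1) * (mlt p f - 1 + 1) := by
        apply Finset.sum_congr rfl
        intro p hp
        rw [if_pos hp]
      have e2 : ∑ p ∈ Q, (if p ∈ P then mlt p f - 1 else 1) * ((if p ∈ P then mlt p f - 1 else 1) + 1)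
          = 2 * R := by
        rw [← hQc, mul_comm, ← smul_eq_mul, ← Finset.sum_const]
        apply Finset.sum_congr rfl
        intro p hp
        have hn : p ∉ P := fun h => (hQ hp).2 h
        rw [if_neg hn]
      rw [e1, e2, hT, hW]
      omega)
  have hfin := hbez g hg0 (by omega) (by omega) (P ∪ Q)
  rw [Finset.sum_union hdisj] at hfin
  have hP : ((T : ℤ) + T) ≤ ∑ p ∈ P, (mlt p f : ℤ) * mlt p g := by
    have : ((T : ℤ) + T) = ((∑ p ∈ P, (mlt p f - 1) * (mlt p f - 1 + 1) : ℕ) : ℤ) := by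
      rw [hT]; push_cast; ring
    rw [this, ← hnat]
    apply Finset.sum_le_sum
    intro p hp
    apply mul_le_mul_of_nonneg_left _ (by positivity)
    have h := hg3 p (Finset.mem_union_left _ hp)
    simp only [if_pos hp] at h
    have : mlt p f ≤ mlt p g + 1 := by omega
    have : (mlt p f : ℤ) ≤ mlt p g + 1 := by exact_mod_cast this
    linarith
  have hQ' : (R : ℤ) ≤ ∑ p ∈ Q, (mlt p f : ℤ) * mlt p g := by
    have : (R : ℤ) = ∑ p ∈ Q, (1 : ℤ) := by
      rw [Finset.sum_const, hQc]; simp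
    rw [this]
    apply Finset.sum_le_sum
    intro p hp
    have h := hg3 p (Finset.mem_union_right _ hp)
    simp only [if_neg (fun h => (hQ hp).2 h : p ∉ P)] at h
    have h' : 1 ≤ mlt p f := (mlt_pos_iff hf0).mpr (hQ hp).1
    have : 1 ≤ mlt p f * mlt p g := Nat.mul_pos h' h
    exact_mod_cast this
  have hRz : (T : ℤ) + 1 + R = W := by exact_mod_cast hR
  nlinarith

end Pool.Agent.Lib.MP_ed661f_ag.E
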