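import Pool.Agent.Lib.MP_ed661f_ag.E.Bezout
import Pool.Agent.Lib.MP_ed661f_ag.E.GenusOf

/-!
The genus bound for irreducible plane curves.
-/

open MvPolynomial

namespace Pool.Agent.Lib.MP_ed661f_ag.E

/-- genus bound for irreducible curves -/
theorem genus_bound {f : MvPolynomial (Fin 2) ℂ} (hf : Irreducible f) (hy : 1 ≤ f.degreeOf 1)
    (P : Finset (Fin 2 → ℂ)) :
    (∑ p ∈ P, (mlt p f : ℤ) * (mlt p f - 1)) ≤
      ((f.degreeOf 1 : ℤ) - 1) * (2 * f.totalDegree - f.degreeOf 1 - 2) :=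
  genus_bound_of_bezout (fun hf hg h P => bezout hf hg h P) hf hy P

end Pool.Agent.Lib.MP_ed661f_ag.E
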