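import Pool.Agent.Lib.MP_ed661f_ag.E.Step2

/-!
Sequences of double strips.
-/

namespace Pool.Agent.Lib.MP_ed661f_ag.E

/-- `ρ` consecutive double strips with `16 (g + 2 k)` points, `k = 1, ..., ρ` -/
theorem phase {m B σ : ℕ} {F : ℤ → ℤ} {e : ℤ} (S : Base m B σ F e) {g : ℕ} {z : ℤ} {j : ℕ}
    (hg : 1000 ≤ g) (hBg : 400 * m ≤ B * g)
    (hz : z ≤ (2 * g + 2) ^ 2 + 240 * g) (hz' : (2 * g + 2) ^ 2 - 240 * g ≤ z)
    (h : Good m e z j) (ρ : ℕ) (hm : (g + 2 * ρ) ^ 2 ≤ m) :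
    Good m e (z + 16 * (ρ * (g + ρ + 1))) (j + 16 * (ρ * (g + ρ + 1))) := by
  induction ρ with
  | zero => simpa using h
  | succ ρ ih =>
    have ih' := ih (le_trans (Nat.pow_le_pow_left (by omega) 2) hm)
    have hρ : (0 : ℤ) ≤ ρ := by positivity
    have hB2 : 400 * m ≤ B * (g + 2 * (ρ + 1)) :=
      hBg.trans (Nat.mul_le_mul_left B (by omega))
    have w := step S (G := g + 2 * (ρ + 1))
      (z := z + 16 * (((ρ + 1 : ℕ) : ℤ) * (g + ((ρ + 1 : ℕ) : ℤ) + 1)))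
      (j := j + 16 * (ρ * (g + ρ + 1))) (by omega) hm hB2
      (by push_cast; nlinarith) (by push_cast; nlinarith)
      (by
        have : z + 16 * (((ρ + 1 : ℕ) : ℤ) * (g + ((ρ + 1 : ℕ) : ℤ) + 1)) -
            16 * ((g + 2 * (ρ + 1) : ℕ) : ℤ) = z + 16 * (ρ * (g + ρ + 1)) := by
          push_cast
          ring
        rw [this]
        exact ih')
    have e1 : j + 16 * (ρ * (g + ρ + 1)) + 16 * (g + 2 * (ρ + 1)) =
        j + 16 * ((ρ + 1) * (g + (ρ + 1) + 1)) := by ring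
    rw [e1] at w
    exact w

/-- two phases -/
theorem segment0 {m B σ : ℕ} {F : ℤ → ℤ} {e : ℤ} (S : Base m B σ F e) {J q ρ : ℕ} {z : ℤ} {j : ℕ}
    (hg : J + 1001 ≤ q) (hρ : ρ ≤ J) (hBg : 400 * m ≤ B * (q - J - 1))
    (hz : |z - 4 * ((q : ℤ) - J) ^ 2| + 8 * (q + J) + 4 ≤ 240 * ((q : ℤ) - J - 1))
    (h : Good m e z j) (hm : (q + J) ^ 2 ≤ m) :
    Good m e (z + 16 * (J * q + ρ)) (j + 16 * (J * q + ρ)) := by
  obtain ⟨g, rfl⟩ : ∃ g, q = g + J + 1 := ⟨q - J - 1, by omega⟩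
  obtain ⟨τ, rfl⟩ : ∃ τ, J = τ + ρ := ⟨J - ρ, by omega⟩
  have hB1 : g + (τ + ρ) + 1 - (τ + ρ) - 1 = g := by omega
  rw [hB1] at hBg
  have e1 : (((g + (τ + ρ) + 1 : ℕ) : ℤ) - ((τ + ρ : ℕ) : ℤ)) = g + 1 := by
    push_cast
    ring
  rw [e1] at hz
  push_cast at hz
  have hz1 := le_abs_self (z - 4 * ((g : ℤ) + 1) ^ 2)
  have hz2 := neg_abs_le (z - 4 * ((g : ℤ) + 1) ^ 2)
  have w1 := phase S (g := g) (z := z) (j := j) (by omega) hBg (by nlinarith) (by nlinarith) h τ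
    (le_trans (Nat.pow_le_pow_left (by omega) 2) hm)
  have hτ : (0 : ℤ) ≤ τ := by positivity
  have hρ0 : (0 : ℤ) ≤ ρ := by positivity
  have hB3 : 400 * m ≤ B * (g + 2 * τ + 1) := hBg.trans (Nat.mul_le_mul_left B (by omega))
  have w2 := phase S (g := g + 2 * τ + 1) (z := z + 16 * (τ * (g + τ + 1)))
    (j := j + 16 * (τ * (g + τ + 1))) (by omega) hB3 (by push_cast; nlinarith)
    (by push_cast; nlinarith) w1 ρ (le_trans (Nat.pow_le_pow_left (by omega) 2) hm)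
  have e2 : z + 16 * ((τ : ℤ) * (g + τ + 1)) +
      16 * ((ρ : ℤ) * (((g + 2 * τ + 1 : ℕ) : ℤ) + ρ + 1)) =
      z + 16 * (((τ + ρ : ℕ) : ℤ) * ((g + (τ + ρ) + 1 : ℕ) : ℤ) + ρ) := by
    push_cast
    ring
  have e3 : j + 16 * (τ * (g + τ + 1)) + 16 * (ρ * (g + 2 * τ + 1 + ρ + 1)) =
      j + 16 * ((τ + ρ) * (g + (τ + ρ) + 1) + ρ) := by
    ring
  rw [e2, e3] at w2
  exact w2

/-- a segment of the schedule, from `z₁ ≈ t ^ 2` up to `z₀ ≈ s ^ 2` -/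
theorem segment {m B σ : ℕ} {F : ℤ → ℤ} {e : ℤ} (S : Base m B σ F e) {s t M : ℕ} {z : ℤ} {j : ℕ}
    (hs : 100000 ≤ s) (h1 : 2 * s ≤ 5 * t) (h2 : 4 * t ≤ 3 * s)
    (hM : 16 * (M : ℤ) ≤ s ^ 2 - t ^ 2 + 3 * s) (hM' : (s : ℤ) ^ 2 - t ^ 2 - 3 * s ≤ 16 * M)
    (hz : z ≤ t ^ 2 + 8) (hz' : (t : ℤ) ^ 2 - 8 ≤ z) (hm : s ^ 2 ≤ 2 * m) (hB : 2400 * m ≤ B * s)
    (h : Good m e z j) : Good m e (z + 16 * M) (j + 16 * M) := by
  obtain ⟨J, hJ⟩ : ∃ J, J = (s - t) / 4 := ⟨_, rfl⟩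
  have J1 : 4 * J + t ≤ s := by omega
  have J2 : s ≤ 4 * J + t + 3 := by omega
  have hJ0 : 0 < J := by omega
  obtain ⟨q, hq⟩ : ∃ q, q = M / J := ⟨_, rfl⟩
  obtain ⟨ρ, hρ⟩ : ∃ ρ, ρ = M % J := ⟨_, rfl⟩
  have hqM : J * q + ρ = M := by
    rw [hq, hρ]
    exact Nat.div_add_mod M J
  have hρJ : ρ < J := by
    rw [hρ]
    exact Nat.mod_lt _ hJ0
  have J1' : 4 * (J : ℤ) + t ≤ s := by exact_mod_cast J1
  have J2' : (s : ℤ) ≤ 4 * J + t + 3 := by exact_mod_cast J2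
  have hqM' : (J : ℤ) * q + ρ = M := by exact_mod_cast hqM
  have hρJ' : (ρ : ℤ) + 1 ≤ J := by exact_mod_cast hρJ
  have hρ0 : (0 : ℤ) ≤ ρ := by positivity
  have h1' : 2 * (s : ℤ) ≤ 5 * t := by exact_mod_cast h1
  have h2' : 4 * (t : ℤ) ≤ 3 * s := by exact_mod_cast h2
  have hs' : (100000 : ℤ) ≤ s := by exact_mod_cast hs
  have u1 : 4 * (q : ℤ) ≤ s + t + 40 := by
    by_contra hcon
    rw [not_le] at hcon
    have k1 : (s + t + 41 : ℤ) * (4 * J) ≤ 4 * q * (4 * J) :=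
      mul_le_mul_of_nonneg_right (by omega) (by omega)
    have k2 : (s + t + 41 : ℤ) * (s - t - 3) ≤ (s + t + 41 : ℤ) * (4 * J) :=
      mul_le_mul_of_nonneg_left (by omega) (by omega)
    nlinarith
  have u2 : (s + t - 20 : ℤ) ≤ 4 * q := by
    by_contra hcon
    rw [not_le] at hcon
    have k1 : 4 * (q : ℤ) * (4 * J) ≤ (s + t - 20 : ℤ) * (4 * J) :=
      mul_le_mul_of_nonneg_right (by omega) (by omega)
    have k2 : (s + t - 16 : ℤ) * (4 * J) ≤ (s + t - 16 : ℤ) * (s - t) :=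
      mul_le_mul_of_nonneg_left (by omega) (by omega)
    nlinarith
  have v1 : J + 1001 ≤ q := by omega
  have v2 : s ≤ 6 * (q - J - 1) := by omega
  have v3 : 400 * m ≤ B * (q - J - 1) := by
    have : 6 * (400 * m) ≤ 6 * (B * (q - J - 1)) := by
      calc 6 * (400 * m) = 2400 * m := by ring
        _ ≤ B * s := hB
        _ ≤ B * (6 * (q - J - 1)) := Nat.mul_le_mul_left B v2
        _ = 6 * (B * (q - J - 1)) := by ring
    omega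
  have v4 : (q + J) ^ 2 ≤ m := by
    have : 20 * (q + J) ≤ 11 * s := by omega
    nlinarith
  have x1 : 2 * ((q : ℤ) - J) ≤ t + 22 := by omega
  have x2 : (t : ℤ) - 10 ≤ 2 * ((q : ℤ) - J) := by omega
  have x3 : |z - 4 * ((q : ℤ) - J) ^ 2| ≤ 50 * (t : ℤ) := by
    rw [abs_le]
    constructor
    · have y1 : (2 * ((q : ℤ) - J)) * (2 * ((q : ℤ) - J)) ≤ (t + 22) * (t + 22) :=
        mul_le_mul x1 x1 (by omega) (by omega)
      nlinarith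
    · have y1 : ((t : ℤ) - 10) * (t - 10) ≤ (2 * ((q : ℤ) - J)) * (2 * ((q : ℤ) - J)) :=
        mul_le_mul x2 x2 (by omega) (by omega)
      nlinarith
  have w := segment0 S (J := J) (q := q) (ρ := ρ) (z := z) (j := j) v1 hρJ.le v3
    (by omega) h v4
  rw [hqM, hqM'] at w
  exact w

end Pool.Agent.Lib.MP_ed661f_ag.E
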