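import Pool.Agent.Lib.MP_ed661f_ag.E.Mlt

/-!
Logarithmic derivatives versus Taylor coefficients (task T2b).
-/

open MvPolynomial

namespace Pool.Agent.Lib.MP_ed661f_ag.E

/-- a linear form on polynomials vanishing on a monic family vanishes on all polynomials of
small degree -/
private theorem lin_zero (Q : ℕ → Polynomial ℂ) (hQ : ∀ a, (Q a).Monic) (hQd : ∀ a, (Q a).natDegree = a)
    (Λ : Polynomial ℂ →ₗ[ℂ] ℂ) (k : ℕ) (h : ∀ a < k, Λ (Q a) = 0) :
    ∀ n : ℕ, n < k → ∀ u : Polynomial ℂ, u.natDegree = n → Λ u = 0 := by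
  intro n
  induction n using Nat.strong_induction_on with
  | _ n ih =>
    intro hn u hu
    by_cases hu0 : u = 0
    · simp [hu0]
    have hdeg : (Polynomial.C u.leadingCoeff * Q n).degree = u.degree := by
      rw [Polynomial.degree_C_mul (Polynomial.leadingCoeff_ne_zero.2 hu0),
        Polynomial.degree_eq_natDegree (hQ n).ne_zero, hQd, Polynomial.degree_eq_natDegree hu0, hu]
    have hlc : (Polynomial.C u.leadingCoeff * Q n).leadingCoeff = u.leadingCoeff := by
      rw [Polynomial.leadingCoeff_mul, (hQ n).leadingCoeff, Polynomial.leadingCoeff_C, mul_one]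
    have hlt := Polynomial.degree_sub_lt_left hdeg.symm hu0 hlc.symm
    have hΛ : Λ (Polynomial.C u.leadingCoeff * Q n) = 0 := by
      rw [← Polynomial.smul_eq_C_mul, map_smul, h n hn, smul_zero]
    have h1 : Λ (u - Polynomial.C u.leadingCoeff * Q n) = 0 := by
      by_cases h0 : u - Polynomial.C u.leadingCoeff * Q n = 0
      · simp [h0]
      · have h2 : (u - Polynomial.C u.leadingCoeff * Q n).natDegree < n := by
          have h3 := Polynomial.natDegree_lt_natDegree h0 hlt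
          rwa [hu] at h3
        exact ih _ h2 (h2.trans hn) _ rfl
    rw [map_sub, hΛ, sub_zero] at h1
    exact h1

/-- the pairing of the coefficients with products of polynomials in the exponents -/
private noncomputable def pair (D : Finset Cell) (p : ℂˣ × ℂˣ) (f : Cell → ℂ)
    (u v : Polynomial ℂ) : ℂ :=
  ∑ α ∈ D, u.eval (α.1 : ℂ) * v.eval (α.2 : ℂ) * (f α * mon p α)

private noncomputable def pairL (D : Finset Cell) (p : ℂˣ × ℂˣ) (f : Cell → ℂ)
    (v : Polynomial ℂ) : Polynomial ℂ →ₗ[ℂ] ℂ where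
  toFun u := pair D p f u v
  map_add' u u' := by
    simp only [pair, Polynomial.eval_add]
    rw [← Finset.sum_add_distrib]
    exact Finset.sum_congr rfl fun α _ => by ring
  map_smul' c u := by
    simp only [pair, Polynomial.eval_smul, smul_eq_mul, RingHom.id_apply]
    rw [Finset.mul_sum]
    exact Finset.sum_congr rfl fun α _ => by ring

private noncomputable def pairR (D : Finset Cell) (p : ℂˣ × ℂˣ) (f : Cell → ℂ)
    (u : Polynomial ℂ) : Polynomial ℂ →ₗ[ℂ] ℂ where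
  toFun v := pair D p f u v
  map_add' v v' := by
    simp only [pair, Polynomial.eval_add]
    rw [← Finset.sum_add_distrib]
    exact Finset.sum_congr rfl fun α _ => by ring
  map_smul' c v := by
    simp only [pair, Polynomial.eval_smul, smul_eq_mul, RingHom.id_apply]
    rw [Finset.mul_sum]
    exact Finset.sum_congr rfl fun α _ => by ring

private theorem pair_family {m : ℕ} {D : Finset Cell} {p : ℂˣ × ℂˣ} {f : Cell → ℂ}
    (Q R : ℕ → Polynomial ℂ) (hQ : ∀ a, (Q a).Monic) (hQd : ∀ a, (Q a).natDegree = a)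
    (hRd : ∀ a, (R a).natDegree = a)
    (h : ∀ a b, a + b < m → pair D p f (Q a) (Q b) = 0) (a b : ℕ) (hab : a + b < m) :
    pair D p f (R a) (R b) = 0 := by
  have h1 : ∀ a b, a + b < m → pair D p f (R a) (Q b) = 0 := fun a b hab =>
    lin_zero Q hQ hQd (pairL D p f (Q b)) (m - b) (fun c hc => h c b (by omega)) a (by omega)
      (R a) (hRd a)
  exact lin_zero Q hQ hQd (pairR D p f (R a)) (m - a) (fun c hc => h1 a c (by omega)) b (by omega)
      (R b) (hRd b)

private theorem van_iff {m : ℕ} {D : Finset Cell} {p : ℂˣ × ℂˣ} {f : Cell → ℂ} :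
    Van m D p f ↔ ∀ a b, a + b < m →
      pair D p f (descPochhammer ℂ a) (descPochhammer ℂ b) = 0 := by
  have hX : Van m D p f ↔ ∀ a b, a + b < m →
      pair D p f (Polynomial.X ^ a) (Polynomial.X ^ b) = 0 := by
    simp only [Van, pair, Polynomial.eval_pow, Polynomial.eval_X]
  rw [hX]
  constructor
  · intro h a b hab
    exact pair_family (fun a => Polynomial.X ^ a) (fun a => descPochhammer ℂ a)
      (fun a => Polynomial.monic_X_pow a) (fun a => Polynomial.natDegree_X_pow a)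
      (fun a => descPochhammer_natDegree ℂ a) h a b hab
  · intro h a b hab
    exact pair_family (fun a => descPochhammer ℂ a) (fun a => Polynomial.X ^ a)
      (fun a => monic_descPochhammer ℂ a) (fun a => descPochhammer_natDegree ℂ a)
      (fun a => Polynomial.natDegree_X_pow a) h a b hab

private theorem toPoly_term (c : ℂ) (i j : ℕ) :
    (C c * X 0 ^ i * X 1 ^ j : MvPolynomial (Fin 2) ℂ) =
      monomial (Finsupp.single 0 i + Finsupp.single 1 j) c := by
  rw [X_pow_eq_monomial, X_pow_eq_monomial, C_mul_monomial, monomial_mul]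
  simp

private theorem single_add_inj {i j i' j' : ℕ} :
    (Finsupp.single (0 : Fin 2) i + Finsupp.single 1 j = Finsupp.single 0 i' + Finsupp.single 1 j') ↔
      i = i' ∧ j = j' := by
  constructor
  · intro h
    have h0 := DFunLike.congr_fun h 0
    have h1 := DFunLike.congr_fun h 1
    simp at h0 h1
    exact ⟨h0, h1⟩
  · rintro ⟨rfl, rfl⟩; rfl

/-- coefficients of a shifted power -/
private theorem coeff_shift (c x y : ℂ) (i j : ℕ) (e : Fin 2 →₀ ℕ) :
    coeff e (C c * (X 0 + C x) ^ i * (X 1 + C y) ^ j : MvPolynomial (Fin 2) ℂ) =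
      c * (x ^ (i - e 0) * (i.choose (e 0) : ℂ)) * (y ^ (j - e 1) * (j.choose (e 1) : ℂ)) := by
  have he : e = Finsupp.single 0 (e 0) + Finsupp.single 1 (e 1) := by
    ext k
    fin_cases k <;> simp
  have hx : ∀ (s : Fin 2) (z : ℂ) (n : ℕ), ((X s + C z) ^ n : MvPolynomial (Fin 2) ℂ) =
      ∑ k ∈ Finset.range (n + 1), monomial (Finsupp.single s k) (z ^ (n - k) * (n.choose k : ℂ)) := by
    intro s z n
    rw [add_pow]
    refine Finset.sum_congr rfl fun k _ => ?_
    rw [X_pow_eq_monomial, ← C_pow, mul_assoc, ← map_natCast (C : ℂ →+* MvPolynomial (Fin 2) ℂ),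
      ← C_mul, mul_comm, C_mul_monomial, mul_one]
  rw [hx, hx, mul_assoc, Finset.sum_mul_sum, Finset.mul_sum, coeff_sum]
  simp_rw [Finset.mul_sum, coeff_sum, monomial_mul, C_mul_monomial, coeff_monomial]
  rw [Finset.sum_eq_single (e 0)]
  · rw [Finset.sum_eq_single (e 1)]
    · rw [if_pos he.symm]
      ring
    · intro l _ hl
      rw [if_neg]
      intro h
      rw [he] at h
      exact hl (single_add_inj.1 h).2
    · intro hl
      rw [Finset.mem_range] at hl
      rw [Nat.choose_eq_zero_of_lt (n := j) (k := e 1) (by omega)]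
      simp
  · intro k _ hk
    refine Finset.sum_eq_zero fun l _ => ?_
    rw [if_neg]
    intro h
    rw [he] at h
    exact hk (single_add_inj.1 h).1
  · intro hl
    rw [Finset.mem_range] at hl
    rw [Nat.choose_eq_zero_of_lt (n := i) (k := e 0) (by omega)]
    simp

private theorem shift_term (x : ℂ) (i a : ℕ) :
    (a.factorial : ℂ) * x ^ a * (x ^ (i - a) * (i.choose a : ℂ)) =
      (descPochhammer ℂ a).eval (i : ℂ) * x ^ i := by
  rw [descPochhammer_eval_eq_descFactorial, Nat.descFactorial_eq_factorial_mul_choose]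
  rcases le_or_gt a i with h | h
  · have : x ^ i = x ^ a * x ^ (i - a) := by rw [← pow_add, Nat.add_sub_cancel' h]
    rw [this]
    push_cast
    ring
  · rw [Nat.choose_eq_zero_of_lt h]
    simp

private theorem mon_toNat (p : ℂˣ × ℂˣ) (α : Cell) (h1 : 0 ≤ α.1) (h2 : 0 ≤ α.2) :
    mon p α = (p.1 : ℂ) ^ α.1.toNat * (p.2 : ℂ) ^ α.2.toNat := by
  unfold mon
  have e1 : p.1 ^ α.1 = p.1 ^ α.1.toNat := by
    rw [← zpow_natCast, Int.toNat_of_nonneg h1]
  have e2 : p.2 ^ α.2 = p.2 ^ α.2.toNat := by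
    rw [← zpow_natCast, Int.toNat_of_nonneg h2]
  rw [e1, e2]
  simp

private theorem coeff_tay_toPoly {D : Finset Cell} {p : ℂˣ × ℂˣ} {f : Cell → ℂ}
    (hD : ∀ α ∈ D, 0 ≤ α.1 ∧ 0 ≤ α.2) (e : Fin 2 →₀ ℕ) :
    ((e 0).factorial : ℂ) * (p.1 : ℂ) ^ e 0 * (((e 1).factorial : ℂ) * (p.2 : ℂ) ^ e 1) *
        coeff e (tay ![(p.1 : ℂ), (p.2 : ℂ)] (toPoly D f)) =
      pair D p f (descPochhammer ℂ (e 0)) (descPochhammer ℂ (e 1)) := by
  unfold tay toPoly pair
  rw [map_sum, coeff_sum, Finset.mul_sum]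
  refine Finset.sum_congr rfl fun α hα => ?_
  obtain ⟨h1, h2⟩ := hD α hα
  have e1 : ((α.1.toNat : ℕ) : ℂ) = (α.1 : ℂ) := by
    rw [← Int.cast_natCast, Int.toNat_of_nonneg h1]
  have e2 : ((α.2.toNat : ℕ) : ℂ) = (α.2 : ℂ) := by
    rw [← Int.cast_natCast, Int.toNat_of_nonneg h2]
  have hc : aeval (fun i => X i + C ((![(p.1 : ℂ), (p.2 : ℂ)] : Fin 2 → ℂ) i))
      (C (f α) * X 0 ^ α.1.toNat * X 1 ^ α.2.toNat : MvPolynomial (Fin 2) ℂ) =
      C (f α) * (X 0 + C (p.1 : ℂ)) ^ α.1.toNat * (X 1 + C (p.2 : ℂ)) ^ α.2.toNat := by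
    simp
  rw [hc, coeff_shift, mon_toNat p α h1 h2, ← e1, ← e2]
  have t1 := shift_term (p.1 : ℂ) α.1.toNat (e 0)
  have t2 := shift_term (p.2 : ℂ) α.2.toNat (e 1)
  calc _ = f α * (((e 0).factorial : ℂ) * (p.1 : ℂ) ^ e 0 *
          ((p.1 : ℂ) ^ (α.1.toNat - e 0) * (α.1.toNat.choose (e 0) : ℂ))) *
        (((e 1).factorial : ℂ) * (p.2 : ℂ) ^ e 1 *
          ((p.2 : ℂ) ^ (α.2.toNat - e 1) * (α.2.toNat.choose (e 1) : ℂ))) := by ring
    _ = _ := by rw [t1, t2]; ring

private theorem factor_ne (p : ℂˣ × ℂˣ) (e : Fin 2 →₀ ℕ) :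
    ((e 0).factorial : ℂ) * (p.1 : ℂ) ^ e 0 * (((e 1).factorial : ℂ) * (p.2 : ℂ) ^ e 1) ≠ 0 := by
  have h1 : ((e 0).factorial : ℂ) ≠ 0 := by exact_mod_cast (e 0).factorial_ne_zero
  have h2 : ((e 1).factorial : ℂ) ≠ 0 := by exact_mod_cast (e 1).factorial_ne_zero
  have h3 := p.1.ne_zero
  have h4 := p.2.ne_zero
  positivity

private theorem degree_two (e : Fin 2 →₀ ℕ) : e.degree = e 0 + e 1 := by
  rw [Finsupp.degree_eq_sum, Fin.sum_univ_two]

/-- logarithmic derivatives and multiplicity, first direction -/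
theorem le_mlt_of_van {m : ℕ} {D : Finset Cell} {p : ℂˣ × ℂˣ} {f : Cell → ℂ}
    (hD : ∀ α ∈ D, 0 ≤ α.1 ∧ 0 ≤ α.2) (h : Van m D p f) (h0 : toPoly D f ≠ 0) :
    m ≤ mlt ![(p.1 : ℂ), (p.2 : ℂ)] (toPoly D f) := by
  rw [le_mlt_iff h0]
  intro e he
  have h1 := coeff_tay_toPoly (p := p) (f := f) hD e
  rw [van_iff.1 h (e 0) (e 1) (by rw [← degree_two]; exact he)] at h1
  exact (mul_eq_zero.1 h1).resolve_left (factor_ne p e)

/-- logarithmic derivatives and multiplicity, second direction -/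
theorem van_of_le_mlt {m : ℕ} {D : Finset Cell} {p : ℂˣ × ℂˣ} {f : Cell → ℂ}
    (hD : ∀ α ∈ D, 0 ≤ α.1 ∧ 0 ≤ α.2)
    (h : m ≤ mlt ![(p.1 : ℂ), (p.2 : ℂ)] (toPoly D f) ∨ toPoly D f = 0) :
    Van m D p f := by
  rw [van_iff]
  intro a b hab
  have h1 := coeff_tay_toPoly (p := p) (f := f) hD (Finsupp.single 0 a + Finsupp.single 1 b)
  have e0 : (Finsupp.single (0 : Fin 2) a + Finsupp.single (1 : Fin 2) b : Fin 2 →₀ ℕ) 0 = a := by
    simp
  have e1 : (Finsupp.single (0 : Fin 2) a + Finsupp.single (1 : Fin 2) b : Fin 2 →₀ ℕ) 1 = b := by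
    simp
  have hc : coeff (Finsupp.single 0 a + Finsupp.single 1 b)
      (tay ![(p.1 : ℂ), (p.2 : ℂ)] (toPoly D f)) = 0 := by
    by_cases h0 : toPoly D f = 0
    · rw [h0]; simp [tay]
    · have h2 : m ≤ mlt ![(p.1 : ℂ), (p.2 : ℂ)] (toPoly D f) := h.resolve_right h0
      refine (le_mlt_iff h0 m).1 h2 _ ?_
      rw [degree_two, e0, e1]
      exact hab
  rw [hc, mul_zero, e0, e1] at h1
  exact h1.symm

/-- `toPoly` is injective on coefficients -/
theorem toPoly_eq_zero {D : Finset Cell} {f : Cell → ℂ} (hD : ∀ α ∈ D, 0 ≤ α.1 ∧ 0 ≤ α.2)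
    (h : toPoly D f = 0) : ∀ α ∈ D, f α = 0 := by
  intro α hα
  have h1 := congrArg (coeff (Finsupp.single 0 α.1.toNat + Finsupp.single 1 α.2.toNat)) h
  rw [coeff_zero] at h1
  unfold toPoly at h1
  simp_rw [toPoly_term, coeff_sum, coeff_monomial] at h1
  rw [Finset.sum_eq_single α] at h1
  · simpa using h1
  · intro β hβ hne
    rw [if_neg]
    intro h2
    obtain ⟨h3, h4⟩ := single_add_inj.1 h2
    obtain ⟨b1, b2⟩ := hD β hβ
    obtain ⟨a1, a2⟩ := hD α hα
    apply hne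
    ext <;> omega
  · intro h2
    exact absurd hα h2

theorem totalDegree_toPoly_trap {N h : ℤ} {f : Cell → ℂ} (hN : 1 ≤ N) (hh : 1 ≤ h) :
    ((toPoly (trap N h) f).totalDegree : ℤ) ≤ N - 1 ∧
      ((toPoly (trap N h) f).degreeOf 1 : ℤ) ≤ h - 1 := by
  obtain ⟨n, rfl⟩ : ∃ n : ℕ, N = n + 1 := ⟨(N - 1).toNat, by omega⟩
  obtain ⟨k, rfl⟩ : ∃ k : ℕ, h = k + 1 := ⟨(h - 1).toNat, by omega⟩
  have h1 : (toPoly (trap (n + 1) (k + 1)) f).totalDegree ≤ n := by
    unfold toPoly
    refine totalDegree_finsetSum_le fun α hα => ?_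
    obtain ⟨a1, a2, a3, a4⟩ := mem_trap.1 hα
    rw [toPoly_term]
    refine (totalDegree_monomial_le _ _).trans ?_
    rw [Finsupp.sum_add_index' (by simp) (by simp)]
    simp
    omega
  have h2 : (toPoly (trap (n + 1) (k + 1)) f).degreeOf 1 ≤ k := by
    unfold toPoly
    refine (degreeOf_sum_le _ _ _).trans (Finset.sup_le fun α hα => ?_)
    obtain ⟨a1, a2, a3, a4⟩ := mem_trap.1 hα
    rw [toPoly_term]
    by_cases hf : f α = 0
    · simp [hf]
    · rw [degreeOf_monomial_eq _ _ hf]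
      simp
      omega
  constructor <;> omega

end Pool.Agent.Lib.MP_ed661f_ag.E
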