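import Pool.Agent.Lib.MP_ed661f_ag.E.Mlt
import Pool.Agent.Lib.MP_ed661f_ag.E.Van
import Pool.Agent.Lib.MP_ed661f_ag.E.Bezout
import Pool.Agent.Lib.MP_ed661f_ag.E.Genus

/-!
Curves through eight points of the cuspidal cubic `y ^ 2 = x ^ 3` (and one point at infinity), and
the basic piece of the cutting method.
-/

open MvPolynomial

namespace Pool.Agent.Lib.MP_ed661f_ag.E

/-- the point of the cuspidal cubic with parameter `u` -/
def cusp (u : ℂ) : Fin 2 → ℂ := ![u ^ 2, u ^ 3]

namespace PieceAux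

/-- restriction to the parametrised cuspidal cubic -/
noncomputable def rst : MvPolynomial (Fin 2) ℂ →ₐ[ℂ] Polynomial ℂ :=
  aeval (![Polynomial.X ^ 2, Polynomial.X ^ 3] : Fin 2 → Polynomial ℂ)

/-- the equation of the cuspidal cubic -/
noncomputable def cub : MvPolynomial (Fin 2) ℂ := X 1 ^ 2 - X 0 ^ 3

theorem rst_X0 : rst (X 0) = Polynomial.X ^ 2 := by simp [rst]

theorem rst_X1 : rst (X 1) = Polynomial.X ^ 3 := by simp [rst]

theorem rst_cub : rst cub = 0 := by
  rw [cub, map_sub, map_pow, map_pow, rst_X0, rst_X1]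
  ring

theorem rst_dvd {f : MvPolynomial (Fin 2) ℂ} (hf : f ≠ 0) (u : ℂ) :
    (Polynomial.X - Polynomial.C u) ^ mlt (cusp u) f ∣ rst f := by
  have h := X_sub_C_pow_dvd_of_mlt hf (Polynomial.X ^ 2) (Polynomial.X ^ 3) u
  simpa [cusp, rst] using h

theorem cub_normal (f : MvPolynomial (Fin 2) ℂ) :
    ∃ A B : Polynomial ℂ,
      cub ∣ f - (Polynomial.aeval (X 0) A + Polynomial.aeval (X 0) B * X 1) := by
  induction f using MvPolynomial.induction_on with
  | C a => exact ⟨Polynomial.C a, 0, by simp [MvPolynomial.algebraMap_eq]⟩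
  | add p q hp hq =>
    obtain ⟨A, B, c, hc⟩ := hp
    obtain ⟨A', B', c', hc'⟩ := hq
    refine ⟨A + A', B + B', c + c', ?_⟩
    rw [map_add, map_add]
    linear_combination hc + hc'
  | mul_X p i hp =>
    obtain ⟨A, B, c, hc⟩ := hp
    fin_cases i
    · refine ⟨A * Polynomial.X, B * Polynomial.X, c * X 0, ?_⟩
      simp only [map_mul, Polynomial.aeval_X, Fin.zero_eta]
      linear_combination hc * X 0
    · refine ⟨B * Polynomial.X ^ 3, A, c * X 1 + Polynomial.aeval (X 0) B, ?_⟩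
      simp only [map_mul, map_pow, Polynomial.aeval_X, Fin.mk_one]
      have : cub = X 1 ^ 2 - X 0 ^ 3 := rfl
      rw [this] at hc ⊢
      linear_combination hc * X 1

theorem parity {A B : Polynomial ℂ}
    (h : Polynomial.expand ℂ 2 A + Polynomial.expand ℂ 2 B * Polynomial.X ^ 3 = 0) :
    A = 0 ∧ B = 0 := by
  have hA : A = 0 := by
    ext k
    have h1 := congrArg (fun P => Polynomial.coeff P (2 * k)) h
    simp only [Polynomial.coeff_add, Polynomial.coeff_mul_X_pow', Polynomial.coeff_zero,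
      Polynomial.coeff_expand (by norm_num : 0 < 2)] at h1
    rw [if_pos (Dvd.intro k rfl)] at h1
    rw [Nat.mul_div_cancel_left k (by norm_num)] at h1
    by_cases h3 : 3 ≤ 2 * k
    · rw [if_pos h3, if_neg (by omega)] at h1
      simpa using h1
    · rw [if_neg h3] at h1
      simpa using h1
  subst hA
  refine ⟨rfl, ?_⟩
  have h2 : Polynomial.expand ℂ 2 B = 0 := by
    simpa using h
  exact (Polynomial.expand_eq_zero (by norm_num)).1 h2

theorem cub_dvd {f : MvPolynomial (Fin 2) ℂ} (h : rst f = 0) : cub ∣ f := by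
  obtain ⟨A, B, hAB⟩ := cub_normal f
  have h1 : rst (f - (Polynomial.aeval (X 0) A + Polynomial.aeval (X 0) B * X 1)) = 0 := by
    obtain ⟨c, hc⟩ := hAB
    rw [hc, map_mul, rst_cub, zero_mul]
  rw [map_sub, h, zero_sub, neg_eq_zero, map_add, map_mul, rst_X1,
    ← Polynomial.aeval_algHom_apply, ← Polynomial.aeval_algHom_apply, rst_X0] at h1
  have h2 : ∀ P : Polynomial ℂ, Polynomial.aeval ((Polynomial.X : Polynomial ℂ) ^ 2) P =
      Polynomial.expand ℂ 2 P := by
    intro P
    rw [Polynomial.aeval_def, Polynomial.coe_expand, Polynomial.algebraMap_eq]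
  rw [h2, h2] at h1
  obtain ⟨rfl, rfl⟩ := parity h1
  simpa using hAB

theorem eval_cub (u : ℂ) : eval (cusp u) cub = 0 := by
  simp [cub, cusp]
  ring

theorem rst_eq (f : MvPolynomial (Fin 2) ℂ) :
    rst f = ∑ m ∈ f.support, Polynomial.C (coeff m f) * Polynomial.X ^ (2 * m 0 + 3 * m 1) := by
  rw [rst, aeval_def, eval₂_eq']
  refine Finset.sum_congr rfl fun m _ => ?_
  rw [Fin.prod_univ_two]
  simp only [Matrix.cons_val_zero, Matrix.cons_val_one, Polynomial.algebraMap_eq]
  rw [← pow_mul, ← pow_mul, ← pow_add]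

theorem natDegree_rst (f : MvPolynomial (Fin 2) ℂ) :
    (rst f).natDegree ≤ 2 * f.totalDegree + f.degreeOf 1 := by
  rw [rst_eq]
  refine Polynomial.natDegree_sum_le_of_forall_le _ _ fun m hm => ?_
  refine (Polynomial.natDegree_C_mul_X_pow_le _ _).trans ?_
  have h1 := le_totalDegree hm
  rw [Finsupp.sum_fintype _ _ (fun _ => rfl), Fin.sum_univ_two] at h1
  have h2 := monomial_le_degreeOf 1 hm
  omega

theorem coeff_one_rst (f : MvPolynomial (Fin 2) ℂ) : (rst f).coeff 1 = 0 := by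
  rw [rst_eq, Polynomial.finsetSum_coeff]
  refine Finset.sum_eq_zero fun m _ => ?_
  rw [Polynomial.coeff_C_mul_X_pow, if_neg (by omega)]

/-- the logarithmic derivative at the origin -/
theorem eval_derivative_prod {u : Fin 8 → ℂ} (hu0 : ∀ i, u i ≠ 0) (k : Fin 8 → ℕ)
    (s : Finset (Fin 8)) :
    (Polynomial.derivative (∏ i ∈ s, (Polynomial.X - Polynomial.C (u i)) ^ k i)).eval 0 =
      -(∏ i ∈ s, (Polynomial.X - Polynomial.C (u i)) ^ k i).eval 0 *
        ∑ i ∈ s, (k i : ℂ) * (u i)⁻¹ := by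
  induction s using Finset.induction_on with
  | empty => simp
  | insert a s ha ih =>
    rw [Finset.prod_insert ha, Finset.sum_insert ha, Polynomial.derivative_mul,
      Polynomial.eval_add, Polynomial.eval_mul, Polynomial.eval_mul, ih, Polynomial.eval_mul]
    have h1 : (Polynomial.derivative ((Polynomial.X - Polynomial.C (u a)) ^ k a)).eval 0 =
        -((Polynomial.X - Polynomial.C (u a)) ^ k a).eval 0 * ((k a : ℂ) * (u a)⁻¹) := by
      rcases Nat.eq_zero_or_pos (k a) with h0 | h0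
      · simp [h0]
      · obtain ⟨l, hl⟩ : ∃ l, k a = l + 1 := ⟨k a - 1, by omega⟩
        rw [hl, Polynomial.derivative_pow]
        simp only [Polynomial.eval_mul, Polynomial.eval_pow, Polynomial.eval_sub,
          Polynomial.eval_X, Polynomial.eval_C, zero_sub, Polynomial.derivative_sub,
          Polynomial.derivative_X, Polynomial.derivative_C, sub_zero,
          mul_one, Nat.add_sub_cancel]
        have := hu0 a
        field_simp
        ring
    rw [h1]
    ring

theorem mlt_sum {u : Fin 8 → ℂ} (hu0 : ∀ i, u i ≠ 0)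
    (hu : LinearIndependent ℚ (fun i => (u i)⁻¹)) {f : MvPolynomial (Fin 2) ℂ} (hf : f ≠ 0)
    (hr : rst f ≠ 0) :
    ∑ i, mlt (cusp (u i)) f ≤ 2 * f.totalDegree + f.degreeOf 1 ∧
      (∑ i, mlt (cusp (u i)) f = 2 * f.totalDegree + f.degreeOf 1 → f.totalDegree = 0) := by
  have hinj : Function.Injective u := by
    intro i j hij
    exact hu.injective (by simp [hij])
  have hdvd : (∏ i, (Polynomial.X - Polynomial.C (u i)) ^ mlt (cusp (u i)) f) ∣ rst f := by
    refine Finset.prod_dvd_of_coprime ?_ fun i _ => rst_dvd hf (u i)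
    intro i _ j _ hij
    exact (Polynomial.pairwise_coprime_X_sub_C hinj hij).pow
  have hdeg : (∏ i, (Polynomial.X - Polynomial.C (u i)) ^ mlt (cusp (u i)) f).natDegree =
      ∑ i, mlt (cusp (u i)) f := by
    rw [Polynomial.natDegree_prod_of_monic _ _
      (fun i _ => (Polynomial.monic_X_sub_C (u i)).pow _)]
    refine Finset.sum_congr rfl fun i _ => ?_
    rw [Polynomial.natDegree_pow, Polynomial.natDegree_X_sub_C, mul_one]
  obtain ⟨q, hq⟩ := hdvd
  have hq0 : q ≠ 0 := by
    rintro rfl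
    exact hr (by rw [hq, mul_zero])
  have hP0 : (∏ i, (Polynomial.X - Polynomial.C (u i)) ^ mlt (cusp (u i)) f) ≠ 0 := by
    intro h
    exact hr (by rw [hq, h, zero_mul])
  have hle := natDegree_rst f
  have h1 := Polynomial.natDegree_mul hP0 hq0
  rw [← hq, hdeg] at h1
  refine ⟨by omega, fun heq => ?_⟩
  have hqd : q.natDegree = 0 := by omega
  obtain ⟨c, rfl⟩ : ∃ c, q = Polynomial.C c := ⟨_, Polynomial.eq_C_of_natDegree_eq_zero hqd⟩
  have hc : c ≠ 0 := by
    rintro rfl
    exact hq0 (by simp)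
  have h2 := coeff_one_rst f
  rw [hq, Polynomial.coeff_mul_C] at h2
  have h3 : (∏ i, (Polynomial.X - Polynomial.C (u i)) ^ mlt (cusp (u i)) f).coeff 1 = 0 :=
    (mul_eq_zero.1 h2).resolve_right hc
  have h4 := eval_derivative_prod hu0 (fun i => mlt (cusp (u i)) f) Finset.univ
  rw [← Polynomial.coeff_zero_eq_eval_zero, Polynomial.coeff_derivative, zero_add, h3, zero_mul,
    eq_comm, mul_eq_zero, neg_eq_zero] at h4
  have h5 : (∏ i, (Polynomial.X - Polynomial.C (u i)) ^ mlt (cusp (u i)) f).eval 0 ≠ 0 := by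
    rw [Polynomial.eval_prod]
    refine Finset.prod_ne_zero_iff.2 fun i _ => ?_
    simp only [Polynomial.eval_pow, Polynomial.eval_sub, Polynomial.eval_X, Polynomial.eval_C,
      zero_sub]
    exact pow_ne_zero _ (neg_ne_zero.2 (hu0 i))
  have h6 := h4.resolve_left h5
  have h7 : ∀ i, mlt (cusp (u i)) f = 0 := by
    have h8 := Fintype.linearIndependent_iff.1 hu (fun i => (mlt (cusp (u i)) f : ℚ)) (by
      rw [← h6]
      refine Finset.sum_congr rfl fun i _ => ?_
      rw [Rat.smul_def]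
      simp)
    intro i
    exact_mod_cast h8 i
  simp only [h7, Finset.sum_const_zero] at heq
  omega

/-! ### The equation of the cuspidal cubic -/

theorem coeff_cub_30 : coeff (Finsupp.single 0 3) cub = -1 := by
  rw [cub, coeff_sub, coeff_X_pow, coeff_X_pow, if_pos rfl, if_neg, zero_sub]
  intro h
  have := DFunLike.congr_fun h 0
  simp at this

theorem coeff_cub_02 : coeff (Finsupp.single 1 2) cub = 1 := by
  rw [cub, coeff_sub, coeff_X_pow, coeff_X_pow, if_pos rfl, if_neg, sub_zero]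
  intro h
  have := DFunLike.congr_fun h 0
  simp at this

theorem cub_ne_zero : cub ≠ 0 := by
  intro h
  have := coeff_cub_30
  rw [h] at this
  simp at this

theorem totalDegree_cub : cub.totalDegree = 3 := by
  apply le_antisymm
  · refine (totalDegree_sub _ _).trans ?_
    rw [totalDegree_X_pow, totalDegree_X_pow]
    norm_num
  · have h := le_totalDegree (p := cub) (s := Finsupp.single 0 3)
      (by rw [mem_support_iff, coeff_cub_30]; norm_num)
    simpa using h

theorem degreeOf_cub : cub.degreeOf 1 = 2 := by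
  apply le_antisymm
  · refine (degreeOf_sub_le _ _ _).trans ?_
    refine max_le ?_ ?_
    · refine (degreeOf_pow_le _ _ _).trans ?_
      rw [degreeOf_X, if_pos rfl]
    · refine (degreeOf_pow_le _ _ _).trans ?_
      rw [degreeOf_X, if_neg (by decide)]
      norm_num
  · have h := monomial_le_degreeOf 1 (f := cub) (m := Finsupp.single 1 2)
      (by rw [mem_support_iff, coeff_cub_02]; norm_num)
    simpa using h

theorem pderiv_cub : pderiv 1 cub = C 2 * X 1 := by
  rw [cub, map_sub, pderiv_pow, pderiv_pow, pderiv_X_self, pderiv_X_of_ne (by decide), map_ofNat]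
  simp

theorem mlt_cub {v : ℂ} (hv : v ≠ 0) : mlt (cusp v) cub = 1 := by
  apply le_antisymm
  · have h0 : pderiv 1 cub ≠ 0 := by
      rw [pderiv_cub]
      exact mul_ne_zero (by simp) (X_ne_zero 1)
    have h1 := mlt_pderiv (p := cusp v) 1 h0
    have h2 : ¬ 1 ≤ mlt (cusp v) (pderiv 1 cub) := by
      rw [mlt_pos_iff h0, pderiv_cub]
      simp [cusp, hv]
    omega
  · exact (mlt_pos_iff cub_ne_zero).2 (eval_cub v)

/-! ### Classes -/

/-- numerical classes on the plane blown up in one point at infinity and eight points -/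
abbrev Cl := ℤ × ℤ × (Fin 8 → ℤ)

/-- the class of a plane curve -/
noncomputable def cl (u : Fin 8 → ℂ) (f : MvPolynomial (Fin 2) ℂ) : Cl :=
  (f.totalDegree, f.degreeOf 1, fun i => mlt (cusp (u i)) f)

/-- intersection form -/
def Bf (x y : Cl) : ℤ := x.1 * y.2.1 + y.1 * x.2.1 - x.2.1 * y.2.1 - ∑ i, x.2.2 i * y.2.2 i

/-- degree with respect to the anticanonical class -/
def sf (x : Cl) : ℤ := 2 * x.1 + x.2.1 - ∑ i, x.2.2 i

/-- the auxiliary form -/
def Q (x y : Cl) : ℤ := Bf x y + sf x * sf y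

theorem sf_add (x y : Cl) : sf (x + y) = sf x + sf y := by
  simp only [sf, Prod.fst_add, Prod.snd_add, Pi.add_apply, Finset.sum_add_distrib]
  ring

theorem sf_zero : sf 0 = 0 := by simp [sf]

theorem Q_add_left (x y z : Cl) : Q (x + y) z = Q x z + Q y z := by
  simp only [Q, sf_add, Bf]
  simp only [Prod.fst_add, Prod.snd_add, Pi.add_apply, add_mul, Finset.sum_add_distrib]
  ring

theorem Q_comm (x y : Cl) : Q x y = Q y x := by
  simp only [Q, Bf]
  rw [Finset.sum_congr rfl (fun i _ => mul_comm (x.2.2 i) (y.2.2 i))]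
  ring

theorem Q_zero_left (y : Cl) : Q 0 y = 0 := by simp [Q, sf_zero, Bf]

theorem closure_nonneg {S : Set Cl} (hS : ∀ x ∈ S, ∀ y ∈ S, 0 ≤ Q x y) :
    ∀ x ∈ AddSubmonoid.closure S, ∀ y ∈ AddSubmonoid.closure S, 0 ≤ Q x y := by
  have h1 : ∀ x ∈ AddSubmonoid.closure S, ∀ y ∈ S, 0 ≤ Q x y := by
    intro x hx y hy
    induction hx using AddSubmonoid.closure_induction with
    | mem x hx => exact hS x hx y hy
    | zero => rw [Q_zero_left]
    | add a b _ _ ha hb => rw [Q_add_left]; exact add_nonneg ha hb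
  intro x hx y hy
  rw [Q_comm]
  induction hy using AddSubmonoid.closure_induction with
  | mem y hy => rw [Q_comm]; exact h1 x hx y hy
  | zero => rw [Q_zero_left]
  | add a b _ _ ha hb => rw [Q_add_left]; exact add_nonneg ha hb

theorem closure_sf {S : Set Cl} (hS : ∀ x ∈ S, 0 ≤ sf x) :
    ∀ x ∈ AddSubmonoid.closure S, 0 ≤ sf x := by
  intro x hx
  induction hx using AddSubmonoid.closure_induction with
  | mem x hx => exact hS x hx
  | zero => rw [sf_zero]
  | add a b _ _ ha hb => rw [sf_add]; exact add_nonneg ha hb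

theorem cl_mul (u : Fin 8 → ℂ) {f g : MvPolynomial (Fin 2) ℂ} (hf : f ≠ 0) (hg : g ≠ 0) :
    cl u (f * g) = cl u f + cl u g := by
  refine Prod.ext ?_ (Prod.ext ?_ (funext fun i => ?_))
  · simp only [cl, Prod.fst_add]
    rw [totalDegree_mul_of_isDomain hf hg]
    push_cast
    rfl
  · simp only [cl, Prod.fst_add, Prod.snd_add]
    rw [degreeOf_mul_eq hf hg]
    push_cast
    rfl
  · simp only [cl, Prod.snd_add, Pi.add_apply]
    rw [mlt_mul hf hg]
    push_cast
    rfl

theorem cl_unit (u : Fin 8 → ℂ) {f : MvPolynomial (Fin 2) ℂ} (hf : IsUnit f) : cl u f = 0 := by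
  obtain ⟨r, _, rfl⟩ := MvPolynomial.isUnit_iff_eq_C_of_isReduced.1 hf
  refine Prod.ext ?_ (Prod.ext ?_ (funext fun i => ?_))
  · simp [cl]
  · simp [cl]
  · simp [cl, mlt_unit hf]

theorem cl_associated (u : Fin 8 → ℂ) {f g : MvPolynomial (Fin 2) ℂ} (hf : f ≠ 0)
    (h : Associated f g) : cl u f = cl u g := by
  obtain ⟨v, rfl⟩ := h
  rw [cl_mul u hf v.ne_zero, cl_unit u v.isUnit, add_zero]

theorem cl_cub {u : Fin 8 → ℂ} (hu0 : ∀ i, u i ≠ 0) : cl u cub = (3, 2, fun _ => 1) := by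
  refine Prod.ext ?_ (Prod.ext ?_ (funext fun i => ?_))
  · simp [cl, totalDegree_cub]
  · simp [cl, degreeOf_cub]
  · simp [cl, mlt_cub (hu0 i)]

theorem isRelPrime_or {f g : MvPolynomial (Fin 2) ℂ} (hf : Irreducible f) (hg : Irreducible g) :
    Associated f g ∨ IsRelPrime f g := by
  by_cases h : f ∣ g
  · exact Or.inl (hf.associated_of_dvd hg h)
  · exact Or.inr (hf.isRelPrime_iff_not_dvd.2 h)

theorem cusp_injective {u : Fin 8 → ℂ} (hu0 : ∀ i, u i ≠ 0)
    (hu : LinearIndependent ℚ (fun i => (u i)⁻¹)) :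
    Function.Injective (fun i => cusp (u i)) := by
  intro i j hij
  have h0 : (u i) ^ 2 = (u j) ^ 2 := by simpa [cusp] using congrFun hij 0
  have h1 : (u i) ^ 3 = (u j) ^ 3 := by simpa [cusp] using congrFun hij 1
  have h2 : u i = u j := by
    have h3 : u j ^ 2 * (u i - u j) = 0 := by linear_combination h1 - u i * h0
    rcases mul_eq_zero.1 h3 with h4 | h4
    · exact absurd h4 (pow_ne_zero _ (hu0 j))
    · exact sub_eq_zero.1 h4
  exact hu.injective (by simp [h2])

theorem sum_image_cusp {u : Fin 8 → ℂ} (hu0 : ∀ i, u i ≠ 0)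
    (hu : LinearIndependent ℚ (fun i => (u i)⁻¹)) (F : (Fin 2 → ℂ) → ℤ) :
    ∑ p ∈ Finset.univ.image (fun i => cusp (u i)), F p = ∑ i, F (cusp (u i)) := by
  rw [Finset.sum_image]
  intro i _ j _ hij
  exact cusp_injective hu0 hu hij

theorem rst_ne_zero {f : MvPolynomial (Fin 2) ℂ} (hf : Irreducible f)
    (h : ¬ Associated cub f) : rst f ≠ 0 := by
  intro h0
  have h1 := cub_dvd h0
  apply h
  obtain ⟨g, hg⟩ := h1
  rcases hf.isUnit_or_isUnit hg with hu | hu
  · exfalso
    have := hu.map rst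
    rw [rst_cub] at this
    exact not_isUnit_zero this
  · rw [hg]
    exact (associated_mul_unit_right cub g hu)

/-- `s ≥ 1` for irreducible curves other than the cuspidal cubic -/
theorem one_le_sf {u : Fin 8 → ℂ} (hu0 : ∀ i, u i ≠ 0)
    (hu : LinearIndependent ℚ (fun i => (u i)⁻¹)) {f : MvPolynomial (Fin 2) ℂ}
    (hf : Irreducible f) (h : ¬ Associated cub f) : 1 ≤ sf (cl u f) := by
  obtain ⟨h1, h2⟩ := mlt_sum hu0 hu hf.ne_zero (rst_ne_zero hf h)
  have h3 : f.totalDegree ≠ 0 := by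
    intro h0
    rw [totalDegree_eq_zero_iff_eq_C] at h0
    rw [h0] at hf
    have hc : coeff 0 f ≠ 0 := by
      intro hc
      rw [hc, C_0] at hf
      exact hf.ne_zero rfl
    exact hf.not_isUnit ((isUnit_iff_ne_zero.2 hc).map C)
  have h4 : ∑ i, mlt (cusp (u i)) f ≠ 2 * f.totalDegree + f.degreeOf 1 := fun h => h3 (h2 h)
  have h5 : ∑ i, mlt (cusp (u i)) f < 2 * f.totalDegree + f.degreeOf 1 := lt_of_le_of_ne h1 h4
  simp only [sf, cl]
  have h6 : ((∑ i, mlt (cusp (u i)) f : ℕ) : ℤ) < 2 * f.totalDegree + f.degreeOf 1 := by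
    exact_mod_cast h5
  push_cast at h6
  linarith

theorem sf_nonneg {u : Fin 8 → ℂ} (hu0 : ∀ i, u i ≠ 0)
    (hu : LinearIndependent ℚ (fun i => (u i)⁻¹)) {f : MvPolynomial (Fin 2) ℂ}
    (hf : Irreducible f) : 0 ≤ sf (cl u f) := by
  by_cases h : Associated cub f
  · rw [← cl_associated u cub_ne_zero h, cl_cub hu0]
    simp [sf]
  · have := one_le_sf hu0 hu hf h
    linarith

/-- irreducible curves of degree zero in the second variable are lines -/
theorem totalDegree_eq_one {f : MvPolynomial (Fin 2) ℂ} (hf : Irreducible f)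
    (h : f.degreeOf 1 = 0) : f.totalDegree = 1 := by
  have hvar : ∀ i, i ∈ f.vars → i = 0 := by
    intro i hi
    fin_cases i
    · rfl
    · exfalso
      have : 1 ∉ f.vars := by
        rw [MvPolynomial.mem_vars_iff_mem_support]
        rintro ⟨m, hm, h1⟩
        have h2 := monomial_le_degreeOf 1 hm
        rw [h] at h2
        exact (Finsupp.mem_support_iff.1 h1) (Nat.le_zero.1 h2)
      exact this hi
  set A : Polynomial ℂ := aeval (![Polynomial.X, 0] : Fin 2 → Polynomial ℂ) f with hA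
  have hfA : Polynomial.aeval (X 0 : MvPolynomial (Fin 2) ℂ) A = f := by
    have h1 := MvPolynomial.hom_congr_vars
      (f₁ := (((Polynomial.aeval (X 0 : MvPolynomial (Fin 2) ℂ)).comp
        (aeval (![Polynomial.X, 0] : Fin 2 → Polynomial ℂ)) :
          MvPolynomial (Fin 2) ℂ →ₐ[ℂ] MvPolynomial (Fin 2) ℂ) : MvPolynomial (Fin 2) ℂ →+* _))
      (f₂ := RingHom.id (MvPolynomial (Fin 2) ℂ)) (p₁ := f) (p₂ := f)
      (by
        ext1 r
        simp)
      (by
        intro i hi _
        rw [hvar i hi]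
        simp) rfl
    simpa using h1
  have hAd : A.degree ≠ 0 := by
    intro h0
    rw [Polynomial.eq_C_of_degree_eq_zero h0, Polynomial.aeval_C] at hfA
    have hc : A.coeff 0 ≠ 0 := by
      intro hc
      rw [hc, map_zero] at hfA
      exact hf.ne_zero hfA.symm
    apply hf.not_isUnit
    rw [← hfA]
    exact (isUnit_iff_ne_zero.2 hc).map _
  obtain ⟨a, ha⟩ := IsAlgClosed.exists_root A hAd
  obtain ⟨B, hB⟩ := Polynomial.dvd_iff_isRoot.2 ha
  have h1 : f = (X 0 - C a) * Polynomial.aeval (X 0 : MvPolynomial (Fin 2) ℂ) B := by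
    rw [← hfA, hB, map_mul, map_sub, Polynomial.aeval_X, Polynomial.aeval_C]
    rfl
  have h2 : (X 0 - C a : MvPolynomial (Fin 2) ℂ).totalDegree = 1 := by
    apply le_antisymm
    · refine (totalDegree_sub _ _).trans ?_
      simp
    · have h := le_totalDegree (p := (X 0 - C a : MvPolynomial (Fin 2) ℂ))
        (s := Finsupp.single 0 1) (by
          rw [mem_support_iff, coeff_sub, coeff_X, coeff_C, if_pos rfl, if_neg]
          · simp
          · intro h
            have := DFunLike.congr_fun h 0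
            simp at this)
      simpa using h
  have h3 : ¬ IsUnit (X 0 - C a : MvPolynomial (Fin 2) ℂ) := by
    intro h4
    obtain ⟨r, _, hr⟩ := MvPolynomial.isUnit_iff_eq_C_of_isReduced.1 h4
    rw [hr, totalDegree_C] at h2
    omega
  have h4 := (hf.isUnit_or_isUnit h1).resolve_left h3
  obtain ⟨r, hr0, hr⟩ := MvPolynomial.isUnit_iff_eq_C_of_isReduced.1 h4
  rw [h1, hr, totalDegree_mul_of_isDomain (by rintro h5; rw [h5] at h2; simp at h2)
    (by simpa using hr0.ne_zero), h2, totalDegree_C]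

theorem Q_self {u : Fin 8 → ℂ} (hu0 : ∀ i, u i ≠ 0)
    (hu : LinearIndependent ℚ (fun i => (u i)⁻¹)) {f : MvPolynomial (Fin 2) ℂ}
    (hf : Irreducible f) : 0 ≤ Q (cl u f) (cl u f) := by
  by_cases h : Associated cub f
  · rw [← cl_associated u cub_ne_zero h, cl_cub hu0]
    simp [Q, Bf, sf]
  have hs := one_le_sf hu0 hu hf h
  rcases Nat.eq_zero_or_pos (f.degreeOf 1) with hb | hb
  · have hd := totalDegree_eq_one hf hb
    simp only [Q, Bf, sf, cl, hb, hd, Nat.cast_zero, Nat.cast_one] at hs ⊢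
    have h1 : (∑ i, (mlt (cusp (u i)) f : ℤ) * (mlt (cusp (u i)) f : ℤ)) ≤
        (∑ i, (mlt (cusp (u i)) f : ℤ)) * (∑ i, (mlt (cusp (u i)) f : ℤ)) := by
      rw [Finset.sum_mul]
      refine Finset.sum_le_sum fun i hi => ?_
      refine mul_le_mul_of_nonneg_left ?_ (by positivity)
      exact Finset.single_le_sum (f := fun j => (mlt (cusp (u j)) f : ℤ))
        (fun j _ => by positivity) hi
    have h2 : 0 ≤ (∑ i, (mlt (cusp (u i)) f : ℤ)) := Finset.sum_nonneg fun j _ => by positivity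
    nlinarith
  · have h1 := genus_bound hf hb (Finset.univ.image (fun i => cusp (u i)))
    rw [sum_image_cusp hu0 hu (fun p => (mlt p f : ℤ) * (mlt p f - 1))] at h1
    simp only [mul_sub, mul_one, Finset.sum_sub_distrib] at h1
    simp only [Q, Bf]
    have h2 : sf (cl u f) - 2 ≤ Bf (cl u f) (cl u f) := by
      simp only [sf, Bf, cl]
      nlinarith
    simp only [Bf] at h2
    nlinarith

theorem Q_irreducible {u : Fin 8 → ℂ} (hu0 : ∀ i, u i ≠ 0)
    (hu : LinearIndependent ℚ (fun i => (u i)⁻¹)) {f g : MvPolynomial (Fin 2) ℂ}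
    (hf : Irreducible f) (hg : Irreducible g) : 0 ≤ Q (cl u f) (cl u g) := by
  rcases isRelPrime_or hf hg with h | h
  · rw [← cl_associated u hf.ne_zero h]
    exact Q_self hu0 hu hf
  · have h1 := bezout hf.ne_zero hg.ne_zero h (Finset.univ.image (fun i => cusp (u i)))
    rw [sum_image_cusp hu0 hu (fun p => (mlt p f : ℤ) * (mlt p g))] at h1
    have h2 := mul_nonneg (sf_nonneg hu0 hu hf) (sf_nonneg hu0 hu hg)
    have h3 : 0 ≤ Bf (cl u f) (cl u g) := by
      simp only [Bf, cl]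
      linarith
    exact add_nonneg h3 h2

/-- the generators of the effective cone -/
def gens (u : Fin 8 → ℂ) : Set Cl :=
  {x | (∃ f, Irreducible f ∧ x = cl u f) ∨ x = (1, 0, 0) ∨ x = (0, 1, 0) ∨
    ∃ i, x = (0, 0, Pi.single i (-1))}

theorem Q_gens {u : Fin 8 → ℂ} (hu0 : ∀ i, u i ≠ 0)
    (hu : LinearIndependent ℚ (fun i => (u i)⁻¹)) :
    ∀ x ∈ gens u, ∀ y ∈ gens u, 0 ≤ Q x y := by
  have hL : ∀ y, Q (1, 0, 0) y = y.2.1 + 2 * sf y := by
    intro y
    simp [Q, Bf, sf]
  have hF : ∀ y, Q (0, 1, 0) y = y.1 - y.2.1 + sf y := by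
    intro y
    simp [Q, Bf, sf]
  have hE : ∀ i y, Q (0, 0, Pi.single i (-1)) y = y.2.2 i + sf y := by
    intro i y
    simp [Q, Bf, sf, Pi.single_apply]
  have hg : ∀ y ∈ gens u, 0 ≤ y.2.1 + 2 * sf y ∧ 0 ≤ y.1 - y.2.1 + sf y ∧
      ∀ i, 0 ≤ y.2.2 i + sf y := by
    rintro y (⟨f, hf, rfl⟩ | rfl | rfl | ⟨j, rfl⟩)
    · have hs := sf_nonneg hu0 hu hf
      have h1 : (f.degreeOf 1 : ℤ) ≤ f.totalDegree := by
        exact_mod_cast degreeOf_le_totalDegree f 1
      refine ⟨?_, ?_, fun i => ?_⟩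
      · have : (0 : ℤ) ≤ (cl u f).2.1 := by simp [cl]
        linarith
      · have : (cl u f).1 - (cl u f).2.1 = (f.totalDegree : ℤ) - f.degreeOf 1 := rfl
        rw [this]
        linarith
      · have : (0 : ℤ) ≤ (cl u f).2.2 i := by simp [cl]
        linarith
    · simp [sf]
    · simp [sf]
    · have h1 : sf ((0, 0, Pi.single j (-1)) : Cl) = 1 := by simp [sf]
      rw [h1]
      refine ⟨by norm_num, by norm_num, fun i => ?_⟩
      by_cases hij : i = j
      · subst hij
        simp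
      · simp [hij]
  rintro x hx y hy
  obtain ⟨h1, h2, h3⟩ := hg y hy
  rcases hx with ⟨f, hf, rfl⟩ | rfl | rfl | ⟨j, rfl⟩
  · have hx : cl u f ∈ gens u := Or.inl ⟨f, hf, rfl⟩
    obtain ⟨k1, k2, k3⟩ := hg _ hx
    rcases hy with ⟨g, hg, rfl⟩ | rfl | rfl | ⟨j, rfl⟩
    · exact Q_irreducible hu0 hu hf hg
    · rw [Q_comm, hL]; exact k1
    · rw [Q_comm, hF]; exact k2
    · rw [Q_comm, hE]; exact k3 j
  · rw [hL]; exact h1
  · rw [hF]; exact h2
  · rw [hE]; exact h3 j

theorem cl_mem (u : Fin 8 → ℂ) (f : MvPolynomial (Fin 2) ℂ) (hf : f ≠ 0) :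
    cl u f ∈ AddSubmonoid.closure (gens u) := by
  revert hf
  refine WfDvdMonoid.induction_on_irreducible f (fun h => absurd rfl h) ?_ ?_
  · intro v hv _
    rw [cl_unit u hv]
    exact zero_mem _
  · intro a i ha hi ih _
    rw [cl_mul u hi.ne_zero ha]
    exact add_mem (AddSubmonoid.subset_closure (Or.inl ⟨i, hi, rfl⟩)) (ih ha)

theorem exists_parameters :
    ∃ u : Fin 8 → ℂ, (∀ i, u i ≠ 0) ∧ LinearIndependent ℚ (fun i => (u i)⁻¹) := by
  have h8 : ((8 : ℕ) : Cardinal) ≤ Module.rank ℚ ℂ := by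
    rw [Complex.rank_rat_complex]
    exact (Cardinal.nat_lt_continuum 8).le
  obtain ⟨S, hS, hli⟩ := (le_rank_iff_exists_linearIndependent_finset).1 h8
  have hli' := hli.comp _ (Finset.equivFinOfCardEq hS).symm.injective
  refine ⟨fun i => (((Finset.equivFinOfCardEq hS).symm i : S) : ℂ)⁻¹, fun i => ?_, ?_⟩
  · exact inv_ne_zero (hli'.ne_zero i)
  · simp only [inv_inv]
    exact hli'

end PieceAux

open PieceAux in
/-- curves through eight points of the cuspidal cubic (and one point at infinity) -/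
theorem nine_points {u : Fin 8 → ℂ} (hu0 : ∀ i, u i ≠ 0)
    (hu : LinearIndependent ℚ (fun i => (u i)⁻¹)) {f : MvPolynomial (Fin 2) ℂ} (hf : f ≠ 0)
    {d b m : ℕ} (hd : f.totalDegree ≤ d) (hb : f.degreeOf 1 ≤ b)
    (hm : ∀ i, m ≤ mlt (cusp (u i)) f) :
    0 ≤ 2 * (d : ℤ) + b - 8 * m ∧
      -(2 * (d : ℤ) + b - 8 * m) ^ 2 ≤ (b : ℤ) * (2 * d - b) - 8 * m ^ 2 := by
  have hD : (((d : ℤ), (b : ℤ), fun _ => (m : ℤ)) : Cl) ∈ AddSubmonoid.closure (gens u) := by
    have h1 : (((d : ℤ), (b : ℤ), fun _ => (m : ℤ)) : Cl) =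
        cl u f + (d - f.totalDegree) • ((1, 0, 0) : Cl) + (b - f.degreeOf 1) • ((0, 1, 0) : Cl) +
          ∑ i, (mlt (cusp (u i)) f - m) • ((0, 0, Pi.single i (-1)) : Cl) := by
      refine Prod.ext ?_ (Prod.ext ?_ (funext fun i => ?_))
      · simp only [cl, Prod.fst_add, Prod.smul_fst, Prod.fst_sum, smul_zero,
          Finset.sum_const_zero]
        simp only [nsmul_eq_mul]
        push_cast [Nat.cast_sub hd]
        ring
      · simp only [cl, Prod.snd_add, Prod.fst_add, Prod.smul_snd, Prod.smul_fst, Prod.snd_sum,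
          Prod.fst_sum, smul_zero, Finset.sum_const_zero]
        simp only [nsmul_eq_mul]
        push_cast [Nat.cast_sub hb]
        ring
      · simp only [cl, Prod.snd_add, Prod.smul_snd, Prod.snd_sum, Pi.add_apply, Pi.smul_apply,
          Finset.sum_apply, smul_zero, add_zero, Pi.single_apply]
        rw [Finset.sum_eq_single i]
        · simp only [if_true, nsmul_eq_mul]
          push_cast [Nat.cast_sub (hm i)]
          ring
        · intro j _ hj
          rw [if_neg hj.symm, smul_zero]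
        · intro h
          exact absurd (Finset.mem_univ i) h
    rw [h1]
    have g1 : ((1, 0, 0) : Cl) ∈ AddSubmonoid.closure (gens u) :=
      AddSubmonoid.subset_closure (Or.inr (Or.inl rfl))
    have g2 : ((0, 1, 0) : Cl) ∈ AddSubmonoid.closure (gens u) :=
      AddSubmonoid.subset_closure (Or.inr (Or.inr (Or.inl rfl)))
    have g3 : ∀ i, ((0, 0, Pi.single i (-1)) : Cl) ∈ AddSubmonoid.closure (gens u) := fun i =>
      AddSubmonoid.subset_closure (Or.inr (Or.inr (Or.inr ⟨i, rfl⟩)))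
    exact add_mem (add_mem (add_mem (cl_mem u f hf) (nsmul_mem g1 _)) (nsmul_mem g2 _))
      (sum_mem fun i _ => nsmul_mem (g3 i) _)
  have hQ := closure_nonneg (Q_gens hu0 hu) _ hD _ hD
  have hs := closure_sf (S := gens u) (by
    rintro y (⟨f, hf, rfl⟩ | rfl | rfl | ⟨j, rfl⟩)
    · exact sf_nonneg hu0 hu hf
    · simp [sf]
    · simp [sf]
    · simp [sf]) _ hD
  simp only [Q, Bf, sf, Finset.sum_const, Finset.card_univ, Fintype.card_fin, nsmul_eq_mul]
    at hQ hs
  push_cast at hQ hs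
  exact ⟨hs, by nlinarith⟩

open PieceAux in
/-- the basic piece: a trapezoid killed by eight points -/
theorem piece {m : ℕ} {N h s : ℤ} (hh : 1 ≤ h) (hN : h ≤ N) (hs : 2 * N = 8 * m + 3 - h + s)
    (hc : s < 0 ∨ (h - 1) * s + s ^ 2 < 2 * (h - 2 * m - 1) ^ 2) :
    Emp m (trap N h) 8 := by
  obtain ⟨u, hu0, hu1⟩ := exists_parameters
  refine ⟨fun i => (Units.mk0 (u i ^ 2) (pow_ne_zero _ (hu0 i)),
    Units.mk0 (u i ^ 3) (pow_ne_zero _ (hu0 i))), fun f hf => ?_⟩
  have hD : ∀ α ∈ trap N h, 0 ≤ α.1 ∧ 0 ≤ α.2 := by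
    intro α hα
    rw [mem_trap] at hα
    exact ⟨hα.1, hα.2.1⟩
  by_cases h0 : toPoly (trap N h) f = 0
  · exact toPoly_eq_zero hD h0
  exfalso
  obtain ⟨h1, h2⟩ := totalDegree_toPoly_trap (f := f) (hh.trans hN) hh
  obtain ⟨d, hd⟩ : ∃ d : ℕ, (d : ℤ) = N - 1 := ⟨(N - 1).toNat, by omega⟩
  obtain ⟨b, hb⟩ : ∃ b : ℕ, (b : ℤ) = h - 1 := ⟨(h - 1).toNat, by omega⟩
  have hm : ∀ i, m ≤ mlt (cusp (u i)) (toPoly (trap N h) f) := by
    intro i
    have := le_mlt_of_van hD (hf i) h0
    rw [Units.val_mk0, Units.val_mk0] at this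
    exact this
  have h3 := nine_points hu0 hu1 h0 (d := d) (b := b) (m := m) (by omega) (by omega) hm
  obtain ⟨h4, h5⟩ := h3
  rw [hd, hb] at h4 h5
  have h6 : 2 * (N - 1) + (h - 1) - 8 * (m : ℤ) = s := by linarith
  rw [h6] at h4 h5
  rcases hc with hc | hc
  · linarith
  · have h7 : 2 * (N - 1) - (h - 1) = 8 * m + 2 - 2 * h + s := by linarith
    rw [h7] at h5
    nlinarith

end Pool.Agent.Lib.MP_ed661f_ag.E
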