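import Pool.Agent.Lib.MP_ed661f_ag.E.Piece
import Pool.Agent.Lib.MP_ed661f_ag.E.Course

namespace Pool.Agent.Lib.MP_ed661f_ag.E

/-! ## T8  file SupplyEx.lean -/

/-- the admissible values of `s` in `piece` -/
private def okS (m : ℕ) (h s : ℤ) : Prop :=
  (s - (h + 1)) % 2 = 0 ∧ (s < 0 ∨ (h - 1) * s + s ^ 2 < 2 * (h - 2 * m - 1) ^ 2)

private theorem exists_greatest_okS (m : ℕ) (h : ℤ) :
    ∃ s : ℤ, 1 ≤ h → okS m h s ∧ ∀ s' : ℤ, okS m h s' → s' ≤ s := by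
  by_cases hh : 1 ≤ h
  · have hb : ∃ b : ℤ, ∀ z : ℤ, okS m h z → z ≤ b := by
      refine ⟨2 * (h - 2 * m - 1) ^ 2, fun z hz => ?_⟩
      rcases hz.2 with h1 | h1
      · nlinarith [sq_nonneg (h - 2 * m - 1)]
      · by_contra hcon
        push Not at hcon
        have h2 : 0 ≤ z := by nlinarith [sq_nonneg (h - 2 * m - 1)]
        have h3 : 0 ≤ (h - 1) * z := mul_nonneg (by linarith) h2
        have h4 : z ≤ z ^ 2 := by
          rcases h2.eq_or_lt with h5 | h5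
          · rw [← h5]; norm_num
          · nlinarith
        linarith
    have hn : ∃ z : ℤ, okS m h z := by
      rcases Int.emod_two_eq_zero_or_one h with h1 | h1
      · exact ⟨-1, by omega, Or.inl (by norm_num)⟩
      · exact ⟨-2, by omega, Or.inl (by norm_num)⟩
    obtain ⟨s, hs, hs'⟩ := Int.exists_greatest_of_bdd hb hn
    exact ⟨s, fun _ => ⟨hs, hs'⟩⟩
  · exact ⟨0, fun h1 => absurd h1 hh⟩

theorem supply_exists {m B σ : ℕ} (hB : 1 ≤ B) (h1 : 2 * B ^ 2 ≤ σ * m)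
    (h2 : (σ + 2) ^ 2 + 4 * B ≤ m) :
    ∃ F : ℤ → ℤ, Supply m (2 * m + 1 - B) (2 * m + 1 + B) F ∧
      ∀ h : ℤ, 2 * m + 1 - B ≤ h → h ≤ 2 * m + 1 + B →
        8 * m + 2 - 2 * h ≤ F h ∧ F h ≤ 8 * m + 4 - 2 * h + σ := by
  choose s hs using exists_greatest_okS m
  have hB' : (1 : ℤ) ≤ B := by exact_mod_cast hB
  have hσ : (0 : ℤ) ≤ σ := Int.natCast_nonneg σ
  have h1' : 2 * (B : ℤ) ^ 2 ≤ σ * m := by exact_mod_cast h1
  have h2' : ((σ : ℤ) + 2) ^ 2 + 4 * B ≤ m := by exact_mod_cast h2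
  have hm : (4 : ℤ) * B + 2 * σ + 4 ≤ m := by nlinarith
  -- basic facts
  have key : ∀ h : ℤ, 2 * m + 1 - B ≤ h → h ≤ 2 * m + 1 + B →
      (s h - (h + 1)) % 2 = 0 ∧
      (s h < 0 ∨ (h - 1) * s h + s h ^ 2 < 2 * (h - 2 * m - 1) ^ 2) ∧
      -2 ≤ s h ∧ 2 * (h - 2 * m - 1) ^ 2 ≤ (h - 1) * (s h + 2) + (s h + 2) ^ 2 ∧ s h ≤ σ := by
    intro h ha hb
    obtain ⟨⟨hp, hc⟩, hmax⟩ := hs h (by linarith)
    have hn : ¬ okS m h (s h + 2) := fun hc' => by
      have := hmax _ hc'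
      linarith
    have hn' : ¬ (s h + 2 < 0 ∨ (h - 1) * (s h + 2) + (s h + 2) ^ 2 <
        2 * (h - 2 * m - 1) ^ 2) := fun hc' => hn ⟨by omega, hc'⟩
    push Not at hn'
    refine ⟨hp, hc, by linarith [hn'.1], hn'.2, ?_⟩
    by_contra hcon
    push Not at hcon
    rcases hc with hc | hc
    · linarith
    · have h3 : 2 * (h - 2 * m - 1) ^ 2 ≤ 2 * (B : ℤ) ^ 2 := by
        have : (h - 2 * m - 1) ^ 2 ≤ (B : ℤ) ^ 2 := sq_le_sq' (by linarith) (by linarith)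
        linarith
      have h4 : (m : ℤ) ≤ h - 1 := by linarith
      have h5 : (m : ℤ) * s h ≤ (h - 1) * s h := mul_le_mul_of_nonneg_right h4 (by linarith)
      have h6 : (σ : ℤ) * m ≤ m * s h := by nlinarith
      nlinarith [sq_nonneg (s h)]
  refine ⟨fun h => 8 * m + 4 - 2 * h + s h, ?_, ?_⟩
  · have hN : ∀ h : ℤ, 2 * m + 1 - B ≤ h → h ≤ 2 * m + 1 + B →
        2 * ((8 * m + 4 - 2 * h + s h + h - 1) / 2) = 8 * m + 3 - h + s h := by
      intro h ha hb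
      obtain ⟨hp, -⟩ := key h ha hb
      omega
    have htr : ∀ h : ℤ, 2 * m + 1 - B ≤ h → h ≤ 2 * m + 1 + B →
        Emp m (trap ((8 * m + 4 - 2 * h + s h + h - 1) / 2) h) 8 := by
      intro h ha hb
      obtain ⟨hp, hc, hs1, -, -⟩ := key h ha hb
      exact piece (by linarith) (by have := hN h ha hb; linarith) (hN h ha hb) hc
    constructor
    · intro h ha hb
      obtain ⟨hp, hc, hs1, -, -⟩ := key h ha hb
      have h3 := rect_pair (by linarith) (by have := hN h ha hb; linarith) (htr h ha hb)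
      rw [hN h ha hb] at h3
      have h4 : 8 * (m : ℤ) + 3 - h + s h - h + 1 = 8 * m + 4 - 2 * h + s h := by ring
      rw [h4] at h3
      exact h3
    · exact htr
    · intro h ha hb
      obtain ⟨hp, -⟩ := key h ha hb
      show (8 * (m : ℤ) + 4 - 2 * h + s h + h) % 2 = 1
      omega
    · intro h ha hb
      obtain ⟨hp, hc, hs1, hs2, hs3⟩ := key h ha hb
      show 8 * (m : ℤ) ^ 2 + 3 * m ≤ h * (8 * m + 4 - 2 * h + s h)
      have h3 : (s h + 2) ^ 2 ≤ ((σ : ℤ) + 2) ^ 2 := by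
        apply sq_le_sq' <;> linarith
      have h4 : h * (8 * m + 4 - 2 * h + s h) = 8 * (m : ℤ) ^ 2 + 4 * m + 2 -
          2 * (h - 2 * m - 1) + s h - (s h + 2) ^ 2 +
          ((h - 1) * (s h + 2) + (s h + 2) ^ 2 - 2 * (h - 2 * m - 1) ^ 2) := by ring
      rw [h4]
      linarith
    · intro h ha hb
      obtain ⟨hp, hc, hs1, hs2, hs3⟩ := key h ha (by linarith)
      obtain ⟨hp', hc', hs1', hs2', hs3'⟩ := key (h + 1) (by linarith) hb
      show 8 * (m : ℤ) + 4 - 2 * h + s h ≤ 8 * m + 4 - 2 * (h + 1) + s (h + 1) + 3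
      by_contra hcon
      push Not at hcon
      have h3 : s (h + 1) + 3 ≤ s h := by omega
      have h4 : (h - 1) * s h + s h ^ 2 < 2 * (h - 2 * m - 1) ^ 2 := by
        rcases hc with hc | hc
        · linarith
        · exact hc
      have h5 : (h - 1) * (s (h + 1) + 3) ≤ (h - 1) * s h :=
        mul_le_mul_of_nonneg_left h3 (by linarith)
      have h6 : (s (h + 1) + 3) ^ 2 ≤ s h ^ 2 := by
        apply sq_le_sq' <;> linarith
      have h7 : (h + 1 - 1) * (s (h + 1) + 2) + (s (h + 1) + 2) ^ 2 + (h + (s (h + 1) + 2)) =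
          (h - 1) * (s (h + 1) + 3) + (s (h + 1) + 3) ^ 2 := by ring
      have h8 : 2 * (h + 1 - 2 * m - 1) ^ 2 - 2 * (h - 2 * m - 1) ^ 2 =
          4 * (h - 2 * m - 1) + 2 := by ring
      linarith
    · intro h ha hb
      linarith
    · intro h ha hb
      linarith
    · intro h ha hb
      obtain ⟨hp, hc, hs1, hs2, hs3⟩ := key h ha hb
      show 8 * (m : ℤ) + 4 - 2 * h + s h ≤ 7 * m
      linarith
    · intro h ha hb
      obtain ⟨hp, hc, hs1, hs2, hs3⟩ := key h ha hb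
      show h + 1 ≤ 8 * (m : ℤ) + 4 - 2 * h + s h
      linarith
  · intro h ha hb
    obtain ⟨hp, hc, hs1, hs2, hs3⟩ := key h ha hb
    constructor
    · show 8 * (m : ℤ) + 2 - 2 * h ≤ 8 * m + 4 - 2 * h + s h
      linarith
    · show 8 * (m : ℤ) + 4 - 2 * h + s h ≤ 8 * m + 4 - 2 * h + σ
      linarith

end Pool.Agent.Lib.MP_ed661f_ag.E
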