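import Pool.Agent.Lib.MP_ed661f_ag.E.Thin
import Pool.Agent.Lib.MP_ed661f_ag.E.SupplyEx

/-!
The complete schedule.
-/

namespace Pool.Agent.Lib.MP_ed661f_ag.E

/-- choice of the constants -/
theorem exists_base {m s : ℕ} (hs : 10000000 ≤ s) (hsm : s ^ 2 ≤ 2 * m)
    (hms : 5000000000000000 * m ≤ s ^ 4) :
    ∃ (B σ : ℕ) (F : ℤ → ℤ), 4000 * m ≤ B * s ∧
      ∀ e : ℤ, e ≤ 5 * (m : ℤ) ^ 2 → -(5 * (m : ℤ) ^ 2) ≤ e → Base m B σ F e := by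
  obtain ⟨B, hB⟩ : ∃ B, B = 4000 * m / s + 1 := ⟨_, rfl⟩
  have hs0 : 0 < s := by omega
  have hm0 : 0 < m := by nlinarith
  have b1 : 4000 * m ≤ B * s := by
    rw [hB]
    have := Nat.lt_div_mul_add (a := 4000 * m) hs0
    nlinarith
  have b2 : B * s ≤ 4000 * m + s := by
    rw [hB]
    have := Nat.div_mul_le_self (4000 * m) s
    nlinarith
  have hs7 : 10000000 * s ≤ 2 * m := by nlinarith
  have b3 : B * s ≤ 4001 * m := by omega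
  obtain ⟨σ, hσ⟩ : ∃ σ, σ = 2 * B ^ 2 / m + 1 := ⟨_, rfl⟩
  have c1 : 2 * B ^ 2 ≤ σ * m := by
    rw [hσ]
    have := Nat.lt_div_mul_add (a := 2 * B ^ 2) hm0
    nlinarith
  have c2 : σ * m ≤ 2 * B ^ 2 + m := by
    rw [hσ]
    have := Nat.div_mul_le_self (2 * B ^ 2) m
    nlinarith
  have d1 : 2000 * B ≤ m := by
    by_contra hcon
    rw [not_le] at hcon
    have : 10000000 * B ≤ B * s := by
      rw [mul_comm]
      exact Nat.mul_le_mul_left B hs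
    omega
  have d2 : 1000 * s ≤ B := by
    by_contra hcon
    rw [not_le] at hcon
    have : B * s ≤ 1000 * s * s := Nat.mul_le_mul_right s hcon.le
    nlinarith
  have d3 : 50 * (σ + 8) ≤ B := by
    have : m * (50 * (σ + 8)) ≤ m * B := by
      have h1 : 2000 * B * B ≤ m * B := Nat.mul_le_mul_right B d1
      have h2 : 1000 * m ≤ B * m := Nat.mul_le_mul_right m (by omega)
      nlinarith
    exact Nat.le_of_mul_le_mul_left this hm0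
  have d4 : s ^ 2 * (σ + 2) ≤ 32016008 * m := by
    have h1 : (B * s) * (B * s) ≤ 4001 * m * (4001 * m) := Nat.mul_le_mul b3 b3
    have h2 : m * (s ^ 2 * (σ + 2)) ≤ m * (32016008 * m) := by
      calc m * (s ^ 2 * (σ + 2)) = s ^ 2 * (σ * m) + 2 * m * s ^ 2 := by ring
        _ ≤ s ^ 2 * (2 * B ^ 2 + m) + 2 * m * (2 * m) := by
            exact Nat.add_le_add (Nat.mul_le_mul_left _ c2) (Nat.mul_le_mul_left _ hsm)
        _ = 2 * ((B * s) * (B * s)) + m * s ^ 2 + 2 * m * (2 * m) := by ring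
        _ ≤ 2 * (4001 * m * (4001 * m)) + m * (2 * m) + 2 * m * (2 * m) := by
            have := Nat.mul_le_mul_left m hsm
            omega
        _ = m * (32016008 * m) := by ring
    exact Nat.le_of_mul_le_mul_left h2 hm0
  have d5 : 2 * (σ + 2) ^ 2 ≤ m := by
    have h1 : (s ^ 2 * (σ + 2)) * (s ^ 2 * (σ + 2)) ≤ 32016008 * m * (32016008 * m) :=
      Nat.mul_le_mul d4 d4
    have h2 : 5000000000000000 * m * (σ + 2) ^ 2 ≤ s ^ 4 * (σ + 2) ^ 2 :=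
      Nat.mul_le_mul_right _ hms
    have h3 : m * (2 * (σ + 2) ^ 2) ≤ m * m := by nlinarith
    exact Nat.le_of_mul_le_mul_left h3 hm0
  obtain ⟨F, hS, hF⟩ := supply_exists (m := m) (B := B) (σ := σ) (by omega) c1 (by omega)
  exact ⟨B, σ, F, b1, fun e he he' => ⟨hS, hF, d3, he, he'⟩⟩

/-- the residues -/
theorem exists_residues {n s : ℕ} (hs : 10000000 ≤ s) (h1 : s ^ 2 ≤ n) :
    ∃ (w b M₁ M₂ : ℕ) (c : ℤ), -8 ≤ c ∧ c ≤ 8 ∧ 3 * w ≤ s + 3 ∧ s ≤ 3 * w + 2 ∧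
      3 * b ≤ 2 * s + 24 ∧ 2 * s ≤ 3 * b + 5 ∧
      (w : ℤ) ^ 2 + 16 * M₂ = (b : ℤ) ^ 2 + c ∧ ((b : ℤ) + 1) ^ 2 + c + 16 * M₁ = n := by
  obtain ⟨w, hw⟩ : ∃ w, w = s / 3 + (n + 1 + s / 3) % 2 := ⟨_, rfl⟩
  have w1 : 3 * w ≤ s + 3 := by omega
  have w2 : s ≤ 3 * w + 2 := by omega
  have w3 : (n + 1 + w) % 2 = 0 := by omega
  obtain ⟨W, hW⟩ : ∃ W, W = w ^ 2 := ⟨_, rfl⟩
  have w4 : (n + 1 + W) % 2 = 0 := by
    have : W % 2 = w % 2 := by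
      rw [hW, pow_two, Nat.mul_mod]
      rcases Nat.mod_two_eq_zero_or_one w with h | h <;> rw [h]
    omega
  obtain ⟨q, hq⟩ : ∃ q : ℤ, q = ((n : ℤ) + 1 - W) / 2 := ⟨_, rfl⟩
  have hq2 : 2 * q = (n : ℤ) + 1 - W := by omega
  obtain ⟨a, ha⟩ : ∃ a : ℕ, a = 2 * s / 3 + ((q - (2 * s / 3 : ℕ)) % 8).toNat := ⟨_, rfl⟩
  have a1 : ((a : ℤ) - q) % 8 = 0 := by omega
  have a2 : 3 * a ≤ 2 * s + 21 := by omega
  have a3 : 2 * s ≤ 3 * a + 2 := by omega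
  obtain ⟨b, rfl⟩ : ∃ b, a = b + 1 := ⟨a - 1, by omega⟩
  obtain ⟨b2, hb2⟩ : ∃ b2 : ℕ, b2 = b ^ 2 := ⟨_, rfl⟩
  obtain ⟨c, hc⟩ : ∃ c : ℤ, c = ((W : ℤ) - b2 + 8) % 16 - 8 := ⟨_, rfl⟩
  have hbw : W + 8 ≤ b2 := by
    rw [hW, hb2]
    nlinarith
  have hbn : b2 + 2 * b + 1 + 8 ≤ n := by
    rw [hb2]
    nlinarith
  obtain ⟨M₂, hM₂⟩ : ∃ M₂ : ℤ, M₂ = ((b2 : ℤ) + c - W) / 16 := ⟨_, rfl⟩
  obtain ⟨M₁, hM₁⟩ : ∃ M₁ : ℤ, M₁ = ((n : ℤ) - (b2 + 2 * b + 1 + c)) / 16 := ⟨_, rfl⟩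
  refine ⟨w, b, M₁.toNat, M₂.toNat, c, by omega, by omega, w1, w2, by omega, by omega, ?_, ?_⟩
  · have e1 : (w : ℤ) ^ 2 = W := by
      rw [hW]
      push_cast
      ring
    have e2 : (b : ℤ) ^ 2 = b2 := by
      rw [hb2]
      push_cast
      ring
    rw [e1, e2]
    omega
  · have e2 : ((b : ℤ) + 1) ^ 2 = b2 + 2 * b + 1 := by
      rw [hb2]
      push_cast
      ring
    rw [e2]
    omega

theorem aux_b {b s m : ℕ} (hs : 10000000 ≤ s) (hb : 3 * b ≤ 2 * s + 24) (hsm : s ^ 2 ≤ 2 * m) :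
    b ^ 2 ≤ m := by
  have h1 : 10 * b ≤ 7 * s := by omega
  have h2 : (10 * b) * (10 * b) ≤ (7 * s) * (7 * s) := Nat.mul_le_mul h1 h1
  nlinarith

theorem aux_b4 {b s m : ℕ} (hs : 10000000 ≤ s) (hb : 2 * s ≤ 3 * b + 5)
    (hms : 5000000000000000 * m ≤ s ^ 4) : 1000 * m ≤ b ^ 4 := by
  have h1 : s ≤ 2 * b := by omega
  have h2 : s ^ 4 ≤ (2 * b) ^ 4 := Nat.pow_le_pow_left h1 4
  rw [mul_pow] at h2
  omega

theorem aux_B {b s m B : ℕ} (hs : 10000000 ≤ s) (hb : 2 * s ≤ 3 * b + 5)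
    (hB : 4000 * m ≤ B * s) : 2400 * m ≤ B * b := by
  have h5 : 3 * s ≤ 5 * b := by omega
  have h6 : B * (3 * s) ≤ B * (5 * b) := Nat.mul_le_mul_left B h5
  nlinarith

theorem aux_n {n s m : ℕ} (hs : 10000000 ≤ s) (hn : n ≤ s ^ 2 + 2 * s)
    (h2 : 10000000000000000 * m ≤ n ^ 2) : 5000000000000000 * m ≤ s ^ 4 := by
  have h5 : 5 * n ≤ 6 * s ^ 2 := by nlinarith
  have h6 : (5 * n) ^ 2 ≤ (6 * s ^ 2) ^ 2 := Nat.pow_le_pow_left h5 2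
  have e1 : (5 * n) ^ 2 = 25 * n ^ 2 := by ring
  have e2 : (6 * s ^ 2) ^ 2 = 36 * s ^ 4 := by ring
  rw [e1, e2] at h6
  omega

theorem aux_e {n s b m e₁ e₂ : ℤ} (hs : 10000000 ≤ s) (hb : 3 * b ≤ 2 * s + 24) (hb0 : 0 ≤ b)
    (hsm : s ^ 2 ≤ 2 * m) (hnm : n ≤ 2 * m) (hn0 : 0 ≤ n)
    (he₁ : e₁ = -(n * m) + 48 * (s + 1) * m + 32) (he₂ : e₂ = e₁ + 1000 * (b + 1) * m) :
    e₁ ≤ 5 * m ^ 2 ∧ -(5 * m ^ 2) ≤ e₁ ∧ e₂ ≤ 5 * m ^ 2 ∧ -(5 * m ^ 2) ≤ e₂ := by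
  have hsm' : 1000000 * s ≤ m := by nlinarith
  have hm0 : 0 < m := by omega
  have k1 : n * m ≤ 2 * m * m := mul_le_mul_of_nonneg_right hnm hm0.le
  have k2 : 1000000 * s * m ≤ m * m := mul_le_mul_of_nonneg_right hsm' hm0.le
  have k5 : m ≤ s * m := by nlinarith
  have k6 : 3 * (b * m) ≤ (2 * s + 24) * m := by nlinarith
  have k7 : 0 ≤ b * m := by positivity
  have k9 : 0 ≤ n * m := by positivity
  have k8 : m ≤ m * m := by nlinarith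
  subst he₁
  subst he₂
  refine ⟨by nlinarith, by nlinarith, by nlinarith, by nlinarith⟩

theorem aux_w {n s b w m e₁ e₂ : ℤ} (hs : 10000000 ≤ s) (hb : 3 * b ≤ 2 * s + 24) (hw0 : 0 ≤ w)
    (hw : 3 * w ≤ s + 3) (hsn : s ^ 2 ≤ n) (hm0 : 0 < m)
    (he₁ : e₁ = -(n * m) + 48 * (s + 1) * m + 32) (he₂ : e₂ = e₁ + 1000 * (b + 1) * m) :
    w ^ 2 * m + e₂ ≤ 0 := by
  have h1 : 2 * w ≤ s := by omega
  have h2 : (2 * w) * (2 * w) ≤ s * s := mul_le_mul h1 h1 (by omega) (by omega)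
  have h3 : w ^ 2 + 48 * (s + 1) + 32 + 1000 * (b + 1) ≤ n := by nlinarith
  have h4 : (w ^ 2 + 48 * (s + 1) + 32 + 1000 * (b + 1)) * m ≤ n * m :=
    mul_le_mul_of_nonneg_right h3 hm0.le
  subst he₁
  subst he₂
  nlinarith

theorem aux_d {n s m d e₁ : ℤ} (hs : 0 ≤ s) (hsn : n ≤ s ^ 2 + 2 * s) (hm0 : 0 < m)
    (hd : d ^ 2 < n * m ^ 2) (he₁ : e₁ = -(n * m) + 48 * (s + 1) * m + 32) :
    16 * ((d + 1) * (d + 1 + 1)) ≤ n * (16 * m ^ 2 + m) + e₁ := by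
  have h5 : d ^ 2 < ((s + 1) * m) ^ 2 := by
    have : n * m ^ 2 ≤ (s ^ 2 + 2 * s) * m ^ 2 := mul_le_mul_of_nonneg_right hsn (by positivity)
    have h6 : 0 < m ^ 2 := by positivity
    nlinarith
  have h6 : d < (s + 1) * m := lt_of_pow_lt_pow_left₀ 2 (by positivity) h5
  subst he₁
  nlinarith

/-- **uniform emptiness**: for `n` large and `n / 2 ≤ m ≤ n ^ 2 / C`, curves of degree `d` with
`d ^ 2 < n m ^ 2` do not have `n` points of multiplicity `m`, for some choice of the points -/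
theorem emp_main {n m d : ℕ} (hn : 100000000000000 ≤ n) (h1 : n ≤ 2 * m)
    (h2 : 10000000000000000 * m ≤ n ^ 2) (h3 : d ^ 2 < n * m ^ 2) :
    Emp m (trap (d + 1) (d + 1)) n := by
  obtain ⟨s, hs⟩ : ∃ s, s = Nat.sqrt n := ⟨_, rfl⟩
  have s1 : s ^ 2 ≤ n := by
    rw [hs]
    exact Nat.sqrt_le' n
  have s2 : n ≤ s ^ 2 + 2 * s := by
    have h4 := Nat.sqrt_le_add n
    rw [← hs] at h4
    rw [pow_two]
    omega
  have s3 : 10000000 ≤ s := by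
    rw [hs, Nat.le_sqrt]
    omega
  have s4 : s ^ 2 ≤ 2 * m := s1.trans h1
  have s5 : 5000000000000000 * m ≤ s ^ 4 := aux_n s3 s2 h2
  obtain ⟨B, σ, F, hB, hbase⟩ := exists_base s3 s4 s5
  obtain ⟨w, b, M₁, M₂, c, c1, c2, w1, w2, b1, b2, hM₂, hM₁⟩ := exists_residues s3 s1
  have hbm := aux_b s3 b1 s4
  have hmb := aux_b4 s3 b2 s5
  have hBb := aux_B s3 b2 hB
  have hm0 : 0 < m := by omega
  obtain ⟨e₁, he₁⟩ : ∃ e₁ : ℤ, e₁ = -((n : ℤ) * m) + 48 * (s + 1) * m + 32 := ⟨_, rfl⟩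
  obtain ⟨e₂, he₂⟩ : ∃ e₂ : ℤ, e₂ = e₁ + 1000 * (b + 1) * m := ⟨_, rfl⟩
  obtain ⟨l1, l2, l3, l4⟩ := aux_e (n := n) (s := s) (b := b) (m := m) (e₁ := e₁) (e₂ := e₂)
    (by exact_mod_cast s3) (by exact_mod_cast b1) (by positivity) (by exact_mod_cast s4)
    (by exact_mod_cast h1) (by positivity) he₁ he₂
  have S₁ : Base m B σ F e₁ := hbase e₁ l1 l2
  have S₂ : Base m B σ F e₂ := hbase e₂ l3 l4
  -- the top triangle
  have g0 : Good m e₂ ((w : ℤ) ^ 2) (w ^ 2) :=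
    top (by omega) (aux_w (n := n) (s := s) (b := b) (m := m) (w := w) (e₁ := e₁) (e₂ := e₂)
      (by exact_mod_cast s3) (by exact_mod_cast b1) (by positivity) (by exact_mod_cast w1)
      (by exact_mod_cast s1) (by exact_mod_cast hm0) he₁ he₂)
  -- the lower segment
  have g1 := segment S₂ (s := b) (t := w) (M := M₂) (z := (w : ℤ) ^ 2) (j := w ^ 2) (by omega)
    (by omega) (by omega) (by omega) (by omega) (by omega) (by omega) (by omega) hBb g0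
  rw [hM₂] at g1
  -- the strip
  have g2 : Good m e₁ (((b : ℤ) + 1) ^ 2 + c) (w ^ 2 + 16 * M₂ + (2 * b + 1)) :=
    thin (by omega) c2 c1 hbm hmb S₁.he S₁.he' (by rw [← he₂]; exact g1)
  -- the upper segment
  have hBs : 2400 * m ≤ B * s := by omega
  have e3 : ((b : ℤ) + 1) ^ 2 = ((b + 1 : ℕ) : ℤ) ^ 2 := by push_cast; ring
  rw [e3] at g2 hM₁
  have s1' : (s : ℤ) ^ 2 ≤ n := by exact_mod_cast s1
  have s2' : (n : ℤ) ≤ s ^ 2 + 2 * s := by exact_mod_cast s2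
  have g3 := segment S₁ (s := s) (t := b + 1) (M := M₁) (z := ((b + 1 : ℕ) : ℤ) ^ 2 + c)
    (j := w ^ 2 + 16 * M₂ + (2 * b + 1)) (by omega) (by omega) (by omega) (by omega)
    (by omega) (by omega) (by omega) s4 hBs g2
  rw [hM₁] at g3
  have hj : w ^ 2 + 16 * M₂ + (2 * b + 1) + 16 * M₁ = n := by
    have e5 : ((b + 1 : ℕ) : ℤ) ^ 2 = (b : ℤ) ^ 2 + 2 * b + 1 := by push_cast; ring
    have e4 : (w : ℤ) ^ 2 + 16 * M₂ + (2 * b + 1) + 16 * M₁ = n := by linarith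
    exact_mod_cast e4
  rw [hj] at g3
  exact g3 _ (aux_d (n := n) (s := s) (m := m) (d := d) (by positivity) s2'
    (by exact_mod_cast hm0) (by exact_mod_cast h3) he₁)

end Pool.Agent.Lib.MP_ed661f_ag.E
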