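import Pool.Agent.Lib.MP_ed661f_ag.E.Course

/-!
One double strip of `16 G` points.
-/

namespace Pool.Agent.Lib.MP_ed661f_ag.E

/-- all triangles with at most `z (m ^ 2 + m / 16) + e / 16` for twice the number of cells are
killed by `j` points -/
def Good (m : ℕ) (e z : ℤ) (j : ℕ) : Prop :=
  ∀ N : ℤ, 16 * (N * (N + 1)) ≤ z * (16 * (m : ℤ) ^ 2 + m) + e → Emp m (trap N N) j

theorem exists_max (X : ℤ) (hX : 0 ≤ X) :
    ∃ N : ℤ, 0 ≤ N ∧ 16 * (N * (N + 1)) ≤ X ∧ X < 16 * ((N + 1) * (N + 2)) ∧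
      ∀ M : ℤ, 16 * (M * (M + 1)) ≤ X → M ≤ N := by
  classical
  have h : ∃ n : ℕ, X < 16 * (((n : ℤ) + 1) * (n + 2)) := by
    refine ⟨X.toNat, ?_⟩
    have : (X.toNat : ℤ) = X := Int.toNat_of_nonneg hX
    rw [this]
    nlinarith
  have h1 := Nat.find_spec h
  refine ⟨Nat.find h, by positivity, ?_, h1, ?_⟩
  · rcases Nat.eq_zero_or_pos (Nat.find h) with h2 | h2
    · rw [h2]
      simpa using hX
    · have h3 := Nat.find_min h (m := Nat.find h - 1) (by omega)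
      rw [not_lt] at h3
      have h4 : ((Nat.find h - 1 : ℕ) : ℤ) = (Nat.find h : ℤ) - 1 := by
        push_cast [Nat.cast_sub h2]
        ring
      rw [h4] at h3
      have e1 : (Nat.find h : ℤ) - 1 + 1 = Nat.find h := by ring
      have e2 : (Nat.find h : ℤ) - 1 + 2 = Nat.find h + 1 := by ring
      rw [e1, e2] at h3
      exact h3
  · intro M hM
    by_contra hcon
    rw [not_le] at hcon
    have h5 : ((Nat.find h : ℤ) + 1) * (Nat.find h + 2) ≤ M * (M + 1) := by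
      have : (0 : ℤ) ≤ Nat.find h := by positivity
      nlinarith
    omega

/-- a horizontal cut -/
theorem cut_trap {m j₁ j₂ : ℕ} {N H : ℤ} (h₁ : Emp m (trap N H) j₁)
    (h₂ : Emp m (trap (N - H) (N - H)) j₂) : Emp m (trap N N) (j₁ + j₂) := by
  classical
  have e' : Emp m ((trap N N).filter fun α => H ≤ α.2) j₂ := by
    refine h₂.translate (0, H) ?_
    intro α hα
    rw [Finset.mem_filter, mem_trap] at hα
    rw [mem_trap]
    simp only [Prod.fst_sub, Prod.snd_sub]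
    omega
  have g := h₁.cut e' 0 1 (by
    intro α hα β hβ
    rw [mem_trap] at hα
    rw [Finset.mem_filter] at hβ
    omega)
  refine g.mono ?_
  intro α hα
  rw [Finset.mem_union, Finset.mem_filter]
  by_cases h1 : α.2 < H
  · left
    rw [mem_trap] at hα ⊢
    omega
  · right
    exact ⟨hα, by omega⟩

theorem num_up {y Z m z e N D : ℤ} (hD : 0 ≤ D) (hy : 0 ≤ y) (hm : 1 ≤ m) (h1 : y ^ 2 + Z ≤ 5 * m)
    (hz : z ≤ y ^ 2 + Z) (he : e ≤ 5 * m ^ 2) (hZ : Z + 1 ≤ 2 * D * y)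
    (hN : 16 * (N * (N + 1)) ≤ z * (16 * m ^ 2 + m) + e) : N ≤ (y + D) * m := by
  by_contra hcon
  rw [not_le] at hcon
  have h2 : 0 ≤ (y + D) * m := by positivity
  have h3 : ((y + D) * m) * ((y + D) * m) ≤ N * (N + 1) := by nlinarith
  have h4 : z * (16 * m ^ 2 + m) ≤ (y ^ 2 + Z) * (16 * m ^ 2 + m) :=
    mul_le_mul_of_nonneg_right hz (by positivity)
  have h5 : (y ^ 2 + Z) * m ≤ 5 * m * m := mul_le_mul_of_nonneg_right h1 (by omega)
  have h6 : (Z + 1) * m ^ 2 ≤ 2 * D * y * m ^ 2 := mul_le_mul_of_nonneg_right hZ (by positivity)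
  have h7 : 0 ≤ D ^ 2 * m ^ 2 := by positivity
  have h8 : 0 < m ^ 2 := by positivity
  nlinarith

theorem num_low {y Z m z e N D : ℤ} (hm : 1 ≤ m) (hz0 : 0 ≤ z)
    (hz : y ^ 2 - Z ≤ z) (he : -(5 * m ^ 2) ≤ e) (hZ : Z + 1 + D ^ 2 ≤ 2 * D * y) (hN0 : 0 ≤ N)
    (hN : z * (16 * m ^ 2 + m) + e < 16 * ((N + 1) * (N + 2))) : (y - D) * m ≤ N + 1 := by
  by_contra hcon
  rw [not_le] at hcon
  have h3 : (N + 1) * (N + 2) ≤ ((y - D) * m) * ((y - D) * m) := by nlinarith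
  have h4 : (y ^ 2 - Z) * (16 * m ^ 2) ≤ z * (16 * m ^ 2) :=
    mul_le_mul_of_nonneg_right hz (by positivity)
  have h5 : 0 ≤ z * m := mul_nonneg hz0 (by omega)
  have h6 : (Z + 1 + D ^ 2) * m ^ 2 ≤ 2 * D * y * m ^ 2 :=
    mul_le_mul_of_nonneg_right hZ (by positivity)
  have h8 : 0 < m ^ 2 := by positivity
  nlinarith

/-- existence of the last height for which a condition holds -/
theorem exists_last_int (P : ℤ → Prop) (lo hi : ℤ) (hlh : lo ≤ hi) (h0 : P lo) (h1 : ¬ P hi) :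
    ∃ h, lo ≤ h ∧ h < hi ∧ P h ∧ ¬ P (h + 1) := by
  obtain ⟨q, hq, hP, hor⟩ := exists_last (fun q : ℕ => P (lo + q)) (hi - lo).toNat (by simpa using h0)
  have e1 : ((hi - lo).toNat : ℤ) = hi - lo := Int.toNat_of_nonneg (by omega)
  rcases hor with h | h
  · exfalso
    apply h1
    have : lo + (q : ℤ) = hi := by
      rw [h, e1]
      ring
    rwa [this] at hP
  · have hne : q ≠ (hi - lo).toNat := by
      rintro rfl
      apply h1
      have : lo + ((hi - lo).toNat : ℤ) = hi := by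
        rw [e1]
        ring
      rwa [this] at hP
    refine ⟨lo + q, by omega, by omega, hP, ?_⟩
    have : lo + (q : ℤ) + 1 = lo + ((q + 1 : ℕ) : ℤ) := by
      push_cast
      ring
    rwa [this]

theorem num_H {G m N N' e z : ℤ} (hG : 1000 ≤ G) (hm : G ^ 2 ≤ m)
    (hN : (2 * G + 2 - 61) * m ≤ N + 1) (hN' : (2 * G - 2 - 61) * m ≤ N' + 1)
    (uN : N ≤ (2 * G + 2 + 61) * m) (uN' : N' ≤ (2 * G - 2 + 61) * m)
    (a1 : 16 * (N * (N + 1)) ≤ z * (16 * m ^ 2 + m) + e)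
    (a2 : z * (16 * m ^ 2 + m) + e < 16 * ((N + 1) * (N + 2)))
    (b1 : 16 * (N' * (N' + 1)) ≤ (z - 16 * G) * (16 * m ^ 2 + m) + e)
    (b2 : (z - 16 * G) * (16 * m ^ 2 + m) + e < 16 * ((N' + 1) * (N' + 2))) :
    (N - N') * (N + N' + 1) ≤ G * (16 * m ^ 2 + m) + 2 * (N' + 1) ∧
      (N - N' - 4 * m) * G ≤ 130 * m ∧ -(130 * m) ≤ (N - N' - 4 * m) * G := by
  have hm0 : 0 < m := by nlinarith
  have k1 : (N - N') * (N + N' + 1) ≤ G * (16 * m ^ 2 + m) + 2 * (N' + 1) := by nlinarith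
  have k2 : G * (16 * m ^ 2 + m) - 2 * (N + 1) ≤ (N - N') * (N + N' + 1) := by nlinarith
  have hGm : G * m ≤ m ^ 2 := by nlinarith
  have s1 : (4 * G - 122) * m - 3 ≤ N + N' + 1 := by nlinarith
  have s2 : N + N' + 1 ≤ (4 * G + 122) * m + 1 := by nlinarith
  have hs0 : 0 ≤ (4 * G - 122) * m - 3 := by nlinarith
  refine ⟨k1, ?_, ?_⟩
  · by_contra hcon
    rw [not_le] at hcon
    have t1 : 4 * m * G + 130 * m ≤ (N - N') * G := by nlinarith
    have t2 : (4 * m * G + 130 * m) * ((4 * G - 122) * m - 3) ≤ ((N - N') * G) * (N + N' + 1) :=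
      mul_le_mul t1 s1 hs0 (by nlinarith)
    have t3 : (N - N') * (N + N' + 1) * G ≤ (G * (16 * m ^ 2 + m) + 2 * (N' + 1)) * G :=
      mul_le_mul_of_nonneg_right k1 (by omega)
    have t4 : N' * G ≤ (2 * G - 2 + 61) * m * G := mul_le_mul_of_nonneg_right uN' (by omega)
    have t5 : G * m * G ≤ m ^ 2 := by nlinarith
    have t6 : G * m ≤ G * m ^ 2 := by nlinarith
    nlinarith
  · by_contra hcon
    rw [not_le] at hcon
    have t1 : (N - N') * G ≤ 4 * m * G - 130 * m := by nlinarith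
    have t2 : ((N - N') * G) * (N + N' + 1) ≤ (4 * m * G - 130 * m) * (N + N' + 1) :=
      mul_le_mul_of_nonneg_right t1 (by omega)
    have t2' : (4 * m * G - 130 * m) * (N + N' + 1) ≤
        (4 * m * G - 130 * m) * ((4 * G + 122) * m + 1) :=
      mul_le_mul_of_nonneg_left s2 (by nlinarith)
    have t3 : (G * (16 * m ^ 2 + m) - 2 * (N + 1)) * G ≤ (N - N') * (N + N' + 1) * G :=
      mul_le_mul_of_nonneg_right k2 (by omega)
    have t4 : N * G ≤ (2 * G + 2 + 61) * m * G := mul_le_mul_of_nonneg_right uN (by omega)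
    have t5 : G * m * G ≤ m ^ 2 := by nlinarith
    nlinarith

end Pool.Agent.Lib.MP_ed661f_ag.E
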