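import Pool.Agent.Lib.MP_ed661f_ag.E.Step

/-!
One double strip of `16 G` points.
-/

namespace Pool.Agent.Lib.MP_ed661f_ag.E

/-- the data that are common to all double strips -/
structure Base (m B σ : ℕ) (F : ℤ → ℤ) (e : ℤ) : Prop where
  S : Supply m (2 * m + 1 - B) (2 * m + 1 + B) F
  hF : ∀ h : ℤ, 2 * m + 1 - B ≤ h → h ≤ 2 * m + 1 + B →
        8 * m + 2 - 2 * h ≤ F h ∧ F h ≤ 8 * m + 4 - 2 * h + σ
  hσ : 50 * (σ + 8) ≤ B
  he : e ≤ 5 * (m : ℤ) ^ 2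
  he' : -(5 * (m : ℤ) ^ 2) ≤ e

/-- the first course can be built: existence of its height -/
theorem exists_height {m B σ : ℕ} {F : ℤ → ℤ} {e : ℤ} (S : Base m B σ F e) {G p : ℕ} {N : ℤ}
    (hG : 1000 ≤ G) (hm0 : 1 ≤ m) (hBG : 400 * m ≤ B * G) (hp1 : 2 * p ≤ G) (hp2 : G ≤ 2 * p + 1)
    (uN : N ≤ (2 * G + 63) * m) (lN : (2 * G - 59) * m ≤ N + 1) :
    ∃ h₁ : ℤ, 2 * m + 1 - B ≤ h₁ ∧ h₁ < 2 * m + 1 + B ∧
      N ≤ p * F h₁ + (F h₁ + h₁ - 1) / 2 ∧
      p * F (h₁ + 1) + (F (h₁ + 1) + h₁) / 2 < N := by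
  have hσ := S.hσ
  have hBG' : (400 : ℤ) * m ≤ B * G := by exact_mod_cast hBG
  have hG' : (1000 : ℤ) ≤ G := by exact_mod_cast hG
  have hm0' : (1 : ℤ) ≤ m := by exact_mod_cast hm0
  have hp1' : (2 : ℤ) * p ≤ G := by exact_mod_cast hp1
  have hp2' : (G : ℤ) ≤ 2 * p + 1 := by exact_mod_cast hp2
  have hσ' : (50 : ℤ) * (σ + 8) ≤ B := by exact_mod_cast hσ
  have a1 : ((G : ℤ) - 1) * m ≤ 2 * p * m := mul_le_mul_of_nonneg_right (by omega) (by omega)
  have a2 : ((G : ℤ) - 1) * B ≤ 2 * p * B := mul_le_mul_of_nonneg_right (by omega) (by omega)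
  have a3 : (2 : ℤ) * p * m ≤ G * m := mul_le_mul_of_nonneg_right (by omega) (by omega)
  have a4 : (1000 : ℤ) * B ≤ G * B := mul_le_mul_of_nonneg_right hG' (by omega)
  obtain ⟨h, b1, b2, b3, b4⟩ := exists_last_int
    (fun h => N ≤ p * F h + (F h + h - 1) / 2) (2 * m + 1 - B) (2 * m + 1 + B) (by omega)
    (by
      have f1 := (S.hF (2 * m + 1 - B) le_rfl (by omega)).1
      have f2 : (p : ℤ) * (4 * m + 2 * B) ≤ p * F (2 * m + 1 - B) :=
        mul_le_mul_of_nonneg_left (by omega) (by omega)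
      have f3 : 3 * (m : ℤ) ≤ (F (2 * m + 1 - B) + (2 * m + 1 - B) - 1) / 2 := by omega
      have f4 : N ≤ p * (4 * m + 2 * B) + 3 * m := by nlinarith
      show N ≤ p * F (2 * m + 1 - B) + (F (2 * m + 1 - B) + (2 * m + 1 - B) - 1) / 2
      omega)
    (by
      have f1 := (S.hF (2 * m + 1 + B) (by omega) le_rfl).2
      have f2 : (p : ℤ) * F (2 * m + 1 + B) ≤ p * (4 * m + 2 - 2 * B + σ) :=
        mul_le_mul_of_nonneg_left (by omega) (by omega)
      have f3 : (F (2 * m + 1 + B) + (2 * m + 1 + B) - 1) / 2 ≤ 3 * (m : ℤ) + 1 := by omega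
      have f5 : (p : ℤ) * (50 * (4 * m + 2 - 2 * B + σ)) ≤ p * (200 * m - 99 * B) :=
        mul_le_mul_of_nonneg_left (by omega) (by omega)
      have f4 : p * (4 * m + 2 - 2 * B + σ) + 3 * m + 1 < N := by nlinarith
      show ¬ (N ≤ p * F (2 * m + 1 + B) + (F (2 * m + 1 + B) + (2 * m + 1 + B) - 1) / 2)
      omega)
  refine ⟨h, b1, b2, b3, ?_⟩
  have e1 : F (h + 1) + (h + 1) - 1 = F (h + 1) + h := by ring
  rw [not_le, e1] at b4
  exact b4

/-- bounds for the height of the first course -/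
theorem height_bounds {m B σ : ℕ} {F : ℤ → ℤ} {e : ℤ} (S : Base m B σ F e) {G p : ℕ} {N h₁ : ℤ}
    (hG : 1000 ≤ G) (hm0 : 1 ≤ m) (hp1 : 2 * p ≤ G)
    (hp2 : G ≤ 2 * p + 1) (uN : N ≤ (2 * G + 63) * m) (lN : (2 * G - 59) * m ≤ N + 1)
    (b1 : 2 * m + 1 - B ≤ h₁) (b2 : h₁ < 2 * m + 1 + B)
    (b3 : N ≤ p * F h₁ + (F h₁ + h₁ - 1) / 2)
    (b4 : p * F (h₁ + 1) + (F (h₁ + 1) + h₁) / 2 < N) :
    (h₁ - 2 * m - 1) * G ≤ 65 * m + (σ + 2) * G ∧
      -(65 * m + 2 * G) ≤ (h₁ - 2 * m - 1) * G := by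
  have hG' : (1000 : ℤ) ≤ G := by exact_mod_cast hG
  have hm0' : (1 : ℤ) ≤ m := by exact_mod_cast hm0
  have hp1' : (2 : ℤ) * p ≤ G := by exact_mod_cast hp1
  have hp2' : (G : ℤ) ≤ 2 * p + 1 := by exact_mod_cast hp2
  have a1 : ((G : ℤ) - 1) * m ≤ 2 * p * m := mul_le_mul_of_nonneg_right (by omega) (by omega)
  have a3 : (2 : ℤ) * p * m ≤ G * m := mul_le_mul_of_nonneg_right (by omega) (by omega)
  obtain ⟨β, hβ⟩ : ∃ β : ℤ, β = h₁ - 2 * m - 1 := ⟨_, rfl⟩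
  obtain rfl : h₁ = 2 * m + 1 + β := by omega
  have e0 : (2 : ℤ) * m + 1 + β - 2 * m - 1 = β := by ring
  rw [e0]
  have f1 := (S.hF (2 * m + 1 + β) b1 (by omega)).2
  have f2 := (S.hF (2 * m + 1 + β + 1) (by omega) (by omega)).1
  constructor
  · have g1 : (p : ℤ) * F (2 * m + 1 + β) ≤ p * (4 * m + 2 - 2 * β + σ) :=
      mul_le_mul_of_nonneg_left (by omega) (by omega)
    have g2 : 2 * N ≤ 2 * (p * (4 * m + 2 - 2 * β + σ)) + (6 * m + 2 - β + σ) := by omega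
    have g3 : β * (4 * p + 1) ≤ 124 * m + 4 * p + 2 * p * σ + σ + 4 := by nlinarith
    by_contra hcon
    rw [not_le] at hcon
    have hβ0 : 0 < β := by
      by_contra h
      rw [not_lt] at h
      have : β * G ≤ 0 := mul_nonpos_of_nonpos_of_nonneg h (by omega)
      have h2 : (0 : ℤ) ≤ (σ + 2) * G := by positivity
      omega
    have g4 : β * (2 * G - 1) ≤ β * (4 * p + 1) := mul_le_mul_of_nonneg_left (by omega) hβ0.le
    have g5 : (2 : ℤ) * p * σ ≤ G * σ := mul_le_mul_of_nonneg_right (by omega) (by omega)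
    have g6 : (σ : ℤ) * 1000 ≤ σ * G := mul_le_mul_of_nonneg_left hG' (by omega)
    have g7 : β * 1000 ≤ β * G := mul_le_mul_of_nonneg_left hG' (by omega)
    nlinarith
  · have g1 : (p : ℤ) * (4 * m - 2 - 2 * β) ≤ p * F (2 * m + 1 + β + 1) :=
      mul_le_mul_of_nonneg_left (by omega) (by omega)
    have g2 : 2 * (p * (4 * m - 2 - 2 * β)) + (6 * m - 2 - β) ≤ 2 * N := by omega
    have g3 : -(124 * m + 4 * p + 4 : ℤ) ≤ β * (4 * p + 1) := by nlinarith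
    by_contra hcon
    rw [not_le] at hcon
    have hβ0 : β < 0 := by
      by_contra h
      rw [not_lt] at h
      have : 0 ≤ β * G := mul_nonneg h (by omega)
      omega
    have g4 : β * (4 * p + 1) ≤ β * (2 * G - 1) := mul_le_mul_of_nonpos_left (by omega) hβ0.le
    have g7 : β * G ≤ β * 1000 := mul_le_mul_of_nonpos_left hG' (by omega)
    nlinarith

/-- one double strip -/
theorem step {m B σ : ℕ} {F : ℤ → ℤ} {e : ℤ} (S : Base m B σ F e) {G : ℕ} {z : ℤ} {j : ℕ}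
    (hG : 1000 ≤ G) (hm : G ^ 2 ≤ m) (hBG : 400 * m ≤ B * G)
    (hz : z ≤ (2 * G + 2) ^ 2 + 240 * G) (hz' : (2 * G + 2) ^ 2 - 240 * G ≤ z)
    (h : Good m e (z - 16 * G) j) : Good m e z (j + 16 * G) := by
  have hG' : (1000 : ℤ) ≤ G := by exact_mod_cast hG
  have hm' : (G : ℤ) ^ 2 ≤ m := by exact_mod_cast hm
  have hm0' : (1 : ℤ) ≤ m := by nlinarith
  have hm0 : 1 ≤ m := by exact_mod_cast hm0'
  have hGm : 1000 * (G : ℤ) ≤ m := by nlinarith
  have hz0 : 0 ≤ z - 16 * G := by nlinarith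
  have hK0 : (0 : ℤ) ≤ 16 * (m : ℤ) ^ 2 + m := by positivity
  have he := S.he
  have he' := S.he'
  have hX' : 0 ≤ (z - 16 * G) * (16 * (m : ℤ) ^ 2 + m) + e := by
    have h1 : 1 * (16 * (m : ℤ) ^ 2 + m) ≤ (z - 16 * G) * (16 * (m : ℤ) ^ 2 + m) :=
      mul_le_mul_of_nonneg_right (by nlinarith) hK0
    nlinarith
  have hX : 0 ≤ z * (16 * (m : ℤ) ^ 2 + m) + e := by
    have h1 : (z - 16 * G) * (16 * (m : ℤ) ^ 2 + m) ≤ z * (16 * (m : ℤ) ^ 2 + m) :=
      mul_le_mul_of_nonneg_right (by omega) hK0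
    omega
  obtain ⟨N, hN0, a1, a2, a3⟩ := exists_max _ hX
  obtain ⟨N', hN0', b1, b2, b3⟩ := exists_max _ hX'
  have uN : N ≤ (2 * G + 2 + 61) * m :=
    num_up (Z := 240 * G) (by norm_num) (by omega) hm0' (by nlinarith) hz he (by omega) a1
  have lN : (2 * G + 2 - 61) * m ≤ N + 1 :=
    num_low (Z := 240 * G) hm0' (by omega) hz' he' (by omega) hN0 a2
  have uN' : N' ≤ (2 * G - 2 + 61) * m :=
    num_up (Z := 240 * G) (by norm_num) (by omega) hm0' (by nlinarith) (by nlinarith) he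
      (by omega) b1
  have lN' : (2 * G - 2 - 61) * m ≤ N' + 1 :=
    num_low (Z := 240 * G) hm0' hz0 (by nlinarith) he' (by omega) hN0' b2
  obtain ⟨k1, k2, k3⟩ := num_H hG' hm' lN lN' uN uN' a1 a2 b1 b2
  obtain ⟨h₁, c1, c2, c3, c4⟩ := exists_height S (p := G / 2) (N := N) hG hm0 hBG (by omega) (by omega)
    (by linarith) (by linarith)
  obtain ⟨d1, d2⟩ := height_bounds S (p := G / 2) (N := N) hG hm0 (by omega) (by omega)
    (by linarith) (by linarith) c1 c2 c3 c4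
  have hσ' : (50 : ℤ) * (σ + 8) ≤ B := by exact_mod_cast S.hσ
  have hBG' : (400 : ℤ) * m ≤ B * G := by exact_mod_cast hBG
  have hG0 : (0 : ℤ) < G := by omega
  have q1 : (50 : ℤ) * (σ + 8) * G ≤ B * G := mul_le_mul_of_nonneg_right hσ' hG0.le
  -- the second height
  have r1 : -(B : ℤ) ≤ (N - N' - 4 * m) - 3 - (h₁ - 2 * m - 1) := by
    by_contra hcon
    rw [not_le] at hcon
    have : ((N - N' - 4 * m) - 3 - (h₁ - 2 * m - 1)) * G ≤ -(B : ℤ) * G :=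
      mul_le_mul_of_nonneg_right hcon.le hG0.le
    nlinarith
  have r2 : (N - N' - 4 * m) - 3 - (h₁ - 2 * m - 1) ≤ B - 1 := by
    by_contra hcon
    rw [not_le] at hcon
    have : (B - 1 : ℤ) * G ≤ ((N - N' - 4 * m) - 3 - (h₁ - 2 * m - 1)) * G :=
      mul_le_mul_of_nonneg_right hcon.le hG0.le
    nlinarith
  have hstrip : Emp m (trap N (N - N')) (16 * (G / 2 + (G - 1 - G / 2) + 1)) := by
    refine double_strip S.S (G / 2) (G - 1 - G / 2) c1 (by omega) c3 c4 (by omega) (by omega) ?_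
    have hp : (((G / 2 : ℕ) : ℤ) + ((G - 1 - G / 2 : ℕ) : ℤ) + 1) = G := by
      have : G / 2 + (G - 1 - G / 2) + 1 = G := by omega
      exact_mod_cast this
    rw [hp]
    nlinarith
  have hpG : G / 2 + (G - 1 - G / 2) + 1 = G := by omega
  rw [hpG] at hstrip
  have hN' : Emp m (trap (N - (N - N')) (N - (N - N'))) j := by
    have : N - (N - N') = N' := by ring
    rw [this]
    exact h N' b1
  have hfin := cut_trap hstrip hN'
  intro M hM
  have hMN := a3 M hM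
  refine (hfin.mono ?_).mono_right (by omega)
  intro α hα
  rw [mem_trap] at hα ⊢
  omega

end Pool.Agent.Lib.MP_ed661f_ag.E
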