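import Pool.Agent.Lib.MP_ed661f_ag.E.Mlt
import Pool.Agent.Lib.MP_ed661f_ag.E.Van

/-!
# T6: pieces that are killed by points of a rational curve `y = x^a`
-/

open MvPolynomial

namespace Pool.Agent.Lib.MP_ed661f_ag.E

namespace Strip

/-- the polynomial `Y - X^a` -/
noncomputable def cur (a : ℕ) : MvPolynomial (Fin 2) ℂ := X 1 - X 0 ^ a

theorem coeff_cur_zero {a : ℕ} (ha : 1 ≤ a) : coeff (Finsupp.single 0 a) (cur a) ≠ 0 := by
  have h1 : (Finsupp.single 1 1 : Fin 2 →₀ ℕ) ≠ Finsupp.single 0 a := by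
    intro h
    have := DFunLike.congr_fun h 0
    simp at this
    omega
  simp [cur, coeff_X, coeff_X_pow, h1]

theorem coeff_cur_one (a : ℕ) : coeff (Finsupp.single 1 1) (cur a) ≠ 0 := by
  have h1 : (Finsupp.single 0 a : Fin 2 →₀ ℕ) ≠ Finsupp.single 1 1 := by
    intro h
    have := DFunLike.congr_fun h 1
    simp at this
  simp [cur, coeff_X, coeff_X_pow, h1]

theorem cur_ne_zero (a : ℕ) : cur a ≠ 0 := by
  intro h
  apply coeff_cur_one a
  rw [h]; simp

theorem le_totalDegree_cur {a : ℕ} (ha : 1 ≤ a) : a ≤ (cur a).totalDegree := by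
  have h := le_totalDegree (mem_support_iff.mpr (coeff_cur_zero ha))
  simpa using h

theorem le_degreeOf_cur (a : ℕ) : 1 ≤ (cur a).degreeOf 1 := by
  have h := monomial_le_degreeOf 1 (mem_support_iff.mpr (coeff_cur_one a))
  simpa using h

theorem pderiv_cur (a : ℕ) : pderiv 1 (cur a) = 1 := by
  simp [cur, Derivation.leibniz_pow]

theorem mlt_cur_le (a : ℕ) (p : Fin 2 → ℂ) : mlt p (cur a) ≤ 1 := by
  have h := mlt_pderiv (p := p) (f := cur a) 1 (by rw [pderiv_cur]; exact one_ne_zero)
  rw [pderiv_cur, mlt_unit isUnit_one] at h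
  simpa using h

theorem cur_dvd {a : ℕ} {P : MvPolynomial (Fin 2) ℂ}
    (h : aeval (![Polynomial.X, Polynomial.X ^ a] : Fin 2 → Polynomial ℂ) P = 0) : cur a ∣ P := by
  have key : (Ideal.Quotient.mkₐ ℂ (Ideal.span {cur a})) =
      (Ideal.Quotient.mkₐ ℂ (Ideal.span {cur a})).comp
        ((Polynomial.aeval (X 0 : MvPolynomial (Fin 2) ℂ)).comp
          (aeval (![Polynomial.X, Polynomial.X ^ a] : Fin 2 → Polynomial ℂ))) := by
    apply MvPolynomial.algHom_ext
    intro i
    fin_cases i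
    · simp
    · simp only [Fin.mk_one, Ideal.Quotient.mkₐ_eq_mk, AlgHom.comp_apply, aeval_X,
        Matrix.cons_val_one, Matrix.cons_val_fin_one, map_pow, Polynomial.aeval_X]
      rw [← map_pow, Ideal.Quotient.eq, Ideal.mem_span_singleton]
      exact dvd_refl _
  have h2 := DFunLike.congr_fun key P
  simp only [AlgHom.comp_apply, h, map_zero] at h2
  rw [Ideal.Quotient.mkₐ_eq_mk, Ideal.Quotient.eq_zero_iff_mem, Ideal.mem_span_singleton] at h2
  exact h2

theorem term_eq (c : ℂ) (i j : ℕ) : (C c * X 0 ^ i * X 1 ^ j : MvPolynomial (Fin 2) ℂ) =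
    monomial (Finsupp.single 0 i + Finsupp.single 1 j) c := by
  rw [X_pow_eq_monomial, X_pow_eq_monomial, C_mul_monomial, monomial_mul]
  simp

theorem toPoly_coeff {N h : ℤ} {Q : MvPolynomial (Fin 2) ℂ}
    (hQ : ∀ e ∈ Q.support, ((e 0 : ℕ) : ℤ) + (e 1 : ℕ) < N ∧ ((e 1 : ℕ) : ℤ) < h) :
    toPoly (trap N h)
      (fun α => coeff (Finsupp.single 0 α.1.toNat + Finsupp.single 1 α.2.toNat) Q) = Q := by
  classical
  ext e
  simp only [toPoly, term_eq, coeff_sum, coeff_monomial]
  have he : e = Finsupp.single 0 (e 0) + Finsupp.single 1 (e 1) := by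
    ext i
    fin_cases i <;> simp
  by_cases hmem : e ∈ Q.support
  · obtain ⟨h1, h2⟩ := hQ e hmem
    rw [Finset.sum_eq_single ((e 0 : ℤ), (e 1 : ℤ))]
    · simp only [Int.toNat_natCast]
      rw [if_pos he.symm, ← he]
    · intro α hα hne
      rw [if_neg]
      intro h3
      apply hne
      rw [mem_trap] at hα
      have h4 := DFunLike.congr_fun h3 0
      have h5 := DFunLike.congr_fun h3 1
      simp at h4 h5
      ext
      · simp only; omega
      · simp only; omega
    · intro hn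
      exfalso
      apply hn
      rw [mem_trap]
      refine ⟨by simp, by simp, by simpa using h2, by simpa using h1⟩
  · have h0 : coeff e Q = 0 := by simpa using hmem
    rw [h0]
    apply Finset.sum_eq_zero
    intro α _
    split_ifs with h3
    · rw [h3]; exact h0
    · rfl

/-- the points `(x, x^a)` -/
noncomputable def pt (a : ℕ) (x : ℂ) (hx : x ≠ 0) : ℂˣ × ℂˣ :=
  (Units.mk0 x hx, Units.mk0 x hx ^ a)

theorem main {a k : ℕ} (ha : 1 ≤ a) (x : Fin k → ℂ) (hx : ∀ i, x i ≠ 0)
    (hinj : Function.Injective x) (Cd : ℕ → ℤ → ℤ → Prop)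
    (hdeg : ∀ m N h, Cd m N h → ∀ α ∈ trap N h, α.1 + a * α.2 < k * m)
    (hstep : ∀ m N h, Cd (m + 1) N h → Cd m (N - a) (h - 1)) :
    ∀ (m : ℕ) (N h : ℤ), Cd m N h → ∀ f : Cell → ℂ,
      (∀ i, Van m (trap N h) (pt a (x i) (hx i)) f) → ∀ α ∈ trap N h, f α = 0 := by
  intro m
  induction m with
  | zero =>
    intro N h hc f _ α hα
    exfalso
    have h1 := hdeg 0 N h hc α hα
    rw [mem_trap] at hα
    have h2 : (0 : ℤ) ≤ a * α.2 := mul_nonneg (by positivity) hα.2.1
    simp at h1
    omega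
  | succ m ih =>
    intro N h hc f hf
    have hD : ∀ (N h : ℤ), ∀ α ∈ trap N h, 0 ≤ α.1 ∧ 0 ≤ α.2 := by
      intro N h α hα
      rw [mem_trap] at hα
      exact ⟨hα.1, hα.2.1⟩
    by_contra hcon
    set P := toPoly (trap N h) f with hP
    have hP0 : P ≠ 0 := fun h0 => hcon (toPoly_eq_zero (hD N h) h0)
    have hne : (trap N h).Nonempty := by
      by_contra he
      rw [Finset.not_nonempty_iff_eq_empty] at he
      apply hP0
      rw [hP, toPoly, he, Finset.sum_empty]
    obtain ⟨α0, hα0⟩ := hne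
    rw [mem_trap] at hα0
    have hN1 : 1 ≤ N := by omega
    have hh1 : 1 ≤ h := by omega
    -- restriction to the curve
    set r := aeval (![Polynomial.X, Polynomial.X ^ a] : Fin 2 → Polynomial ℂ) P with hr
    have hmlt : ∀ i, m + 1 ≤ mlt ![x i, x i ^ a] P := by
      intro i
      have h1 := le_mlt_of_van (hD N h) (hf i) hP0
      simpa [pt] using h1
    have hdvd : ∀ i, (Polynomial.X - Polynomial.C (x i)) ^ (m + 1) ∣ r := by
      intro i
      have h1 := X_sub_C_pow_dvd_of_mlt hP0 Polynomial.X (Polynomial.X ^ a) (x i)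
      simp only [Polynomial.eval_X, Polynomial.eval_pow] at h1
      exact (pow_dvd_pow _ (hmlt i)).trans h1
    have hprod : (∏ i : Fin k, (Polynomial.X - Polynomial.C (x i)) ^ (m + 1)) ∣ r := by
      apply Fintype.prod_dvd_of_coprime
      · intro i j hij
        exact (Polynomial.pairwise_coprime_X_sub_C hinj hij).pow
      · exact hdvd
    have hrdeg : r.degree < ((k * (m + 1) : ℕ) : WithBot ℕ) := by
      rw [← Polynomial.mem_degreeLT, hr, hP, toPoly, map_sum]
      apply Submodule.sum_mem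
      intro α hα
      have h1 := hdeg (m + 1) N h hc α hα
      rw [mem_trap] at hα
      have h2 : α.1.toNat + a * α.2.toNat < k * (m + 1) := by
        zify
        rw [Int.toNat_of_nonneg hα.1, Int.toNat_of_nonneg hα.2.1]
        exact_mod_cast h1
      have h3 : aeval (![Polynomial.X, Polynomial.X ^ a] : Fin 2 → Polynomial ℂ)
          (C (f α) * X 0 ^ α.1.toNat * X 1 ^ α.2.toNat) =
          Polynomial.C (f α) * Polynomial.X ^ (α.1.toNat + a * α.2.toNat) := by
        simp only [map_mul, map_pow, aeval_X, Matrix.cons_val_zero, Matrix.cons_val_one,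
          Matrix.cons_val_fin_one, aeval_C, Polynomial.algebraMap_eq]
        ring
      rw [h3, Polynomial.mem_degreeLT]
      exact (Polynomial.degree_C_mul_X_pow_le _ _).trans_lt (by exact_mod_cast h2)
    have hr0 : r = 0 := by
      by_contra hr0
      have h1 := Polynomial.natDegree_le_of_dvd hprod hr0
      rw [Polynomial.natDegree_prod_of_monic _ _
        (fun i _ => (Polynomial.monic_X_sub_C (x i)).pow (m + 1))] at h1
      simp only [Polynomial.natDegree_pow, Polynomial.natDegree_X_sub_C, mul_one, Finset.sum_const,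
        Finset.card_univ, Fintype.card_fin, smul_eq_mul] at h1
      rw [Polynomial.degree_eq_natDegree hr0] at hrdeg
      have h2 : r.natDegree < k * (m + 1) := by exact_mod_cast hrdeg
      omega
    obtain ⟨Q, hQ⟩ := cur_dvd hr0
    have hQ0 : Q ≠ 0 := by
      rintro rfl
      apply hP0
      rw [hQ, mul_zero]
    obtain ⟨hd1, hd2⟩ := totalDegree_toPoly_trap (f := f) hN1 hh1
    rw [← hP, hQ] at hd1 hd2
    rw [totalDegree_mul_of_isDomain (cur_ne_zero a) hQ0] at hd1
    rw [degreeOf_mul_eq (cur_ne_zero a) hQ0] at hd2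
    have hc1 := le_totalDegree_cur ha
    have hc2 := le_degreeOf_cur a
    push_cast at hd1 hd2
    have hsupp : ∀ e ∈ Q.support, ((e 0 : ℕ) : ℤ) + (e 1 : ℕ) < N - a ∧ ((e 1 : ℕ) : ℤ) < h - 1 := by
      intro e he
      have h1 := le_totalDegree he
      have h2 := monomial_le_degreeOf 1 he
      rw [Finsupp.sum_fintype _ _ (fun _ => rfl), Fin.sum_univ_two] at h1
      constructor <;> omega
    have hfQ := toPoly_coeff hsupp
    set fQ : Cell → ℂ :=
      fun α => coeff (Finsupp.single 0 α.1.toNat + Finsupp.single 1 α.2.toNat) Q with hfQd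
    have hvan : ∀ i, Van m (trap (N - a) (h - 1)) (pt a (x i) (hx i)) fQ := by
      intro i
      apply van_of_le_mlt (hD _ _)
      left
      rw [hfQ]
      have h1 := hmlt i
      rw [hQ, mlt_mul (cur_ne_zero a) hQ0] at h1
      have h2 := mlt_cur_le a ![x i, x i ^ a]
      have h3 : m ≤ mlt ![x i, x i ^ a] Q := by omega
      simpa [pt] using h3
    have hzero := ih (N - a) (h - 1) (hstep m N h hc) fQ hvan
    apply hQ0
    rw [← hfQ, toPoly]
    apply Finset.sum_eq_zero
    intro α hα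
    rw [hzero α hα]
    simp

end Strip

open Strip in
/-- one strip of height about `m`: points on `y = x^a` -/
theorem thin_strip {m : ℕ} {N h : ℤ} {a : ℕ} (ha : 1 ≤ a)
    (hc : N - 1 + (a - 1) * (h - 1) < (2 * a - 1) * m) :
    Emp m (trap N h) (2 * a - 1) := by
  have hx : ∀ i : Fin (2 * a - 1), ((i : ℕ) + 1 : ℂ) ≠ 0 := fun i => by
    exact Nat.cast_add_one_ne_zero (R := ℂ) _
  have hinj : Function.Injective (fun i : Fin (2 * a - 1) => ((i : ℕ) + 1 : ℂ)) := by
    intro i j hij
    simp only [add_left_inj, Nat.cast_inj] at hij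
    exact Fin.ext hij
  have hk : ((2 * a - 1 : ℕ) : ℤ) = 2 * a - 1 := by omega
  refine ⟨fun i => pt a ((i : ℕ) + 1 : ℂ) (hx i), ?_⟩
  refine main ha _ hx hinj
    (fun m N h => N - 1 + (a - 1) * (h - 1) < (2 * a - 1) * m) ?_ ?_ m N h hc
  · intro m N h hc α hα
    rw [mem_trap] at hα
    rw [hk]
    have h1 : ((a : ℤ) - 1) * α.2 ≤ (a - 1) * (h - 1) :=
      mul_le_mul_of_nonneg_left (by omega) (by omega)
    nlinarith
  · intro m N h hc
    push_cast at hc ⊢
    nlinarith

open Strip in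
/-- the top triangle: `w^2` points on `y = x^w` -/
theorem top_triangle {m w : ℕ} {N : ℤ} (hw : 1 ≤ w) (hN : N ≤ w * m) :
    Emp m (trap N N) (w ^ 2) := by
  have hx : ∀ i : Fin (w ^ 2), ((i : ℕ) + 1 : ℂ) ≠ 0 := fun i => by
    exact Nat.cast_add_one_ne_zero (R := ℂ) _
  have hinj : Function.Injective (fun i : Fin (w ^ 2) => ((i : ℕ) + 1 : ℂ)) := by
    intro i j hij
    simp only [add_left_inj, Nat.cast_inj] at hij
    exact Fin.ext hij
  refine ⟨fun i => pt w ((i : ℕ) + 1 : ℂ) (hx i), ?_⟩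
  refine main hw _ hx hinj (fun m N _ => N ≤ w * m) ?_ ?_ m N N hN
  · intro m N h hc α hα
    rw [mem_trap] at hα
    have hw' : (1 : ℤ) ≤ w := by exact_mod_cast hw
    have h1 : α.1 + w * α.2 ≤ w * (α.1 + α.2) := by nlinarith [hα.1]
    have h2 : (w : ℤ) * (α.1 + α.2) ≤ w * (w * m - 1) :=
      mul_le_mul_of_nonneg_left (by omega) (by omega)
    push_cast
    nlinarith
  · intro m N h hc
    push_cast at hc ⊢
    linarith

end Pool.Agent.Lib.MP_ed661f_ag.E
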