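import Pool.Agent.Lib.MP_ed661f_ag.E.Phase
import Pool.Agent.Lib.MP_ed661f_ag.E.Strip

/-!
The single strip killed by points of the curve `y = x ^ a`, and the top triangle.
-/

namespace Pool.Agent.Lib.MP_ed661f_ag.E

theorem thin_num {b c m e N N' δ t : ℤ} (hb : 1000 ≤ b) (hc : c ≤ 8) (hc' : -8 ≤ c)
    (hbm : b ^ 2 ≤ m) (hmb : 1000 * m ≤ b ^ 4) (he : e ≤ 5 * m ^ 2)
    (he' : -(5 * m ^ 2) ≤ e) (hN0 : 0 ≤ N)
    (hN : N = (b + 1) * m + δ) (hN' : N' = b * m + t)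
    (a1 : 16 * (N * (N + 1)) ≤ ((b + 1) ^ 2 + c) * (16 * m ^ 2 + m) + e)
    (a2 : ((b + 1) ^ 2 + c) * (16 * m ^ 2 + m) + e < 16 * ((N + 1) * (N + 2)))
    (t1 : b * t ≤ (b + 1) * δ - 1) (t2 : (b + 1) * δ - b ≤ b * t) :
    16 * (N' * (N' + 1)) ≤ (b ^ 2 + c) * (16 * m ^ 2 + m) + (e + 1000 * (b + 1) * m) := by
  have hm0 : 0 < m := by nlinarith
  have hm1 : 1000 * b ≤ m := by nlinarith
  have hmm : 1000 * m ≤ m ^ 2 := by nlinarith
  have hbmm : (b + 1) ^ 2 * m ≤ 2 * m * m := mul_le_mul_of_nonneg_right (by nlinarith) hm0.le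
  have hcm : c * m ^ 2 ≤ 8 * m ^ 2 := mul_le_mul_of_nonneg_right hc (by positivity)
  have hcm' : -8 * m ^ 2 ≤ c * m ^ 2 := mul_le_mul_of_nonneg_right hc' (by positivity)
  have hcm1 : c * m ≤ 8 * m := mul_le_mul_of_nonneg_right hc hm0.le
  have hcm1' : -8 * m ≤ c * m := mul_le_mul_of_nonneg_right hc' hm0.le
  have hbm1 : b * m ≤ m ^ 2 := by nlinarith
  have b1 : 32 * ((b + 1) * δ) * m + 16 * δ ^ 2 + 16 * ((b + 1) * m) + 16 * δ ≤
      (b + 1) ^ 2 * m + 16 * (c * m ^ 2) + c * m + e := by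
    rw [hN] at a1
    nlinarith
  have b2 : (b + 1) ^ 2 * m + 16 * (c * m ^ 2) + c * m + e <
      32 * ((b + 1) * δ) * m + 16 * δ ^ 2 + 48 * ((b + 1) * m) + 48 * δ + 32 := by
    rw [hN] at a2
    nlinarith
  have d1 : (b + 1) * δ ≤ 10 * m := by
    by_contra hcon
    rw [not_le] at hcon
    have hδ : 0 < δ := by
      by_contra h
      rw [not_lt] at h
      have : (b + 1) * δ ≤ 0 := mul_nonpos_of_nonneg_of_nonpos (by omega) h
      omega
    have h1 : 10 * m * m ≤ (b + 1) * δ * m := mul_le_mul_of_nonneg_right hcon.le hm0.le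
    have h2 : 0 ≤ δ ^ 2 := sq_nonneg δ
    nlinarith
  have d2 : -(10 * m) ≤ (b + 1) * δ := by
    by_contra hcon
    rw [not_le] at hcon
    have hδ : δ < 0 := by
      by_contra h
      rw [not_lt] at h
      have : 0 ≤ (b + 1) * δ := mul_nonneg (by omega) h
      omega
    have h0 : -((b + 1) * m) ≤ δ := by omega
    have h1 : (b + 1) * δ * m ≤ -(10 * m) * m := mul_le_mul_of_nonneg_right hcon.le hm0.le
    have h2 : δ * δ ≤ -((b + 1) * m) * δ := mul_le_mul_of_nonpos_right h0 hδ.le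
    nlinarith
  obtain ⟨x, hx⟩ : ∃ x, x = t - δ := ⟨_, rfl⟩
  obtain rfl : t = δ + x := by omega
  obtain ⟨u, hu⟩ : ∃ u, u = |δ| := ⟨_, rfl⟩
  obtain ⟨v, hv⟩ : ∃ v, v = |x| := ⟨_, rfl⟩
  have u0 : 0 ≤ u := by rw [hu]; exact abs_nonneg _
  have v0 : 0 ≤ v := by rw [hv]; exact abs_nonneg _
  have u1 : b * u ≤ 10 * m := by
    have h1 : (b + 1) * u ≤ 10 * m := by
      rw [hu]
      rcases abs_cases δ with ⟨h, _⟩ | ⟨h, _⟩
      · rw [h]
        exact d1
      · rw [h]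
        linarith
    nlinarith
  have v1 : b * v ≤ u + b := by
    rw [hv, hu]
    have h1 := le_abs_self δ
    have h2 := neg_abs_le δ
    rcases abs_cases x with ⟨h, _⟩ | ⟨h, _⟩
    · rw [h]
      nlinarith
    · rw [h]
      nlinarith
  have v2 : b ^ 2 * v ≤ 11 * m := by nlinarith
  have v3 : (b ^ 2 * v) * (b ^ 2 * v) ≤ 11 * m * (11 * m) :=
    mul_le_mul v2 v2 (by positivity) (by positivity)
  have v4 : 1000 * m * v ^ 2 ≤ b ^ 4 * v ^ 2 := mul_le_mul_of_nonneg_right hmb (by positivity)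
  have v5 : v ^ 2 ≤ m := by
    have : m * (1000 * v ^ 2) ≤ m * (121 * m) := by nlinarith
    have := le_of_mul_le_mul_left this hm0
    omega
  have w1 : (b * u) * (b ^ 2 * v) ≤ 10 * m * (11 * m) :=
    mul_le_mul u1 v2 (by positivity) (by positivity)
  have w2 : 1000 * m * (u * v) ≤ b ^ 4 * (u * v) := mul_le_mul_of_nonneg_right hmb (by positivity)
  have w3 : b * ((b * u) * (b ^ 2 * v)) ≤ b * (10 * m * (11 * m)) :=
    mul_le_mul_of_nonneg_left w1 (by omega)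
  have w4 : u * v ≤ b * m := by
    have h1 : m * (1000 * (u * v)) ≤ m * (110 * (b * m)) := by nlinarith
    have h2 := le_of_mul_le_mul_left h1 hm0
    have h3 : 0 ≤ b * m := by positivity
    omega
  have w5 : v ≤ m := by nlinarith
  have x1 : x ^ 2 ≤ m := by
    rw [← sq_abs x, ← hv]
    exact v5
  have x2 : δ * x ≤ b * m := by
    refine le_trans ?_ w4
    rw [hu, hv, ← abs_mul]
    exact le_abs_self _
  have x3 : x ≤ m := by
    refine le_trans ?_ w5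
    rw [hv]
    exact le_abs_self _
  have y1 : b * (δ + x) * m ≤ ((b + 1) * δ - 1) * m := mul_le_mul_of_nonneg_right t1 hm0.le
  rw [hN']
  nlinarith

/-- the single strip -/
theorem thin {m b : ℕ} {c e : ℤ} {j : ℕ} (hb : 1000 ≤ b) (hc : c ≤ 8) (hc' : -8 ≤ c)
    (hbm : b ^ 2 ≤ m) (hmb : 1000 * m ≤ b ^ 4) (he : e ≤ 5 * (m : ℤ) ^ 2)
    (he' : -(5 * (m : ℤ) ^ 2) ≤ e)
    (h : Good m (e + 1000 * (b + 1) * m) ((b : ℤ) ^ 2 + c) j) :
    Good m e (((b : ℤ) + 1) ^ 2 + c) (j + (2 * b + 1)) := by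
  have hb' : (1000 : ℤ) ≤ b := by exact_mod_cast hb
  have hbm' : (b : ℤ) ^ 2 ≤ m := by exact_mod_cast hbm
  have hmb' : 1000 * (m : ℤ) ≤ (b : ℤ) ^ 4 := by exact_mod_cast hmb
  have hm0 : (0 : ℤ) < m := by nlinarith
  have hX : 0 ≤ (((b : ℤ) + 1) ^ 2 + c) * (16 * (m : ℤ) ^ 2 + m) + e := by
    have h1 : 1 * (16 * (m : ℤ) ^ 2 + m) ≤ (((b : ℤ) + 1) ^ 2 + c) * (16 * (m : ℤ) ^ 2 + m) :=
      mul_le_mul_of_nonneg_right (by nlinarith) (by positivity)
    nlinarith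
  obtain ⟨N, hN0, a1, a2, a3⟩ := exists_max _ hX
  -- the height of the strip
  obtain ⟨η, hη⟩ : ∃ η : ℤ, η = ((2 * b + 1) * m - N + b) / b := ⟨_, rfl⟩
  have e1 : b * η ≤ (2 * b + 1) * m - N + b := by
    rw [hη]
    exact Int.mul_ediv_self_le (by omega)
  have e2 : (2 * b + 1) * m - N + b < b * η + b := by
    rw [hη]
    have := Int.lt_mul_ediv_self_add (x := (2 * b + 1) * m - N + b) (k := b) (by omega)
    exact this
  have hstrip : Emp m (trap N η) (2 * (b + 1) - 1) := by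
    refine thin_strip (a := b + 1) (by omega) ?_
    push_cast
    nlinarith
  have hbb : 2 * (b + 1) - 1 = 2 * b + 1 := by omega
  rw [hbb] at hstrip
  have hN' : Emp m (trap (N - η) (N - η)) j := by
    apply h
    refine thin_num (δ := N - (b + 1) * m) (t := N - η - b * m) hb' hc hc' hbm' hmb' he he' hN0
      (by ring) (by ring) a1 a2 ?_ ?_
    · nlinarith
    · nlinarith
  have hfin := cut_trap hstrip hN'
  intro M hM
  have hMN := a3 M hM
  refine (hfin.mono ?_).mono_right (by omega)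
  intro α hα
  rw [mem_trap] at hα ⊢
  omega

/-- the top triangle -/
theorem top {m w : ℕ} {e : ℤ} (hw : 1 ≤ w) (he : (w : ℤ) ^ 2 * m + e ≤ 0) :
    Good m e ((w : ℤ) ^ 2) (w ^ 2) := by
  intro N hN
  refine top_triangle hw ?_
  by_contra hcon
  rw [not_le] at hcon
  have h0 : (0 : ℤ) ≤ w * m := by positivity
  have h1 : ((w : ℤ) * m) * (w * m) < N * (N + 1) := by nlinarith
  nlinarith

end Pool.Agent.Lib.MP_ed661f_ag.E
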